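import Pool.Agent.MP_334d28_an.Basic

/-! The area estimate: the only place where univalence enters in a global way. -/

open Complex Metric Set Filter Topology MeasureTheory
open scoped ComplexConjugate Real ENNReal

namespace Pool.Agent.MP_334d28_an

/-- Polar coordinates. -/
noncomputable def pz (t φ : ℝ) : ℂ := t * exp (φ * I)

lemma norm_pz (t φ : ℝ) : ‖pz t φ‖ = |t| := by simp [pz, norm_exp_ofReal_mul_I]

lemma norm_pz' {t : ℝ} (ht : 0 ≤ t) (φ : ℝ) : ‖pz t φ‖ = t := by rw [norm_pz, abs_of_nonneg ht]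

lemma pz_ne {t : ℝ} (ht : 0 < t) (φ : ℝ) : pz t φ ≠ 0 := by
  rw [← norm_pos_iff, norm_pz' ht.le]; exact ht

@[fun_prop] lemma continuous_pz : Continuous fun p : ℝ × ℝ => pz p.1 p.2 := by
  unfold pz; fun_prop

lemma polar_symm (p : ℝ × ℝ) : Complex.polarCoord.symm p = pz p.1 p.2 := by
  rw [Complex.polarCoord_symm_apply, pz, exp_mul_I]; simp

lemma integrableOn_rect {F : ℝ × ℝ → ℝ} {a b c d : ℝ}
    (hF : ContinuousOn F (Icc a b ×ˢ Icc c d)) : IntegrableOn F (Icc a b ×ˢ Icc c d) :=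
  hF.integrableOn_compact (isCompact_Icc.prod isCompact_Icc)

lemma rect_swap {F : ℝ → ℝ → ℝ} {a b c d : ℝ} (hab : a ≤ b) (hcd : c ≤ d)
    (hF : ContinuousOn (fun p : ℝ × ℝ => F p.1 p.2) (Icc a b ×ˢ Icc c d)) :
    ∫ x in a..b, ∫ y in c..d, F x y = ∫ y in c..d, ∫ x in a..b, F x y := by
  apply intervalIntegral_intervalIntegral_swap
  rw [uIoc_of_le hab, uIoc_of_le hcd]
  exact (integrableOn_rect hF).mono_set (prod_mono Ioc_subset_Icc_self Ioc_subset_Icc_self)

lemma rect_integrable {F : ℝ → ℝ → ℝ} {a b c d : ℝ} (hab : a ≤ b) (hcd : c ≤ d)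
    (hF : ContinuousOn (fun p : ℝ × ℝ => F p.1 p.2) (Icc a b ×ˢ Icc c d)) :
    IntervalIntegrable (fun x => ∫ y in c..d, F x y) volume a b := by
  have h1 : IntegrableOn (fun p : ℝ × ℝ => F p.1 p.2) (Ioc a b ×ˢ Ioc c d) :=
    (integrableOn_rect hF).mono_set (prod_mono Ioc_subset_Icc_self Ioc_subset_Icc_self)
  rw [IntegrableOn, Measure.volume_eq_prod, ← Measure.prod_restrict] at h1
  have := h1.integral_prod_left
  rw [intervalIntegrable_iff_integrableOn_Ioc_of_le hab]
  simp_rw [intervalIntegral.integral_of_le hcd]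
  exact this

lemma rect_ofReal {F : ℝ → ℝ → ℝ} {a b c d : ℝ} (hab : a ≤ b) (hcd : c ≤ d)
    (hF : ContinuousOn (fun p : ℝ × ℝ => F p.1 p.2) (Icc a b ×ˢ Icc c d))
    (h0 : ∀ x ∈ Icc a b, ∀ y ∈ Icc c d, 0 ≤ F x y) :
    ENNReal.ofReal (∫ x in a..b, ∫ y in c..d, F x y) =
      ∫⁻ p in Ioo a b ×ˢ Ioo c d, ENNReal.ofReal (F p.1 p.2) := by
  have h1 : IntegrableOn (fun p : ℝ × ℝ => F p.1 p.2) (Ioo a b ×ˢ Ioo c d) :=
    (integrableOn_rect hF).mono_set (prod_mono Ioo_subset_Icc_self Ioo_subset_Icc_self)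
  rw [← ofReal_integral_eq_lintegral_ofReal h1]
  · congr 1
    rw [Measure.volume_eq_prod] at h1 ⊢
    rw [setIntegral_prod _ h1, intervalIntegral.integral_of_le hab, integral_Ioc_eq_integral_Ioo]
    simp_rw [intervalIntegral.integral_of_le hcd, integral_Ioc_eq_integral_Ioo]
  · refine (ae_restrict_iff' (measurableSet_Ioo.prod measurableSet_Ioo)).2
      (Eventually.of_forall fun p hp => h0 _ (Ioo_subset_Icc_self hp.1) _ (Ioo_subset_Icc_self hp.2))

/-- The real derivative of `h + conj g`. -/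
noncomputable def dff (a b : ℂ) : ℂ →L[ℝ] ℂ :=
  a • ContinuousLinearMap.id ℝ ℂ + conj b • (conjCLE : ℂ →L[ℝ] ℂ)

lemma dff_apply (a b v : ℂ) : dff a b v = a * v + conj (b * v) := by
  simp [dff]

lemma det_dff (a b : ℂ) : (dff a b).det = ‖a‖ ^ 2 - ‖b‖ ^ 2 := by
  rw [ContinuousLinearMap.det, ← LinearMap.det_toMatrix basisOneI, Matrix.det_fin_two]
  simp only [LinearMap.toMatrix_apply, ContinuousLinearMap.coe_coe, dff_apply, coe_basisOneI,
    coe_basisOneI_repr, Complex.sq_norm, normSq_apply]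
  simp
  ring

namespace SH

variable {h g : ℂ → ℂ} (S : SH h g)
include S

lemma hasFDerivAt_ff {z : ℂ} (hz : ‖z‖ < 1) :
    HasFDerivAt (ff h g) (dff (deriv h z) (deriv g z)) z := by
  have a := (hasDerivAt_of_D S.hh hz).hasFDerivAt.restrictScalars ℝ
  have b := (conjCLE : ℂ →L[ℝ] ℂ).hasFDerivAt.comp z
    ((hasDerivAt_of_D S.hg hz).hasFDerivAt.restrictScalars ℝ)
  refine HasFDerivAt.congr_fderiv (a.add b) ?_
  ext1 v
  simp [dff_apply, mul_comm]

lemma jac_pos {z : ℂ} (hz : ‖z‖ < 1) : 0 < ‖deriv h z‖ ^ 2 - ‖deriv g z‖ ^ 2 := by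
  have := S.lt z (mem_D.2 hz)
  nlinarith [norm_nonneg (deriv g z)]

lemma continuousOn_dens {δ r : ℝ} (hδ : 0 < δ) (hr : r < 1) (c d : ℝ) :
    ContinuousOn (fun p : ℝ × ℝ => p.1 * ((‖deriv h (pz p.1 p.2)‖ ^ 2 - ‖deriv g (pz p.1 p.2)‖ ^ 2)
      / ‖ff h g (pz p.1 p.2)‖ ^ 3)) (Icc δ r ×ˢ Icc c d) := by
  have m : MapsTo (fun p : ℝ × ℝ => pz p.1 p.2) (Icc δ r ×ˢ Icc c d) (ball 0 1) := fun p hp =>
    mem_D.2 (by rw [norm_pz' (hδ.le.trans hp.1.1)]; exact hp.1.2.trans_lt hr)
  have c1 := S.dh.continuousOn.comp continuous_pz.continuousOn m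
  have c2 := S.dg.continuousOn.comp continuous_pz.continuousOn m
  have c3 := S.continuousOn_ff.comp continuous_pz.continuousOn m
  refine continuousOn_fst.mul (((c1.norm.pow 2).sub (c2.norm.pow 2)).div (c3.norm.pow 3) ?_)
  intro p hp
  exact pow_ne_zero _ (norm_ne_zero_iff.2 (S.ff_ne (mem_D.1 (m hp)) (pz_ne (hδ.trans_le hp.1.1) _)))

lemma area_le {δ r : ℝ} (hδ : 0 < δ) (hδr : δ ≤ r) (hr : r < 1) {ρ : ℝ → ℝ} (hρc : Continuous ρ)
    (hρ : ∀ θ, 0 < ρ θ)
    (H : ∀ z : ℂ, δ ≤ ‖z‖ → ‖z‖ ≤ r → ∀ s θ : ℝ, 0 < s → ff h g z = pz s θ → ρ θ ≤ s) :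
    ∫ t in δ..r, ∫ φ in (-π)..π,
      t * ((‖deriv h (pz t φ)‖ ^ 2 - ‖deriv g (pz t φ)‖ ^ 2) / ‖ff h g (pz t φ)‖ ^ 3)
      ≤ ∫ θ in (-π)..π, 1 / ρ θ := by
  have hpi : -π ≤ π := by linarith [Real.pi_pos]
  set A : Set ℂ := {z | δ < ‖z‖ ∧ ‖z‖ < r} with hA
  have Am : MeasurableSet A :=
    ((isOpen_lt continuous_const continuous_norm).inter
      (isOpen_lt continuous_norm continuous_const)).measurableSet
  have AD : A ⊆ ball 0 1 := fun z hz => mem_D.2 (hz.2.trans hr)
  have hd : ∀ z ∈ A, HasFDerivWithinAt (ff h g) (dff (deriv h z) (deriv g z)) A z :=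
    fun z hz => (S.hasFDerivAt_ff (mem_D.1 (AD hz))).hasFDerivWithinAt
  have hi : InjOn (ff h g) A := S.inj.mono AD
  have key := lintegral_image_eq_lintegral_abs_det_fderiv_mul volume Am hd hi
    (fun w => ENNReal.ofReal (1 / ‖w‖ ^ 3))
  have Im : MeasurableSet (ff h g '' A) := measurable_image_of_fderivWithin Am hd hi
  have c1 : ContinuousOn (fun θ => 1 / ρ θ) (Icc (-π) π) :=
    (continuous_const.div hρc fun θ => (hρ θ).ne').continuousOn
  have nn : 0 ≤ ∫ θ in (-π)..π, 1 / ρ θ :=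
    intervalIntegral.integral_nonneg hpi fun θ _ => (one_div_pos.2 (hρ θ)).le
  rw [← ENNReal.ofReal_le_ofReal_iff nn, rect_ofReal hδr hpi (S.continuousOn_dens hδ hr _ _) (by
    intro t ht φ _
    have := S.jac_pos (z := pz t φ) (by rw [norm_pz' (hδ.le.trans ht.1)]; exact ht.2.trans_lt hr)
    have := hδ.trans_le ht.1
    positivity)]
  have tm : MeasurableSet (polarCoord.target) := polarCoord.open_target.measurableSet
  calc _ = ∫⁻ z in A, ENNReal.ofReal |(dff (deriv h z) (deriv g z)).det| *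
        ENNReal.ofReal (1 / ‖ff h g z‖ ^ 3) := by
        rw [← lintegral_indicator Am, ← Complex.lintegral_comp_polarCoord_symm,
          ← lintegral_indicator tm,
          ← lintegral_indicator (measurableSet_Ioo.prod measurableSet_Ioo)]
        congr 1
        ext p
        by_cases hp : p ∈ Ioo δ r ×ˢ Ioo (-π) π
        · have p1 : 0 < p.1 := hδ.trans hp.1.1
          have pt : p ∈ polarCoord.target := ⟨p1, hp.2⟩
          have pA : pz p.1 p.2 ∈ A := by
            simp only [hA, mem_ofPred_eq, norm_pz' p1.le]; exact hp.1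
          have J := S.jac_pos (mem_D.1 (AD pA))
          rw [indicator_of_mem hp, indicator_of_mem pt, polar_symm, indicator_of_mem pA, det_dff,
            abs_of_pos J, smul_eq_mul, ← ENNReal.ofReal_mul J.le, ← ENNReal.ofReal_mul p1.le,
            mul_one_div]
        · rw [indicator_of_notMem hp]
          by_cases pt : p ∈ polarCoord.target
          · rw [indicator_of_mem pt, polar_symm, indicator_of_notMem, smul_zero]
            intro pA
            simp only [hA, mem_ofPred_eq, norm_pz' (le_of_lt pt.1)] at pA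
            exact hp ⟨pA, pt.2⟩
          · rw [indicator_of_notMem pt]
    _ = ∫⁻ w in ff h g '' A, ENNReal.ofReal (1 / ‖w‖ ^ 3) := key.symm
    _ ≤ ∫⁻ p in Ioi (0 : ℝ) ×ˢ Ioo (-π) π,
          {p : ℝ × ℝ | ρ p.2 ≤ p.1}.indicator (fun p => ENNReal.ofReal (p.1 ^ (-2 : ℝ))) p := by
        rw [← lintegral_indicator Im, ← Complex.lintegral_comp_polarCoord_symm]
        refine setLIntegral_mono' tm fun p hp => ?_
        have p1 : 0 < p.1 := hp.1
        rw [polar_symm]
        by_cases hw : pz p.1 p.2 ∈ ff h g '' A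
        · obtain ⟨z, hz, e⟩ := hw
          have : ρ p.2 ≤ p.1 := H z hz.1.le hz.2.le _ _ p1 e
          rw [indicator_of_mem (show pz p.1 p.2 ∈ ff h g '' A from ⟨z, hz, e⟩),
            indicator_of_mem (show p ∈ {p : ℝ × ℝ | ρ p.2 ≤ p.1} from this), smul_eq_mul,
            ← ENNReal.ofReal_mul p1.le, norm_pz' p1.le]
          apply le_of_eq
          congr 1
          rw [Real.rpow_neg p1.le, Real.rpow_two]
          field_simp
        · rw [indicator_of_notMem hw, smul_zero]; exact zero_le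
    _ = ∫⁻ θ in Ioo (-π) π, ∫⁻ s in Ioi (0 : ℝ),
          {p : ℝ × ℝ | ρ p.2 ≤ p.1}.indicator (fun p => ENNReal.ofReal (p.1 ^ (-2 : ℝ))) (s, θ) := by
        rw [Measure.volume_eq_prod, ← Measure.prod_restrict, lintegral_prod_symm]
        apply Measurable.aemeasurable
        refine Measurable.indicator ?_ (isClosed_le (hρc.comp continuous_snd) continuous_fst).measurableSet
        exact (measurable_fst.pow_const _).ennreal_ofReal
    _ ≤ ∫⁻ θ in Ioo (-π) π, ENNReal.ofReal (1 / ρ θ) := by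
        refine lintegral_mono fun θ => ?_
        have e : ∀ s : ℝ, {p : ℝ × ℝ | ρ p.2 ≤ p.1}.indicator
            (fun p => ENNReal.ofReal (p.1 ^ (-2 : ℝ))) (s, θ)
            = (Ici (ρ θ)).indicator (fun s => ENNReal.ofReal (s ^ (-2 : ℝ))) s := by
          intro s; simp only [indicator, mem_ofPred_eq, mem_Ici]
        simp_rw [e]
        refine (setLIntegral_le_lintegral _ _).trans ?_
        rw [lintegral_indicator measurableSet_Ici, ← setLIntegral_congr Ioi_ae_eq_Ici,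
          ← ofReal_integral_eq_lintegral_ofReal (integrableOn_Ioi_rpow_of_lt (by norm_num) (hρ θ)),
          integral_Ioi_rpow_of_lt (by norm_num) (hρ θ)]
        · apply le_of_eq; congr 1
          norm_num
          rw [Real.rpow_neg_one]
        · refine (ae_restrict_iff' measurableSet_Ioi).2 (Eventually.of_forall fun s hs => ?_)
          exact Real.rpow_nonneg ((hρ θ).le.trans (le_of_lt hs)) _
    _ = _ := by
        rw [← ofReal_integral_eq_lintegral_ofReal, intervalIntegral.integral_of_le hpi,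
          integral_Ioc_eq_integral_Ioo]
        · exact (c1.integrableOn_compact isCompact_Icc).mono_set Ioo_subset_Icc_self
        · exact Eventually.of_forall fun θ => (one_div_pos.2 (hρ θ)).le

end SH

end Pool.Agent.MP_334d28_an
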