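import Pool.Agent.MP_334d28_an.Area

/-! Asymptotics on small circles. -/

open Complex Metric Set Filter Topology MeasureTheory
open scoped ComplexConjugate Real

namespace Pool.Agent.MP_334d28_an

lemma int_exp (n : ℤ) (hn : n ≠ 0) : ∫ θ in (-π)..π, exp (n * θ * I) = 0 := by
  have c0 : (n : ℂ) * I ≠ 0 := mul_ne_zero (by exact_mod_cast hn) I_ne_zero
  have := integral_exp_mul_complex (a := -π) (b := π) c0
  simp_rw [show ∀ θ : ℝ, (n : ℂ) * θ * I = n * I * θ from fun θ => by ring]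
  rw [this, div_eq_zero_iff]
  left
  rw [show (n : ℂ) * I * (π : ℝ) = n * I * ((-π : ℝ) : ℂ) + n * (2 * π * I) by push_cast; ring,
    exp_add, exp_int_mul_two_pi_mul_I]
  simp

lemma int_re (c : ℂ) (n : ℤ) (hn : n ≠ 0) : ∫ θ in (-π)..π, (c * exp (n * θ * I)).re = 0 := by
  have hc : Continuous fun θ : ℝ => c * exp (n * θ * I) := by fun_prop
  have := reCLM.intervalIntegral_comp_comm (hc.intervalIntegrable (μ := volume) (-π) π)
  simp only [reCLM_apply] at this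
  rw [this, intervalIntegral.integral_const_mul, int_exp n hn]
  simp

lemma norm_one_sub_le (x : ℂ) : ‖1 - x‖ ≤ 1 - x.re + ‖x‖ ^ 2 := by
  have h1 : x.re ≤ ‖x‖ := re_le_norm x
  apply abs_le_of_sq_le_sq' _ _ |>.2
  · have : ‖1 - x‖ ^ 2 = 1 - 2 * x.re + ‖x‖ ^ 2 := by
      simp only [Complex.sq_norm, normSq_apply, sub_re, one_re, sub_im, one_im]; ring
    rw [this]
    nlinarith [sq_nonneg (x.re - ‖x‖ ^ 2), sq_nonneg ‖x‖]
  · nlinarith [sq_nonneg (‖x‖ - 1 / 2)]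

lemma invert_aux {δ s m K C : ℝ} (hδ : 0 < δ) (hs : 0 < s) (hm : |m| ≤ K) (hC : 0 ≤ C)
    (hK : δ * K ≤ 1 / 6) (H : δ ≤ s - s ^ 2 * m + C * s ^ 3) :
    δ + δ ^ 2 * m - 2 * (3 * K ^ 2 + 8 * C) * δ ^ 3 ≤ s := by
  by_contra hh
  push Not at hh
  have K0 : 0 ≤ K := (abs_nonneg _).trans hm
  obtain ⟨m1, m2⟩ := abs_le.1 hm
  set x := δ + δ ^ 2 * m - s with hx
  have d3 : 0 < δ ^ 3 := by positivity
  have x1 : 2 * (3 * K ^ 2 + 8 * C) * δ ^ 3 < x := by linarith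
  have x0 : 0 < x := lt_of_le_of_lt (by positivity) x1
  have dm : δ ^ 2 * m ≤ δ / 6 := by nlinarith [mul_le_mul_of_nonneg_left m2 (sq_nonneg δ)]
  have s2 : s ≤ 2 * δ := by linarith
  have s3 : s ^ 3 ≤ 8 * δ ^ 3 := by
    calc s ^ 3 ≤ (2 * δ) ^ 3 := pow_le_pow_left₀ hs.le s2 3
      _ = _ := by ring
  have a1 : |δ - s| ≤ x + δ ^ 2 * K := by
    rw [show δ - s = x - δ ^ 2 * m by rw [hx]; ring]
    refine (abs_sub _ _).trans ?_
    rw [abs_of_pos x0, abs_mul, abs_of_nonneg (sq_nonneg δ)]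
    gcongr
  have a2 : (δ ^ 2 - s ^ 2) * m ≤ (x + δ ^ 2 * K) * (3 * δ) * K := by
    refine (le_abs_self _).trans ?_
    rw [show δ ^ 2 - s ^ 2 = (δ - s) * (δ + s) by ring, abs_mul, abs_mul,
      abs_of_pos (show 0 < δ + s by positivity)]
    gcongr
    linarith
  have a3 : x * (3 * δ) * K ≤ x / 2 := by nlinarith
  have a4 : C * s ^ 3 ≤ C * (8 * δ ^ 3) := mul_le_mul_of_nonneg_left s3 hC
  nlinarith

/-- The angular profile of the second order term. -/
noncomputable def prof (a b : ℂ) (θ : ℝ) : ℂ := a * exp (θ * I) + conj b * exp ((-3 : ℤ) * θ * I)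

lemma norm_prof_le (a b : ℂ) (θ : ℝ) : ‖prof a b θ‖ ≤ ‖a‖ + ‖b‖ := by
  refine (norm_add_le _ _).trans ?_
  have : ‖exp ((-3 : ℤ) * θ * I)‖ = 1 := by
    rw [show ((-3 : ℤ) : ℂ) * θ = ((-3 * θ : ℝ) : ℂ) by push_cast; ring, norm_exp_ofReal_mul_I]
  rw [norm_mul, norm_mul, norm_exp_ofReal_mul_I, this, Complex.norm_conj]; simp

lemma prof_eq (a b : ℂ) (s θ : ℝ) :
    a * pz s θ ^ 2 + conj (b * pz s θ ^ 2) = pz s θ * (s * prof a b θ) := by
  have e : exp ((-3 : ℤ) * θ * I) * exp (θ * I) = conj (exp (θ * I)) ^ 2 := by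
    rw [← exp_conj, ← exp_add, ← exp_nat_mul]; congr 1; simp; ring
  simp only [pz, prof, map_mul, map_pow, conj_ofReal]
  linear_combination (-(s : ℂ) ^ 2 * conj b) * e

@[fun_prop] lemma continuous_prof (a b : ℂ) : Continuous (prof a b) := by unfold prof; fun_prop

lemma int_prof (a b : ℂ) : ∫ θ in (-π)..π, (prof a b θ).re = 0 := by
  have h1 := int_re a 1 one_ne_zero
  have h2 := int_re (conj b) (-3) (by norm_num)
  simp only [Int.cast_one, one_mul] at h1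
  simp only [prof, add_re]
  rw [intervalIntegral.integral_add, h1, h2, add_zero] <;>
    exact Continuous.intervalIntegrable (by fun_prop) _ _

namespace SH

variable {h g : ℂ → ℂ} (S : SH h g)
include S

lemma inverse_bound : ∃ C ε : ℝ, 0 ≤ C ∧ 0 < ε ∧ ∀ z : ℂ, ‖z‖ < ε → ∀ s θ : ℝ, 0 < s →
    ff h g z = pz s θ → ‖z‖ ≤ s - s ^ 2 *
      (prof (deriv (deriv h) 0 / 2) (deriv (deriv g) 0 / 2) θ).re + C * s ^ 3 := by
  obtain ⟨C, ε, hC, hε, hε', H⟩ := S.taylor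
  set a := deriv (deriv h) 0 / 2
  set b := deriv (deriv g) 0 / 2
  set K := ‖a‖ + ‖b‖ with hK
  have K0 : 0 ≤ K := by positivity
  refine ⟨K ^ 2 + 8 * (C + 3 * K * (K + C)), min ε (1 / (2 * (K + C) + 1)), by positivity,
    by positivity, fun z hz s θ hs e => ?_⟩
  have z1 : ‖z‖ < ε := hz.trans_le (min_le_left _ _)
  have z2 : ‖z‖ * (2 * (K + C) + 1) < 1 := by
    have := hz.trans_le (min_le_right _ _)
    rwa [lt_div_iff₀ (by positivity)] at this
  have z0 := norm_nonneg z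
  have T := H z z1
  set w := ff h g z with hw
  have ws : ‖w‖ = s := by rw [e, norm_pz' hs.le]
  have d1 : ‖w - z‖ ≤ (K + C) * ‖z‖ ^ 2 := by
    rw [show w - z = (w - z - a * z ^ 2 - conj (b * z ^ 2)) + a * z ^ 2 + conj (b * z ^ 2) by ring]
    refine norm_add₃_le.trans ?_
    rw [Complex.norm_conj, norm_mul, norm_mul, norm_pow]
    have h3 : ‖z‖ ^ 3 ≤ ‖z‖ ^ 2 := by nlinarith [sq_nonneg ‖z‖]
    nlinarith [mul_le_mul_of_nonneg_left h3 hC]
  have d2 : ‖w - z‖ ≤ ‖z‖ / 2 := by nlinarith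
  have d3 : ‖z‖ ≤ 2 * s := by
    have := norm_sub_norm_le z w
    rw [norm_sub_rev] at this
    linarith
  have d4 : ‖w + z‖ ≤ 3 * ‖z‖ := by
    rw [show w + z = (w - z) + z + z by ring]
    refine norm_add₃_le.trans ?_
    linarith
  have d5 : ‖w ^ 2 - z ^ 2‖ ≤ 3 * (K + C) * ‖z‖ ^ 3 := by
    rw [show w ^ 2 - z ^ 2 = (w - z) * (w + z) by ring, norm_mul]
    calc _ ≤ (K + C) * ‖z‖ ^ 2 * (3 * ‖z‖) := by gcongr
      _ = _ := by ring
  have d6 : ‖z‖ ^ 3 ≤ 8 * s ^ 3 := by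
    calc ‖z‖ ^ 3 ≤ (2 * s) ^ 3 := pow_le_pow_left₀ z0 d3 3
      _ = _ := by ring
  have pe := prof_eq a b s θ
  rw [← e] at pe
  have dec : z = w * (1 - s * prof a b θ) + (-(w - z - a * z ^ 2 - conj (b * z ^ 2))
      + a * (w ^ 2 - z ^ 2) + conj (b * (w ^ 2 - z ^ 2))) := by
    simp only [mul_sub, map_sub]
    linear_combination -pe
  have n1 : ‖w * (1 - s * prof a b θ)‖ ≤ s * (1 - s * (prof a b θ).re + s ^ 2 * K ^ 2) := by
    rw [norm_mul, ws]
    refine mul_le_mul_of_nonneg_left ((norm_one_sub_le _).trans ?_) hs.le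
    rw [re_ofReal_mul, norm_mul, norm_real, Real.norm_eq_abs, abs_of_pos hs, mul_pow]
    have := norm_prof_le a b θ
    gcongr
  have n2 : ‖-(w - z - a * z ^ 2 - conj (b * z ^ 2)) + a * (w ^ 2 - z ^ 2)
      + conj (b * (w ^ 2 - z ^ 2))‖ ≤ (C + 3 * K * (K + C)) * ‖z‖ ^ 3 := by
    refine norm_add₃_le.trans ?_
    rw [norm_neg, Complex.norm_conj, norm_mul, norm_mul]
    have := mul_le_mul_of_nonneg_left d5 K0
    nlinarith
  have n3 : (C + 3 * K * (K + C)) * ‖z‖ ^ 3 ≤ (C + 3 * K * (K + C)) * (8 * s ^ 3) :=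
    mul_le_mul_of_nonneg_left d6 (by positivity)
  have := norm_add_le (w * (1 - s * prof a b θ)) (-(w - z - a * z ^ 2 - conj (b * z ^ 2))
      + a * (w ^ 2 - z ^ 2) + conj (b * (w ^ 2 - z ^ 2)))
  rw [← dec] at this
  nlinarith

lemma area_asym {r : ℝ} (hr : r < 1) : ∃ C δ₀ : ℝ, 0 < δ₀ ∧ ∀ δ, 0 < δ → δ < δ₀ → δ ≤ r →
    ∫ t in δ..r, ∫ φ in (-π)..π,
      t * ((‖deriv h (pz t φ)‖ ^ 2 - ‖deriv g (pz t φ)‖ ^ 2) / ‖ff h g (pz t φ)‖ ^ 3)
      ≤ 2 * π / δ + C * δ := by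
  obtain ⟨C, ε, hC, hε, H⟩ := S.inverse_bound
  set a := deriv (deriv h) 0 / 2
  set b := deriv (deriv g) 0 / 2
  set K := ‖a‖ + ‖b‖ with hK
  have K0 : 0 ≤ K := by positivity
  have cpt : IsCompact (closedBall (0 : ℂ) r \ ball 0 ε) :=
    (isCompact_closedBall _ _).diff isOpen_ball
  have sub : closedBall (0 : ℂ) r \ ball 0 ε ⊆ ball 0 1 := fun z hz =>
    mem_D.2 ((mem_closedBall_zero_iff.1 hz.1).trans_lt hr)
  obtain ⟨η, hη, Hη⟩ := cpt.exists_forall_le' (a := 0) (S.continuousOn_ff.mono sub).norm (by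
    intro z hz
    refine norm_pos_iff.2 (S.ff_ne (mem_D.1 (sub hz)) ?_)
    rintro rfl
    exact hz.2 (mem_ball_self hε))
  set C' := 2 * (3 * K ^ 2 + 8 * C) with hC'
  have C'0 : 0 ≤ C' := by positivity
  refine ⟨2 * π * (C' + 2 * (K + C') ^ 2), min (η / 2) (1 / (6 * (K + C') + 1)), by positivity,
    fun δ hδ hδ0 hδr => ?_⟩
  have δ1 : δ < η / 2 := hδ0.trans_le (min_le_left _ _)
  have δ2 : δ * (6 * (K + C') + 1) < 1 := by
    have := hδ0.trans_le (min_le_right _ _)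
    rwa [lt_div_iff₀ (by positivity)] at this
  have δ3 : δ ≤ 1 := by nlinarith
  have mK : ∀ θ, |(prof a b θ).re| ≤ K := fun θ => (abs_re_le_norm _).trans (norm_prof_le a b θ)
  have yb : ∀ θ, |δ * (prof a b θ).re - C' * δ ^ 2| ≤ δ * (K + C') := by
    intro θ
    refine (abs_sub _ _).trans ?_
    rw [abs_mul, abs_of_pos hδ, abs_of_nonneg (show 0 ≤ C' * δ ^ 2 by positivity)]
    have := mul_le_mul_of_nonneg_left (mK θ) hδ.le
    have : C' * δ ^ 2 ≤ C' * δ := mul_le_mul_of_nonneg_left (by nlinarith) C'0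
    nlinarith
  have yb' : δ * (K + C') ≤ 1 / 6 := by nlinarith
  have ρe : ∀ θ, δ + δ ^ 2 * (prof a b θ).re - C' * δ ^ 3
      = δ * (1 + (δ * (prof a b θ).re - C' * δ ^ 2)) := fun θ => by ring
  have hpi : -π ≤ π := by linarith [Real.pi_pos]
  have ρp : ∀ θ, 0 < δ + δ ^ 2 * (prof a b θ).re - C' * δ ^ 3 := by
    intro θ
    rw [ρe]
    have := (abs_le.1 (yb θ)).1
    exact mul_pos hδ (by linarith)
  have ρc : Continuous fun θ => δ + δ ^ 2 * (prof a b θ).re - C' * δ ^ 3 := by fun_prop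
  refine (S.area_le hδ hδr hr ρc ρp ?_).trans ?_
  · intro z z1 z2 s θ hs e
    by_cases hz : ‖z‖ < ε
    · exact invert_aux hδ hs (mK θ) hC (by nlinarith) (z1.trans (H z hz s θ hs e))
    · have := Hη z ⟨mem_closedBall_zero_iff.2 z2, fun hh => hz (mem_ball_zero_iff.1 hh)⟩
      rw [e, norm_pz' hs.le] at this
      rw [ρe]
      have := (abs_le.1 (yb θ)).2
      nlinarith
  · calc _ ≤ ∫ θ in (-π)..π, (1 / δ + (C' + 2 * (K + C') ^ 2) * δ - (prof a b θ).re) := by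
          refine intervalIntegral.integral_mono_on hpi
            ((continuous_const.div ρc fun θ => (ρp θ).ne').intervalIntegrable _ _)
            (Continuous.intervalIntegrable (by fun_prop) _ _) fun θ _ => ?_
          rw [ρe]
          obtain ⟨y1, y2⟩ := abs_le.1 (yb θ)
          set y := δ * (prof a b θ).re - C' * δ ^ 2 with hy
          have y3 : y ^ 2 ≤ (δ * (K + C')) ^ 2 := sq_le_sq' y1 y2
          have y4 : 1 / (1 + y) ≤ 1 - y + 2 * y ^ 2 := by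
            rw [div_le_iff₀ (by linarith)]
            nlinarith [mul_nonneg (sq_nonneg y) (show 0 ≤ 1 + 2 * y by linarith)]
          calc 1 / (δ * (1 + y)) = 1 / δ * (1 / (1 + y)) := by rw [one_div_mul_one_div]
            _ ≤ 1 / δ * (1 - y + 2 * (δ * (K + C')) ^ 2) := by gcongr; linarith
            _ = _ := by rw [hy]; field_simp; ring
      _ = _ := by
          rw [intervalIntegral.integral_sub (Continuous.intervalIntegrable (by fun_prop) _ _)
            (Continuous.intervalIntegrable (by fun_prop) _ _), int_prof,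
            intervalIntegral.integral_const, smul_eq_mul]
          ring

omit S in
lemma root_aux {E x : ℂ} (hE : ‖E - 1‖ ≤ 1 / 2) (hx : ‖x‖ ≤ 1 / 2) (e : E ^ 2 * (1 + x) = 1) :
    ‖E - (1 - x / 2)‖ ≤ 4 * ‖x‖ ^ 2 := by
  have n1 : 3 / 2 ≤ ‖E + 1‖ := by
    have := norm_sub_norm_le (2 : ℂ) (-(E - 1))
    rw [show (2 : ℂ) - -(E - 1) = E + 1 by ring, norm_neg] at this
    simp only [Complex.norm_ofNat] at this
    linarith
  have n2 : 1 / 2 ≤ ‖1 + x‖ := by
    have := norm_sub_norm_le (1 : ℂ) (-x)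
    rw [sub_neg_eq_add, norm_neg, norm_one] at this
    linarith
  have n3 : 3 / 4 ≤ ‖(E + 1) * (1 + x)‖ := by rw [norm_mul]; nlinarith
  have e1 : (E - 1) * ((E + 1) * (1 + x)) = -x := by linear_combination e
  have n4 : ‖E - 1‖ ≤ 4 / 3 * ‖x‖ := by
    have := congrArg norm e1
    rw [norm_mul, norm_neg] at this
    nlinarith [norm_nonneg (E - 1)]
  have e2 : (E - (1 - x / 2)) * ((E + 1) * (1 + x)) = x * ((E - 1) * (1 + x) + 2 * x) / 2 := by
    linear_combination e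
  have n5 : ‖(E - 1) * (1 + x) + 2 * x‖ ≤ 4 * ‖x‖ := by
    refine (norm_add_le _ _).trans ?_
    have : ‖1 + x‖ ≤ 3 / 2 := (norm_add_le _ _).trans (by rw [norm_one]; linarith)
    rw [norm_mul, norm_mul, Complex.norm_ofNat]
    nlinarith [norm_nonneg (E - 1), norm_nonneg x, norm_nonneg (1 + x)]
  have := congrArg norm e2
  rw [norm_mul, norm_div, norm_mul x, Complex.norm_ofNat] at this
  nlinarith [norm_nonneg (E - (1 - x / 2)), norm_nonneg x,
    mul_le_mul_of_nonneg_left n5 (norm_nonneg x),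
    mul_le_mul_of_nonneg_left n3 (norm_nonneg (E - (1 - x / 2)))]

lemma root_asym {E : ℂ → ℂ} (Ec : ContinuousOn E (ball 0 1)) (E0 : E 0 = 1)
    (Es : ∀ z : ℂ, ‖z‖ < 1 → E z ^ 2 * ff h g z = z) :
    ∃ C δ₀ : ℝ, 0 < δ₀ ∧ ∀ δ, 0 < δ → δ < δ₀ → ∀ φ : ℝ,
      ‖E (pz δ φ) - (1 - δ * prof (deriv (deriv h) 0 / 2) (deriv (deriv g) 0 / 2) φ / 2)‖
        ≤ C * δ ^ 2 := by
  obtain ⟨C, ε, hC, hε, hε', H⟩ := S.taylor
  set a := deriv (deriv h) 0 / 2
  set b := deriv (deriv g) 0 / 2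
  set K := ‖a‖ + ‖b‖ with hK
  have K0 : 0 ≤ K := by positivity
  have ca : ContinuousAt E 0 := Ec.continuousAt (ball_mem_nhds 0 one_pos)
  obtain ⟨η, hη, Hη⟩ := Metric.continuousAt_iff.1 ca (1 / 2) (by norm_num)
  refine ⟨4 * (K + C) ^ 2 + C / 2, min (min ε η) (1 / (2 * (K + C) + 1)), by positivity,
    fun δ hδ hδ0 φ => ?_⟩
  have δ1 : δ < ε := (hδ0.trans_le (min_le_left _ _)).trans_le (min_le_left _ _)
  have δ1' : δ < η := (hδ0.trans_le (min_le_left _ _)).trans_le (min_le_right _ _)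
  have δ2 : δ * (2 * (K + C) + 1) < 1 := by
    have := hδ0.trans_le (min_le_right _ _)
    rwa [lt_div_iff₀ (by positivity)] at this
  have δ3 : δ < 1 := by nlinarith
  set z := pz δ φ with hz
  have zn : ‖z‖ = δ := norm_pz' hδ.le φ
  have z0 : z ≠ 0 := pz_ne hδ φ
  have T := H z (by rwa [zn])
  have pe := prof_eq a b δ φ
  rw [← hz] at pe
  set R := (ff h g z - z - a * z ^ 2 - conj (b * z ^ 2)) / z with hR
  have Rn : ‖R‖ ≤ C * δ ^ 2 := by
    rw [hR, norm_div, zn, div_le_iff₀ hδ]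
    rw [zn] at T
    nlinarith
  have pn : ‖δ * prof a b φ‖ ≤ δ * K := by
    rw [norm_mul, norm_real, Real.norm_eq_abs, abs_of_pos hδ]
    exact mul_le_mul_of_nonneg_left (norm_prof_le a b φ) hδ.le
  have xn : ‖δ * prof a b φ + R‖ ≤ δ * (K + C) := by
    refine (norm_add_le _ _).trans ?_
    have : C * δ ^ 2 ≤ C * δ := mul_le_mul_of_nonneg_left (by nlinarith) hC
    nlinarith
  have fe : ff h g z = z * (1 + (δ * prof a b φ + R)) := by
    have : z * R = ff h g z - z - a * z ^ 2 - conj (b * z ^ 2) := by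
      rw [hR, mul_div_cancel₀ _ z0]
    linear_combination pe - this
  have e1 : E z ^ 2 * (1 + (δ * prof a b φ + R)) = 1 := by
    have := Es z (by rwa [zn])
    rw [fe] at this
    apply mul_left_cancel₀ z0
    linear_combination this
  have En : ‖E z - 1‖ ≤ 1 / 2 := by
    have := Hη (x := z) (by rwa [dist_zero_right, zn])
    rw [E0, dist_eq_norm] at this
    exact this.le
  have := root_aux En (by nlinarith) e1
  rw [show E z - (1 - δ * prof a b φ / 2) = (E z - (1 - (δ * prof a b φ + R) / 2)) - R / 2 by ring]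
  refine (norm_sub_le _ _).trans ?_
  rw [norm_div, Complex.norm_ofNat]
  have : ‖δ * prof a b φ + R‖ ^ 2 ≤ (δ * (K + C)) ^ 2 := by gcongr
  nlinarith

end SH

end Pool.Agent.MP_334d28_an
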