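import Mathlib

/-! Normalised sense-preserving harmonic univalent maps: basic facts. -/

open Complex Metric Set Filter Topology
open scoped ComplexConjugate

namespace Pool.Agent.MP_334d28_an

/-- The class `S_H^0`. -/
structure SH (h g : ℂ → ℂ) : Prop where
  hh : DifferentiableOn ℂ h (ball 0 1)
  hg : DifferentiableOn ℂ g (ball 0 1)
  h0 : h 0 = 0
  g0 : g 0 = 0
  h1 : deriv h 0 = 1
  g1 : deriv g 0 = 0
  inj : InjOn (fun z => h z + conj (g z)) (ball 0 1)
  lt : ∀ z ∈ ball (0 : ℂ) 1, ‖deriv g z‖ < ‖deriv h z‖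

/-- The harmonic map `h + conj g`. -/
noncomputable def ff (h g : ℂ → ℂ) (z : ℂ) : ℂ := h z + conj (g z)

lemma mem_D {z : ℂ} : z ∈ ball (0 : ℂ) 1 ↔ ‖z‖ < 1 := mem_ball_zero_iff

lemma hasDerivAt_of_D {h : ℂ → ℂ} (hh : DifferentiableOn ℂ h (ball 0 1)) {z : ℂ} (hz : ‖z‖ < 1) :
    HasDerivAt h (deriv h z) z :=
  (hh.differentiableAt (isOpen_ball.mem_nhds (mem_D.2 hz))).hasDerivAt

lemma taylor_two {h : ℂ → ℂ} (hh : DifferentiableOn ℂ h (ball 0 1)) :
    ∃ C : ℝ, ∀ᶠ z in 𝓝 (0 : ℂ),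
      ‖h z - (h 0 + deriv h 0 * z + deriv (deriv h) 0 / 2 * z ^ 2)‖ ≤ C * ‖z‖ ^ 3 := by
  have ha : AnalyticAt ℂ h 0 := hh.analyticAt (ball_mem_nhds 0 one_pos)
  have := (ha.hasFPowerSeriesAt.isBigO_sub_partialSum_pow 3).bound
  obtain ⟨C, hC⟩ := this
  refine ⟨C, hC.mono fun z hz => ?_⟩
  simp only [zero_add, FormalMultilinearSeries.partialSum, Finset.sum_range_succ,
    Finset.range_zero, Finset.sum_empty, FormalMultilinearSeries.ofScalars_apply_eq,
    iteratedDeriv_zero, iteratedDeriv_one, smul_eq_mul, norm_pow, norm_norm] at hz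
  have e2 : iteratedDeriv 2 h = deriv (deriv h) := by
    rw [show (2 : ℕ) = 1 + 1 from rfl, iteratedDeriv_succ, iteratedDeriv_one]
  rw [e2] at hz
  simpa [Nat.factorial] using hz

namespace SH

variable {h g : ℂ → ℂ} (S : SH h g)
include S

lemma dh : DifferentiableOn ℂ (deriv h) (ball 0 1) := S.hh.deriv isOpen_ball
lemma dg : DifferentiableOn ℂ (deriv g) (ball 0 1) := S.hg.deriv isOpen_ball

lemma dh_ne {z : ℂ} (hz : ‖z‖ < 1) : deriv h z ≠ 0 := by
  intro e
  have := S.lt z (mem_D.2 hz)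
  rw [e, norm_zero] at this
  exact absurd this (not_lt.2 (norm_nonneg _))

lemma omega_diff : DifferentiableOn ℂ (fun z => deriv g z / deriv h z) (ball 0 1) :=
  S.dg.div S.dh fun _ hz => S.dh_ne (mem_D.1 hz)

lemma omega_lt {z : ℂ} (hz : ‖z‖ < 1) : ‖deriv g z / deriv h z‖ < 1 := by
  rw [norm_div, div_lt_one (norm_pos_iff.2 (S.dh_ne hz))]
  exact S.lt z (mem_D.2 hz)

lemma schwarz {z : ℂ} (hz : ‖z‖ < 1) : ‖deriv g z‖ ≤ ‖z‖ * ‖deriv h z‖ := by
  have := Complex.norm_le_norm_of_mapsTo_ball (f := fun z => deriv g z / deriv h z) (R := 1)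
    S.omega_diff (fun w hw => by simpa using (S.omega_lt (mem_D.1 hw)).le) (by simp [S.g1]) hz
  rwa [norm_div, div_le_iff₀ (norm_pos_iff.2 (S.dh_ne hz))] at this

lemma ff_zero : ff h g 0 = 0 := by simp [ff, S.h0, S.g0]

lemma ff_ne {z : ℂ} (hz : ‖z‖ < 1) (h0 : z ≠ 0) : ff h g z ≠ 0 := by
  intro e
  apply h0
  apply S.inj (mem_D.2 hz) (mem_D.2 (by simp))
  simpa [ff, S.h0, S.g0] using e

lemma continuousOn_ff : ContinuousOn (ff h g) (ball 0 1) :=
  S.hh.continuousOn.add (continuous_conj.comp_continuousOn S.hg.continuousOn)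

lemma taylor : ∃ C ε : ℝ, 0 ≤ C ∧ 0 < ε ∧ ε ≤ 1 / 2 ∧ ∀ z : ℂ, ‖z‖ < ε →
    ‖ff h g z - z - deriv (deriv h) 0 / 2 * z ^ 2 - conj (deriv (deriv g) 0 / 2 * z ^ 2)‖
      ≤ C * ‖z‖ ^ 3 := by
  obtain ⟨C1, h1⟩ := taylor_two S.hh
  obtain ⟨C2, h2⟩ := taylor_two S.hg
  obtain ⟨ε, hε, H⟩ := Metric.eventually_nhds_iff_ball.1 (h1.and h2)
  refine ⟨|C1| + |C2|, min ε (1 / 2), by positivity, by positivity, min_le_right _ _,
    fun z hz => ?_⟩
  obtain ⟨a, b⟩ := H z (mem_ball_zero_iff.2 (hz.trans_le (min_le_left _ _)))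
  rw [S.h0, S.h1] at a
  rw [S.g0, S.g1] at b
  have e : ff h g z - z - deriv (deriv h) 0 / 2 * z ^ 2 - conj (deriv (deriv g) 0 / 2 * z ^ 2)
      = (h z - (0 + 1 * z + deriv (deriv h) 0 / 2 * z ^ 2))
        + conj (g z - (0 + 0 * z + deriv (deriv g) 0 / 2 * z ^ 2)) := by
    simp only [ff, map_sub, map_add, zero_mul, map_zero]; ring
  rw [e]
  refine (norm_add_le _ _).trans ?_
  rw [Complex.norm_conj]
  have p : 0 ≤ ‖z‖ ^ 3 := by positivity
  nlinarith [le_abs_self C1, le_abs_self C2]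

/-- Derivative of `f` along a curve. -/
lemma hasDerivAt_ff {γ : ℝ → ℂ} {γ' : ℂ} {s : ℝ} (hγ : HasDerivAt γ γ' s) (hz : ‖γ s‖ < 1) :
    HasDerivAt (fun s => ff h g (γ s))
      (deriv h (γ s) * γ' + conj (deriv g (γ s) * γ')) s := by
  have a := (hasDerivAt_of_D S.hh hz).comp_of_eq s hγ rfl
  have b := ((hasDerivAt_of_D S.hg hz).comp_of_eq s hγ rfl).star
  exact a.add b

/-- A continuous branch of the square root of z / f z, with its derivative along curves. -/
lemma exists_root : ∃ E : ℂ → ℂ, ContinuousOn E (ball 0 1) ∧ E 0 = 1 ∧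
    (∀ z : ℂ, ‖z‖ < 1 → E z ^ 2 * ff h g z = z) ∧
    ∀ (γ : ℝ → ℂ) (γ' : ℂ) (s : ℝ), HasDerivAt γ γ' s → ‖γ s‖ < 1 → γ s ≠ 0 →
      HasDerivAt (fun s => E (γ s))
        (E (γ s) / 2 * (γ' / γ s -
          (deriv h (γ s) * γ' + conj (deriv g (γ s) * γ')) / ff h g (γ s))) s := by
  classical
  set q : ℂ → ℂ := fun z => if z = 0 then 1 else ff h g z / z with hq
  have q0 : ∀ z : ℂ, ‖z‖ < 1 → q z ≠ 0 := by
    intro z hz
    by_cases h0 : z = 0
    · simp [hq, h0]
    · simp only [hq, h0, if_false]; exact div_ne_zero (S.ff_ne hz h0) h0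
  have qe : ∀ z : ℂ, z ≠ 0 → ∀ᶠ w in 𝓝 z, q w = ff h g w / w := by
    intro z h0
    filter_upwards [isOpen_ne.mem_nhds h0] with w hw
    simp only [hq]; rw [if_neg hw]
  have qc : ContinuousOn q (ball 0 1) := by
    intro z hz
    apply ContinuousAt.continuousWithinAt
    by_cases h0 : z = 0
    · subst h0
      obtain ⟨C, ε, hC, hε, hε', H⟩ := S.taylor
      set a := deriv (deriv h) 0 / 2
      set b := deriv (deriv g) 0 / 2
      have t0 : Tendsto (fun w : ℂ => (‖a‖ + ‖b‖ + C) * ‖w‖) (𝓝 0) (𝓝 0) := by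
        have : Continuous (fun w : ℂ => (‖a‖ + ‖b‖ + C) * ‖w‖) := by fun_prop
        simpa using this.tendsto 0
      have : q 0 = 1 := by simp [hq]
      rw [ContinuousAt, this, tendsto_iff_norm_sub_tendsto_zero]
      refine squeeze_zero' (Eventually.of_forall fun _ => norm_nonneg _) ?_ t0
      filter_upwards [ball_mem_nhds (0 : ℂ) hε] with w hw
      by_cases w0 : w = 0
      · simp [hq, w0]
      · have hw' := mem_ball_zero_iff.1 hw
        have wp : 0 < ‖w‖ := norm_pos_iff.2 w0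
        simp only [hq, w0, if_false]
        have e : ff h g w / w - 1 =
            ((ff h g w - w - a * w ^ 2 - conj (b * w ^ 2)) + a * w ^ 2 + conj (b * w ^ 2)) / w := by
          field_simp; ring
        rw [e, norm_div, div_le_iff₀ wp]
        refine (norm_add₃_le).trans ?_
        rw [Complex.norm_conj, norm_mul, norm_mul, norm_pow]
        have := H w hw'
        have h3 : ‖w‖ ^ 3 ≤ ‖w‖ ^ 2 := by nlinarith [sq_nonneg ‖w‖]
        nlinarith [mul_le_mul_of_nonneg_left h3 hC]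
    · refine ContinuousAt.congr ?_ (Eventually.mono (qe z h0) fun w hw => hw.symm)
      exact (S.continuousOn_ff.continuousAt (isOpen_ball.mem_nhds hz)).div continuousAt_id h0
  have sc : IsSimplyConnected (ball (0 : ℂ) 1) := by
    have := (convex_ball (0 : ℂ) 1).contractibleSpace ⟨0, by simp⟩
    exact SimplyConnectedSpace.ofContractible _
  obtain ⟨L, Lc, Le⟩ := Complex.exists_continuousOn_eqOn_exp_comp sc isOpen_ball qc (by
    rintro ⟨z, hz, e⟩; exact q0 z (mem_D.1 hz) e)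
  have Le' : ∀ z : ℂ, ‖z‖ < 1 → exp (L z) = q z := fun z hz => Le (mem_D.2 hz)
  have L0 : exp (L 0) = 1 := by rw [Le' 0 (by simp)]; simp [hq]
  refine ⟨fun z => exp (-(L z - L 0) / 2), ?_, by simp, ?_, ?_⟩
  · exact ((Lc.sub continuousOn_const).neg.div_const _).cexp
  · intro z hz
    by_cases h0 : z = 0
    · simp [h0, S.ff_zero]
    · rw [← exp_nat_mul, show ((2 : ℕ) : ℂ) * (-(L z - L 0) / 2) = -L z + L 0 by push_cast; ring,
        exp_add, L0, exp_neg, Le' z hz]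
      simp only [hq, h0, if_false]
      have := S.ff_ne hz h0
      field_simp
  · intro γ γ' s hγ hz h0
    have fne := S.ff_ne hz h0
    have d1 := (S.hasDerivAt_ff hγ hz).div hγ h0
    have qz : q (γ s) = ff h g (γ s) / γ s := by simp only [hq]; rw [if_neg h0]
    have d2 : HasDerivAt (fun u => q (γ u)) _ s :=
      d1.congr_of_eventuallyEq (hγ.continuousAt.eventually (qe _ h0))
    have d3 := (d2.div_const (q (γ s))).clog_real (by rw [div_self (q0 _ hz)]; simp)
    have Lca : ContinuousAt (fun u => L (γ u) - L (γ s)) s :=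
      ((Lc.continuousAt (isOpen_ball.mem_nhds (mem_D.2 hz))).comp hγ.continuousAt).sub
        continuousAt_const
    have ev : ∀ᶠ u in 𝓝 s, L (γ u) - L (γ s) = log (q (γ u) / q (γ s)) := by
      have e1 : ∀ᶠ u in 𝓝 s, L (γ u) - L (γ s) ∈ ball (0 : ℂ) 1 :=
        Lca.eventually (isOpen_ball.mem_nhds (by simp))
      have e2 : ∀ᶠ u in 𝓝 s, γ u ∈ ball (0 : ℂ) 1 :=
        hγ.continuousAt.eventually (isOpen_ball.mem_nhds (mem_D.2 hz))
      filter_upwards [e1, e2] with u hu hu'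
      rw [← Le' _ (mem_D.1 hu'), ← Le' _ hz, ← exp_sub, log_exp]
      · have := (abs_le.1 ((abs_im_le_norm _).trans (mem_D.1 hu).le)).1
        linarith [Real.pi_gt_three]
      · have := (abs_le.1 ((abs_im_le_norm _).trans (mem_D.1 hu).le)).2
        linarith [Real.pi_gt_three]
    have d4 := d3.congr_of_eventuallyEq ev
    have d5 := (((d4.add_const (L (γ s) - L 0)).neg).div_const 2).cexp
    convert d5 using 1
    · ext u; simp
    · simp only [Pi.neg_apply, sub_add_sub_cancel, qz]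
      field_simp
      ring

end SH

end Pool.Agent.MP_334d28_an
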