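import Pool.Agent.MP_334d28_an.BentReal

namespace Pool.Agent.MP_334d28_an.Bent
open Set Complex

noncomputable def TT (z : ℂ) : ℂ := 1 + I * (1 + z) / (1 - z)

noncomputable def Qf (t : ℂ) : ℂ := t ^ 3 / 3 - t

noncomputable def rat (t : ℂ) : ℂ :=
  -I * (t - (((r5 + 1) / 2 : ℝ) : ℂ)) / (t + (((r5 - 1) / 2 : ℝ) : ℂ))

noncomputable def Rf (t : ℂ) : ℂ := t ^ 2 / 2 + Complex.log (rat t) / (r5 : ℂ)

lemma arg_eq_arctan (w : ℂ) (hw : 0 < w.re) : Complex.arg w = Real.arctan (w.im / w.re) := by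
  have h1 : |Complex.arg w| < Real.pi / 2 := Complex.abs_arg_lt_pi_div_two_iff.mpr (Or.inl hw)
  rw [← Complex.tan_arg, Real.arctan_tan (abs_lt.mp h1).1 (abs_lt.mp h1).2]

lemma add_ne (t : ℂ) (ht : 0 < t.im) (a : ℝ) : t + (a : ℂ) ≠ 0 := by
  intro h
  have := congrArg Complex.im h
  simp at this
  linarith

lemma sub_ne (t : ℂ) (ht : 0 < t.im) (a : ℝ) : t - (a : ℂ) ≠ 0 := by
  intro h
  have := congrArg Complex.im h
  simp at this
  linarith

lemma rat_re (t : ℂ) :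
    (rat t).re = r5 * t.im / Complex.normSq (t + (((r5 - 1) / 2 : ℝ) : ℂ)) := by
  unfold rat
  rw [Complex.div_re]
  simp only [neg_mul, neg_re, mul_re, I_re, sub_re, ofReal_re, zero_mul, I_im, sub_im, ofReal_im,
    sub_zero, one_mul, zero_sub, neg_neg, add_re, neg_im, mul_im, zero_add, add_im, add_zero]
  ring

lemma rat_im (t : ℂ) :
    (rat t).im = -(t.re ^ 2 - t.re - 1 + t.im ^ 2) / Complex.normSq (t + (((r5 - 1) / 2 : ℝ) : ℂ)) := by
  unfold rat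
  rw [Complex.div_im]
  simp only [neg_mul, neg_re, mul_re, I_re, sub_re, ofReal_re, zero_mul, I_im, sub_im, ofReal_im,
    sub_zero, one_mul, zero_sub, neg_neg, add_re, neg_im, mul_im, zero_add, add_im, add_zero]
  rw [← sub_div]
  congr 1
  have := r5_sq
  linear_combination (1 / 4 : ℝ) * this

lemma rat_re_pos (t : ℂ) (ht : 0 < t.im) : 0 < (rat t).re := by
  rw [rat_re]
  have h5 := r5_pos
  have := Complex.normSq_pos.mpr (add_ne t ht ((r5 - 1) / 2))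
  positivity

lemma Rf_im (t : ℂ) (ht : 0 < t.im) : (Rf t).im = uu t.re t.im := by
  unfold Rf uu
  have h5 := r5_pos
  have hn := Complex.normSq_pos.mpr (add_ne t ht ((r5 - 1) / 2))
  rw [Complex.add_im, Complex.div_ofReal_im, Complex.log_im, arg_eq_arctan _ (rat_re_pos t ht),
    rat_re, rat_im]
  congr 1
  · have : (t ^ 2 / 2 : ℂ) = t ^ 2 / ((2 : ℝ) : ℂ) := by norm_num
    rw [this, Complex.div_ofReal_im, sq, Complex.mul_im]; ring
  · congr 2
    field_simp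

lemma Qf_im (t : ℂ) : (Qf t).im = pp t.re t.im := by
  unfold Qf pp
  have : (t ^ 3 / 3 : ℂ) = t * t * t / ((3 : ℝ) : ℂ) := by push_cast; ring
  rw [this, Complex.sub_im, Complex.div_ofReal_im]
  simp only [Complex.mul_im, Complex.mul_re]
  ring

lemma quad_eq (t : ℂ) :
    (t - (((r5 + 1) / 2 : ℝ) : ℂ)) * (t + (((r5 - 1) / 2 : ℝ) : ℂ)) = t ^ 2 - t - 1 := by
  have h : ((r5 : ℂ)) ^ 2 = 5 := by exact_mod_cast congrArg (fun x : ℝ => (x : ℂ)) r5_sq
  push_cast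
  linear_combination (-1 / 4 : ℂ) * h

lemma quad_ne (t : ℂ) (ht : 0 < t.im) : t ^ 2 - t - 1 ≠ 0 := by
  rw [← quad_eq]
  exact mul_ne_zero (sub_ne t ht _) (add_ne t ht _)

lemma Rf_deriv (t : ℂ) (ht : 0 < t.im) : HasDerivAt Rf (t + 1 / (t ^ 2 - t - 1)) t := by
  have ha := add_ne t ht ((r5 - 1) / 2)
  have hb := sub_ne t ht ((r5 + 1) / 2)
  have h5 : (r5 : ℂ) ≠ 0 := by exact_mod_cast r5_pos.ne'
  have h1 : HasDerivAt rat ((-I * 1 * (t + (((r5 - 1) / 2 : ℝ) : ℂ)) -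
      -I * (t - (((r5 + 1) / 2 : ℝ) : ℂ)) * 1) / (t + (((r5 - 1) / 2 : ℝ) : ℂ)) ^ 2) t :=
    (((hasDerivAt_id t).sub_const _).const_mul (-I)).div ((hasDerivAt_id t).add_const _) ha
  have hs : rat t ∈ Complex.slitPlane := Or.inl (rat_re_pos t ht)
  have h2 := (h1.clog hs).div_const (r5 : ℂ)
  have h3 := (((hasDerivAt_id t).pow 2).div_const 2).add h2
  refine HasDerivAt.congr_deriv h3 ?_
  rw [← quad_eq]
  unfold rat
  have hI := Complex.I_ne_zero
  have e : (-I * 1 * (t + (((r5 - 1) / 2 : ℝ) : ℂ)) - -I * (t - (((r5 + 1) / 2 : ℝ) : ℂ)) * 1)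
      = -I * (r5 : ℂ) := by push_cast; ring
  rw [e]
  generalize t + (((r5 - 1) / 2 : ℝ) : ℂ) = A at *
  generalize t - (((r5 + 1) / 2 : ℝ) : ℂ) = B at *
  simp only [id]
  field_simp
  ring

lemma Qf_deriv (t : ℂ) : HasDerivAt Qf (t ^ 2 - 1) t := by
  have h := (((hasDerivAt_id t).pow 3).div_const 3).sub (hasDerivAt_id t)
  refine HasDerivAt.congr_deriv h ?_
  simp

lemma one_sub_ne (z : ℂ) (hz : ‖z‖ < 1) : (1 : ℂ) - z ≠ 0 := by
  intro h
  have : z = 1 := by linear_combination -h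
  rw [this] at hz; simp at hz

lemma TT_deriv (z : ℂ) (hz : ‖z‖ < 1) : HasDerivAt TT (2 * I / (1 - z) ^ 2) z := by
  have hd := one_sub_ne z hz
  have h := ((((hasDerivAt_id z).const_add 1).const_mul I).div
    ((hasDerivAt_id z).const_sub 1) hd).const_add 1
  refine HasDerivAt.congr_deriv h ?_
  simp only [id]
  field_simp
  ring

lemma TT_im (z : ℂ) (hz : ‖z‖ < 1) : 0 < (TT z).im := by
  have hd := Complex.normSq_pos.mpr (one_sub_ne z hz)
  have h1 : Complex.normSq z < 1 := by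
    rw [Complex.normSq_eq_norm_sq]; nlinarith [norm_nonneg z]
  have e : (TT z).im = (1 - Complex.normSq z) / Complex.normSq (1 - z) := by
    unfold TT
    rw [Complex.add_im, Complex.div_im, Complex.normSq_apply z]
    simp only [one_im, mul_im, I_re, add_im, zero_add, zero_mul, I_im, add_re, one_re, one_mul,
      sub_re, mul_re, sub_im, zero_sub]
    ring
  rw [e]
  apply div_pos _ hd
  linarith

lemma TT_inj (z w : ℂ) (hz : ‖z‖ < 1) (hw : ‖w‖ < 1) (h : TT z = TT w) : z = w := by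
  have h1 := one_sub_ne z hz
  have h2 := one_sub_ne w hw
  unfold TT at h
  have h3 : I * (1 + z) / (1 - z) = I * (1 + w) / (1 - w) := by linear_combination h
  rw [div_eq_div_iff h1 h2] at h3
  have h4 : 2 * I * (z - w) = 0 := by linear_combination h3
  have h5 : (2 : ℂ) * I ≠ 0 := mul_ne_zero two_ne_zero Complex.I_ne_zero
  have := (mul_eq_zero.mp h4).resolve_left h5
  linear_combination this

noncomputable def H0 (z : ℂ) : ℂ := -(1 + 2 * I) / 8 * (Rf (TT z) - (1 + 2 * I) / 5 * Qf (TT z))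

noncomputable def G0 (z : ℂ) : ℂ := (1 - 2 * I) / 8 * (Rf (TT z) - (1 - 2 * I) / 5 * Qf (TT z))

noncomputable def h1 (z : ℂ) : ℂ :=
  (1 + z) * (1 - (3 - 4 * I) / 5 * z) / ((1 - z) ^ 4 * (1 + (3 + 4 * I) / 5 * z ^ 2))

lemma norm_al : ‖((3 - 4 * I) / 5 : ℂ)‖ = 1 := by
  have : Complex.normSq ((3 - 4 * I) / 5 : ℂ) = 1 := by
    rw [map_div₀, Complex.normSq_apply]; simp; norm_num
  rw [Complex.normSq_eq_norm_sq] at this
  nlinarith [norm_nonneg ((3 - 4 * I) / 5 : ℂ)]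

lemma norm_be : ‖((3 + 4 * I) / 5 : ℂ)‖ = 1 := by
  have : Complex.normSq ((3 + 4 * I) / 5 : ℂ) = 1 := by
    rw [map_div₀, Complex.normSq_apply]; simp; norm_num
  rw [Complex.normSq_eq_norm_sq] at this
  nlinarith [norm_nonneg ((3 + 4 * I) / 5 : ℂ)]

lemma norm_ka : ‖((7 - 24 * I) / 25 : ℂ)‖ = 1 := by
  have : Complex.normSq ((7 - 24 * I) / 25 : ℂ) = 1 := by
    rw [map_div₀, Complex.normSq_apply]; simp; norm_num
  rw [Complex.normSq_eq_norm_sq] at this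
  nlinarith [norm_nonneg ((7 - 24 * I) / 25 : ℂ)]

lemma E_ne (z : ℂ) (hz : ‖z‖ < 1) : 1 + (3 + 4 * I) / 5 * z ^ 2 ≠ 0 := by
  have h : ‖-((3 + 4 * I) / 5 * z ^ 2 : ℂ)‖ < 1 := by
    rw [norm_neg, norm_mul, norm_be, norm_pow]; nlinarith [norm_nonneg z]
  have := one_sub_ne _ h
  rwa [sub_neg_eq_add] at this

lemma h1_ne (z : ℂ) (hz : ‖z‖ < 1) : h1 z ≠ 0 := by
  unfold h1
  have a1 : (1 : ℂ) + z ≠ 0 := by
    have := one_sub_ne (-z) (by rwa [norm_neg])
    rwa [sub_neg_eq_add] at this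
  have a2 : (1 : ℂ) - (3 - 4 * I) / 5 * z ≠ 0 :=
    one_sub_ne _ (by rw [norm_mul, norm_al]; linarith)
  exact div_ne_zero (mul_ne_zero a1 a2) (mul_ne_zero (pow_ne_zero _ (one_sub_ne z hz)) (E_ne z hz))

lemma quad_TT (z : ℂ) (hz : ‖z‖ < 1) :
    TT z ^ 2 - TT z - 1 = (-2 + I) * (1 + (3 + 4 * I) / 5 * z ^ 2) / (1 - z) ^ 2 := by
  have hd := one_sub_ne z hz
  unfold TT
  field_simp
  linear_combination (5 + 10 * z + z ^ 2) * Complex.I_sq

lemma sq_TT (z : ℂ) (hz : ‖z‖ < 1) :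
    TT z ^ 2 - 1 = I * (2 + I) * ((1 + z) * (1 - (3 - 4 * I) / 5 * z)) / (1 - z) ^ 2 := by
  have hd := one_sub_ne z hz
  unfold TT
  field_simp
  linear_combination (-4 * I * z - 4 * I * z ^ 2) * Complex.I_sq

lemma inv_I : (-2 + I : ℂ) * ((-2 - I) / 5) = 1 := by
  linear_combination (-1 / 5 : ℂ) * Complex.I_sq

/-- the quotient `R' / Q'` in the disc coordinate -/
lemma W_TT (z : ℂ) (hz : ‖z‖ < 1) :
    TT z + 1 / (TT z ^ 2 - TT z - 1) =
      (TT z ^ 2 - 1) * ((1 - 2 * I) / 5 * (1 - z ^ 2) / (1 + (3 + 4 * I) / 5 * z ^ 2)) := by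
  have hq := quad_ne _ (TT_im z hz)
  have hd := one_sub_ne z hz
  have hE := E_ne z hz
  have e1 : TT z + 1 / (TT z ^ 2 - TT z - 1) = (TT z ^ 2 - 1) * ((TT z - 1) / (TT z ^ 2 - TT z - 1)) := by
    rw [← mul_div_assoc, eq_div_iff hq, add_mul, one_div, inv_mul_cancel₀ hq]; ring
  rw [e1]
  congr 1
  rw [div_eq_iff hq, quad_TT z hz]
  have e2 : TT z - 1 = I * (1 + z) / (1 - z) := by unfold TT; ring
  rw [e2]
  generalize 1 + (3 + 4 * I) / 5 * z ^ 2 = E at *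
  field_simp
  linear_combination (2 - 2 * z ^ 2) * Complex.I_sq

lemma H0_deriv (z : ℂ) (hz : ‖z‖ < 1) : HasDerivAt H0 (h1 z) z := by
  have hT := TT_deriv z hz
  have hR := (Rf_deriv _ (TT_im z hz)).comp z hT
  have hQ := (Qf_deriv (TT z)).comp z hT
  have h := (hR.sub (hQ.const_mul ((1 + 2 * I) / 5))).const_mul (-(1 + 2 * I) / 8)
  refine HasDerivAt.congr_deriv h ?_
  have hd := one_sub_ne z hz
  have hE := E_ne z hz
  rw [W_TT z hz, sq_TT z hz]
  unfold h1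
  have e : (1 - 2 * I) / 5 * (1 - z ^ 2) / (1 + (3 + 4 * I) / 5 * z ^ 2) =
      (1 + 2 * I) / 5 + (-4 * I / 5) / (1 + (3 + 4 * I) / 5 * z ^ 2) := by
    rw [add_div' _ _ _ hE]
    congr 1
    linear_combination (-8 / 25 * z ^ 2) * Complex.I_sq
  rw [e]
  generalize 1 + (3 + 4 * I) / 5 * z ^ 2 = E at *
  generalize (1 + z) * (1 - (3 - 4 * I) / 5 * z) = N at *
  generalize 1 - z = d at *
  have k : (-(1 + 2 * I) / 8) * (I * (2 + I)) * (-4 * I / 5) * (2 * I) = (1 : ℂ) := by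
    linear_combination (2 / 5 * I ^ 3 + I ^ 2 - 1) * Complex.I_sq
  calc _ = ((-(1 + 2 * I) / 8) * (I * (2 + I)) * (-4 * I / 5) * (2 * I)) * (N / (d ^ 4 * E)) := by
        field_simp; ring
    _ = _ := by rw [k, one_mul]

lemma G0_deriv (z : ℂ) (hz : ‖z‖ < 1) :
    HasDerivAt G0 ((7 - 24 * I) / 25 * z ^ 2 * h1 z) z := by
  have hT := TT_deriv z hz
  have hR := (Rf_deriv _ (TT_im z hz)).comp z hT
  have hQ := (Qf_deriv (TT z)).comp z hT
  have h := (hR.sub (hQ.const_mul ((1 - 2 * I) / 5))).const_mul ((1 - 2 * I) / 8)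
  refine HasDerivAt.congr_deriv h ?_
  have hd := one_sub_ne z hz
  have hE := E_ne z hz
  rw [W_TT z hz, sq_TT z hz]
  unfold h1
  have e : (1 - 2 * I) / 5 * (1 - z ^ 2) / (1 + (3 + 4 * I) / 5 * z ^ 2) =
      (1 - 2 * I) / 5 + ((-16 + 12 * I) / 25 * z ^ 2) / (1 + (3 + 4 * I) / 5 * z ^ 2) := by
    rw [add_div' _ _ _ hE]
    congr 1
    linear_combination (8 / 25 * z ^ 2) * Complex.I_sq
  rw [e]
  generalize 1 + (3 + 4 * I) / 5 * z ^ 2 = E at *
  generalize (1 + z) * (1 - (3 - 4 * I) / 5 * z) = N at *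
  generalize 1 - z = d at *
  have k : ((1 - 2 * I) / 8) * (I * (2 + I)) * ((-16 + 12 * I) / 25) * (2 * I) =
      ((7 - 24 * I) / 25 : ℂ) := by
    linear_combination ((-24 * I ^ 3 - 4 * I ^ 2 + 96 * I - 28) / 100) * Complex.I_sq
  calc _ = (((1 - 2 * I) / 8) * (I * (2 + I)) * ((-16 + 12 * I) / 25) * (2 * I)) * z ^ 2 *
        (N / (d ^ 4 * E)) := by
        field_simp; ring
    _ = _ := by rw [k]

lemma sum_eq (z : ℂ) (hz : ‖z‖ < 1) :
    H0 z + (starRingEnd ℂ) (G0 z) = -(1 + 2 * I) / 8 * (2 * I) *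
      ((uu (TT z).re (TT z).im : ℂ) - (1 + 2 * I) / 5 * (pp (TT z).re (TT z).im : ℂ)) := by
  rw [← Rf_im _ (TT_im z hz), ← Qf_im]
  have a := Complex.sub_conj (Rf (TT z))
  have b := Complex.sub_conj (Qf (TT z))
  unfold H0 G0
  simp only [map_mul, map_sub, map_div₀, map_one, map_ofNat, Complex.conj_I]
  push_cast at a b
  linear_combination (-(1 + 2 * I) / 8) * a - (-(1 + 2 * I) / 8) * ((1 + 2 * I) / 5) * b

lemma inj0 (z w : ℂ) (hz : ‖z‖ < 1) (hw : ‖w‖ < 1)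
    (h : H0 z + (starRingEnd ℂ) (G0 z) = H0 w + (starRingEnd ℂ) (G0 w)) : z = w := by
  rw [sum_eq z hz, sum_eq w hw] at h
  have hc : (-(1 + 2 * I) / 8 * (2 * I) : ℂ) ≠ 0 := by
    intro h0
    have := congrArg Complex.im h0
    norm_num at this
  have h2 := mul_left_cancel₀ hc h
  have h3 := congrArg Complex.im h2
  have h4 := congrArg Complex.re h2
  simp at h3 h4
  have hp : pp (TT z).re (TT z).im = pp (TT w).re (TT w).im := by linarith
  have hu : uu (TT z).re (TT z).im = uu (TT w).re (TT w).im := by linarith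
  obtain ⟨e1, e2⟩ := real_inj _ _ _ _ (TT_im z hz) (TT_im w hw) hp hu
  exact TT_inj z w hz hw (Complex.ext e1 e2)

lemma h1_zero : h1 0 = 1 := by unfold h1; simp

lemma h1_deriv : HasDerivAt h1 ((22 + 4 * I) / 5) 0 := by
  have a := ((hasDerivAt_id (0 : ℂ)).const_add 1).mul
    (((hasDerivAt_id (0 : ℂ)).const_mul ((3 - 4 * I) / 5)).const_sub 1)
  have b := (((hasDerivAt_id (0 : ℂ)).const_sub 1).pow 4).mul
    ((((hasDerivAt_id (0 : ℂ)).pow 2).const_mul ((3 + 4 * I) / 5)).const_add 1)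
  have c := a.div b (by simp)
  refine HasDerivAt.congr_deriv c ?_
  simp
  ring

theorem bent_slit :
    ∃ h g : ℂ → ℂ, ∃ c : ℂ,
      DifferentiableOn ℂ h (Metric.ball (0 : ℂ) 1) ∧
      DifferentiableOn ℂ g (Metric.ball (0 : ℂ) 1) ∧
      h 0 = 0 ∧ g 0 = 0 ∧ deriv h 0 = 1 ∧ deriv g 0 = 0 ∧
      Set.InjOn (fun z => h z + (starRingEnd ℂ) (g z)) (Metric.ball (0 : ℂ) 1) ∧
      (∀ z ∈ Metric.ball (0 : ℂ) 1, ‖deriv g z‖ < ‖deriv h z‖) ∧
      (∀ z ∈ Metric.ball (0 : ℂ) 1, deriv g z = c * z ^ 2 * deriv h z) ∧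
      iteratedDeriv 2 g 0 / 2 = 0 ∧
      ‖iteratedDeriv 2 h 0 / 2‖ = Real.sqrt 5 := by
  have dh : ∀ z ∈ Metric.ball (0 : ℂ) 1, HasDerivAt (fun z => H0 z - H0 0) (h1 z) z :=
    fun z hz => (H0_deriv z (by simpa using hz)).sub_const _
  have dg : ∀ z ∈ Metric.ball (0 : ℂ) 1,
      HasDerivAt (fun z => G0 z - G0 0) ((7 - 24 * I) / 25 * z ^ 2 * h1 z) z :=
    fun z hz => (G0_deriv z (by simpa using hz)).sub_const _
  have h0 : (0 : ℂ) ∈ Metric.ball (0 : ℂ) 1 := Metric.mem_ball_self one_pos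
  have hnb : Metric.ball (0 : ℂ) 1 ∈ nhds (0 : ℂ) := Metric.ball_mem_nhds _ one_pos
  refine ⟨fun z => H0 z - H0 0, fun z => G0 z - G0 0, (7 - 24 * I) / 25,
    fun z hz => (dh z hz).differentiableAt.differentiableWithinAt,
    fun z hz => (dg z hz).differentiableAt.differentiableWithinAt, by simp, by simp, ?_, ?_, ?_, ?_,
    ?_, ?_, ?_⟩
  · rw [(dh 0 h0).deriv, h1_zero]
  · rw [(dg 0 h0).deriv]; simp
  · intro z hz w hw h
    apply inj0 z w (by simpa using hz) (by simpa using hw)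
    simp only [map_sub] at h
    linear_combination h
  · intro z hz
    have hz1 : ‖z‖ < 1 := by simpa using hz
    rw [(dh z hz).deriv, (dg z hz).deriv, norm_mul, norm_mul, norm_ka, norm_pow]
    have := norm_pos_iff.mpr (h1_ne z hz1)
    have h2 : ‖z‖ ^ 2 < 1 := by nlinarith [norm_nonneg z]
    nlinarith
  · intro z hz
    rw [(dh z hz).deriv, (dg z hz).deriv]
  · have e : deriv (fun z => G0 z - G0 0) =ᶠ[nhds 0] fun z => (7 - 24 * I) / 25 * z ^ 2 * h1 z := by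
      filter_upwards [hnb] with z hz using (dg z hz).deriv
    have d := (((hasDerivAt_id (0 : ℂ)).pow 2).const_mul ((7 - 24 * I) / 25)).mul h1_deriv
    have d2 : HasDerivAt (fun z => (7 - 24 * I) / 25 * z ^ 2 * h1 z) 0 0 := by
      refine HasDerivAt.congr_deriv d ?_
      simp
    rw [iteratedDeriv_succ, iteratedDeriv_one, e.deriv_eq, d2.deriv, zero_div]
  · have e : deriv (fun z => H0 z - H0 0) =ᶠ[nhds 0] h1 := by
      filter_upwards [hnb] with z hz using (dh z hz).deriv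
    rw [iteratedDeriv_succ, iteratedDeriv_one, e.deriv_eq, h1_deriv.deriv]
    have : Complex.normSq ((22 + 4 * I) / 5 / 2 : ℂ) = 5 := by
      rw [map_div₀, map_div₀, Complex.normSq_apply]; simp; norm_num
    rw [← this, Complex.normSq_eq_norm_sq, Real.sqrt_sq (norm_nonneg _)]

end Pool.Agent.MP_334d28_an.Bent
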