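import Mathlib

namespace Pool.Agent.MP_334d28_an.Bent
open Set

noncomputable def r5 : ℝ := Real.sqrt 5

lemma r5_pos : 0 < r5 := Real.sqrt_pos.mpr (by norm_num)

lemma r5_sq : r5 ^ 2 = 5 := Real.sq_sqrt (by norm_num)

noncomputable def uu (x y : ℝ) : ℝ :=
  x * y + Real.arctan (-(x ^ 2 - x - 1 + y ^ 2) / (r5 * y)) / r5

noncomputable def pp (x y : ℝ) : ℝ := y * (x ^ 2 - 1 - y ^ 2 / 3)

noncomputable def DD (lam y : ℝ) : ℝ := 1 + y ^ 2 / 3 + lam / y

lemma atan_deriv (a : ℝ → ℝ) (a' y : ℝ) (hy : 0 < y) (ha : HasDerivAt a a' y) :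
    HasDerivAt (fun t => Real.arctan (-(a t) / (r5 * t)) / r5)
      (-(a' * y - a y) / (5 * y ^ 2 + (a y) ^ 2)) y := by
  have h5 := r5_pos
  have hq := r5_sq
  have hne : r5 * y ≠ 0 := by positivity
  have h1 : HasDerivAt (fun t => r5 * t) r5 y := by
    simpa using (hasDerivAt_id y).const_mul r5
  have h2 := (ha.neg.div h1 hne).arctan.div_const r5
  refine h2.congr_deriv ?_
  have hN : 0 < 5 * y ^ 2 + (a y) ^ 2 := by positivity
  have e1 : 1 + (-(a y) / (r5 * y)) ^ 2 = (5 * y ^ 2 + (a y) ^ 2) / (5 * y ^ 2) := by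
    rw [div_pow, mul_pow, hq]; field_simp
  simp only [Pi.neg_apply, Pi.div_apply]
  rw [e1, mul_pow, hq]
  field_simp
  ring

lemma uu_deriv (x : ℝ → ℝ) (y : ℝ) (hy : 0 < y) (hx0 : x y ≠ 0)
    (hx : HasDerivAt x ((y ^ 2 + 1 - (x y) ^ 2) / (2 * x y * y)) y) :
    HasDerivAt (fun t => uu (x t) t)
      ((((x y) ^ 2 - y ^ 2 - 1) ^ 2 + (2 * x y * y) ^ 2) * (1 + (x y - 1) ^ 2 + y ^ 2) /
        (2 * x y * (5 * y ^ 2 + ((x y) ^ 2 - x y - 1 + y ^ 2) ^ 2))) y := by
  set x' := (y ^ 2 + 1 - (x y) ^ 2) / (2 * x y * y) with hx'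
  have ha : HasDerivAt (fun t => (x t) ^ 2 - x t - 1 + t ^ 2) (2 * x y * x' - x' + 2 * y) y := by
    have h1 := (((hx.pow 2).sub hx).sub_const 1).add ((hasDerivAt_id y).pow 2)
    refine h1.congr_deriv ?_
    simp
  have h2 := atan_deriv _ _ y hy ha
  have h3 := (hx.mul (hasDerivAt_id y)).add h2
  refine HasDerivAt.congr_deriv (f' := x' * y + x y * 1 + _) h3 ?_
  have hN : 0 < 5 * y ^ 2 + ((x y) ^ 2 - x y - 1 + y ^ 2) ^ 2 := by positivity
  rw [hx']
  field_simp
  ring

lemma DD_pos (lam y1 y : ℝ) (h1 : 0 < y1) (h : y1 < y) (hD : 0 ≤ DD lam y1) : 0 < DD lam y := by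
  have hy : 0 < y := h1.trans h
  unfold DD at *
  rcases le_or_gt 0 lam with hl | hl
  · positivity
  · have e1 : lam / y1 < lam / y := by
      rw [div_lt_div_iff₀ h1 hy]; nlinarith
    nlinarith

lemma branch (lam s y1 y2 : ℝ) (hs : s = 1 ∨ s = -1) (h1 : 0 < y1) (h12 : y1 < y2)
    (hD : 0 ≤ DD lam y1) :
    s * uu (s * Real.sqrt (DD lam y1)) y1 < s * uu (s * Real.sqrt (DD lam y2)) y2 := by
  have hss : s * s = 1 := by rcases hs with h | h <;> rw [h] <;> norm_num
  have hmono : StrictMonoOn (fun t => s * uu (s * Real.sqrt (DD lam t)) t) (Icc y1 y2) := by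
    apply strictMonoOn_of_deriv_pos (convex_Icc y1 y2)
    · intro t ht
      have ht0 : 0 < t := lt_of_lt_of_le h1 ht.1
      have h5 := r5_pos
      have hc : ContinuousAt (fun t => s * Real.sqrt (DD lam t)) t := by
        unfold DD
        have : t ≠ 0 := ht0.ne'
        fun_prop (disch := assumption)
      apply ContinuousAt.continuousWithinAt
      unfold uu
      have hne : r5 * t ≠ 0 := by positivity
      have hc2 : ContinuousAt (fun t => -((s * Real.sqrt (DD lam t)) ^ 2 - s * Real.sqrt (DD lam t) - 1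
          + t ^ 2) / (r5 * t)) t := by
        apply ContinuousAt.div _ (by fun_prop) hne
        exact ((((hc.pow 2).sub hc).sub continuousAt_const).add (continuousAt_id.pow 2)).neg
      exact continuousAt_const.mul ((hc.mul continuousAt_id).add
        ((Real.continuous_arctan.continuousAt.comp hc2).div_const r5))
    · intro y hy
      rw [interior_Icc] at hy
      have hy0 : 0 < y := h1.trans hy.1
      have hDy := DD_pos lam y1 y h1 hy.1 hD
      have hsq : 0 < Real.sqrt (DD lam y) := Real.sqrt_pos.mpr hDy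
      have hsq2 : Real.sqrt (DD lam y) ^ 2 = DD lam y := Real.sq_sqrt hDy.le
      have hd : HasDerivAt (fun t => DD lam t) (2 * y / 3 - lam / y ^ 2) y := by
        unfold DD
        have h2 := (((hasDerivAt_id y).pow 2).div_const 3).const_add 1
        have h3 := (hasDerivAt_inv hy0.ne').const_mul lam
        have h4 := h2.add h3
        refine HasDerivAt.congr_deriv (HasDerivAt.congr_of_eventuallyEq h4 ?_) ?_
        · filter_upwards with t
          simp [div_eq_mul_inv]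
        · simp; ring
      have hx := (hd.sqrt hDy.ne').const_mul s
      have hx0 : s * Real.sqrt (DD lam y) ≠ 0 := by
        rcases hs with h | h <;> rw [h] <;> simp [hsq.ne']
      have hxsq : (s * Real.sqrt (DD lam y)) ^ 2 = DD lam y := by
        rw [mul_pow, hsq2, sq, hss, one_mul]
      have hx2 : HasDerivAt (fun t => s * Real.sqrt (DD lam t))
          ((y ^ 2 + 1 - (s * Real.sqrt (DD lam y)) ^ 2) / (2 * (s * Real.sqrt (DD lam y)) * y)) y := by
        refine hx.congr_deriv ?_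
        rw [hxsq]
        have hs0 : s ≠ 0 := by rcases hs with h | h <;> rw [h] <;> norm_num
        have e : y ^ 2 + 1 - DD lam y = y * (2 * y / 3 - lam / y ^ 2) := by
          unfold DD; field_simp; ring
        rw [e]
        field_simp
        rw [sq s, hss]
        ring
      have h6 := (uu_deriv (fun t => s * Real.sqrt (DD lam t)) y hy0 hx0 hx2).const_mul s
      rw [h6.deriv]
      set X := s * Real.sqrt (DD lam y) with hX
      have hN : 0 < 5 * y ^ 2 + (X ^ 2 - X - 1 + y ^ 2) ^ 2 := by positivity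
      have hM : 0 < ((X ^ 2 - y ^ 2 - 1) ^ 2 + (2 * X * y) ^ 2) * (1 + (X - 1) ^ 2 + y ^ 2) := by
        have : 0 < (2 * X * y) ^ 2 := by positivity
        positivity
      have hsX : 0 < s * X := by
        rw [hX, ← mul_assoc, hss, one_mul]; exact hsq
      have e : s * (((X ^ 2 - y ^ 2 - 1) ^ 2 + (2 * X * y) ^ 2) * (1 + (X - 1) ^ 2 + y ^ 2) /
          (2 * X * (5 * y ^ 2 + (X ^ 2 - X - 1 + y ^ 2) ^ 2))) =
          (s * X) * (((X ^ 2 - y ^ 2 - 1) ^ 2 + (2 * X * y) ^ 2) * (1 + (X - 1) ^ 2 + y ^ 2)) /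
          (2 * X ^ 2 * (5 * y ^ 2 + (X ^ 2 - X - 1 + y ^ 2) ^ 2)) := by
        field_simp
      rw [e]
      have : 0 < X ^ 2 := by positivity
      positivity
  exact hmono ⟨le_rfl, h12.le⟩ ⟨h12.le, le_rfl⟩ h12

lemma mirror (x y : ℝ) (hx : 0 < x) (hy : 0 < y) : uu (-x) y < uu x y := by
  unfold uu
  have h5 := r5_pos
  have h1 : -((-x) ^ 2 - -x - 1 + y ^ 2) / (r5 * y) ≤ -(x ^ 2 - x - 1 + y ^ 2) / (r5 * y) := by
    apply div_le_div_of_nonneg_right _ (by positivity)
    nlinarith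
  have h2 := Real.arctan_strictMono.monotone h1
  have h3 := div_le_div_of_nonneg_right h2 h5.le
  nlinarith [mul_pos hx hy]

lemma sq_eq_DD (x y : ℝ) (hy : 0 < y) : x ^ 2 = DD (pp x y) y := by
  unfold DD pp; field_simp; ring

lemma ne_of_lt_height (x1 y1 x2 y2 : ℝ) (h1 : 0 < y1) (h12 : y1 < y2)
    (hp : pp x1 y1 = pp x2 y2) : uu x1 y1 ≠ uu x2 y2 := by
  have h2 : 0 < y2 := h1.trans h12
  have e1 := sq_eq_DD x1 y1 h1
  have e2 := sq_eq_DD x2 y2 h2
  rw [← hp] at e2
  set lam := pp x1 y1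
  have hD : 0 ≤ DD lam y1 := by rw [← e1]; positivity
  have b1 := branch lam 1 y1 y2 (Or.inl rfl) h1 h12 hD
  have b2 := branch lam (-1) y1 y2 (Or.inr rfl) h1 h12 hD
  rw [← e1, ← e2, Real.sqrt_sq_eq_abs, Real.sqrt_sq_eq_abs] at b1 b2
  simp only [one_mul, neg_mul, neg_lt_neg_iff] at b1 b2
  have hm : uu (-|x1|) y1 ≤ uu |x1| y1 := by
    rcases (abs_nonneg x1).eq_or_lt with h | h
    · rw [← h]; simp
    · exact (mirror _ _ h h1).le
  have c1 : uu (-|x1|) y1 ≤ uu x1 y1 ∧ uu x1 y1 ≤ uu |x1| y1 := by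
    rcases abs_choice x1 with h | h
    · constructor
      · conv_rhs => rw [← h]
        exact hm
      · rw [h]
    · constructor
      · rw [h, neg_neg]
      · conv_lhs => rw [← neg_neg x1, ← h]
        exact hm
  rcases abs_choice x2 with h | h
  · rw [h] at b1
    intro hc; linarith [c1.2]
  · rw [h, neg_neg] at b2
    intro hc; linarith [c1.1]

lemma real_inj (x1 y1 x2 y2 : ℝ) (h1 : 0 < y1) (h2 : 0 < y2)
    (hp : pp x1 y1 = pp x2 y2) (hu : uu x1 y1 = uu x2 y2) : x1 = x2 ∧ y1 = y2 := by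
  have hy : y1 = y2 := by
    rcases lt_trichotomy y1 y2 with h | h | h
    · exact absurd hu (ne_of_lt_height _ _ _ _ h1 h hp)
    · exact h
    · exact absurd hu.symm (ne_of_lt_height _ _ _ _ h2 h hp.symm)
  subst hy
  refine ⟨?_, rfl⟩
  have e : x1 ^ 2 = x2 ^ 2 := by
    rw [sq_eq_DD x1 y1 h1, sq_eq_DD x2 y1 h1, hp]
  rcases sq_eq_sq_iff_eq_or_eq_neg.mp e with h | h
  · exact h
  · rcases lt_trichotomy x2 0 with h0 | h0 | h0
    · have := mirror (-x2) y1 (by linarith) h1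
      rw [neg_neg, ← h] at this
      linarith
    · rw [h, h0, neg_zero]
    · have := mirror x2 y1 h0 h1
      rw [← h] at this
      linarith

end Pool.Agent.MP_334d28_an.Bent
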