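import Pool.Agent.MP_334d28_an.Green

/-! The variational bound for the second coefficient. -/

open Complex Metric Set Filter Topology MeasureTheory
open scoped ComplexConjugate Real

namespace Pool.Agent.MP_334d28_an

lemma int_boundary_model (a b : ℂ) (δ : ℝ) :
    ∫ φ in (-π)..π, (hs φ * (1 - δ * prof a b φ / 2)).im * Real.sin (φ / 2)
      = -(π * (1 + δ * a.re / 2)) := by
  have e : ∀ φ : ℝ, (hs φ * (1 - δ * prof a b φ / 2)).im * Real.sin (φ / 2) =
      -(1 + δ * a.re / 2) / 2 + ((1 / 2) * exp ((-1 : ℤ) * φ * I)).re + δ / 4 * (prof a b φ).re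
        + (-(δ / 4 * conj b) * exp ((-4 : ℤ) * φ * I)).re := by
    intro φ
    have e1 : exp ((-1 : ℤ) * φ * I) * exp (φ * I) = 1 := by
      rw [← exp_add, ← exp_zero]; congr 1; push_cast; ring
    have e2 : exp ((-1 : ℤ) * φ * I) * exp ((-3 : ℤ) * φ * I) = exp ((-4 : ℤ) * φ * I) := by
      rw [← exp_add]; congr 1; push_cast; ring
    have e3 : (1 - exp ((-1 : ℤ) * φ * I)) * (1 - δ * prof a b φ / 2) =
        (1 + ((δ / 2 : ℝ) : ℂ) * a) - 2 * ((1 / 2) * exp ((-1 : ℤ) * φ * I))
          - ((δ / 2 : ℝ) : ℂ) * prof a b φ - 2 * (-(δ / 4 * conj b) * exp ((-4 : ℤ) * φ * I)) := by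
      rw [prof]; push_cast at *
      linear_combination (δ / 2 * a : ℂ) * e1 + (δ / 2 * conj b : ℂ) * e2
    rw [im_hs_mul, e3]
    generalize (1 / 2) * exp ((-1 : ℤ) * φ * I) = u
    generalize -(δ / 4 * conj b) * exp ((-4 : ℤ) * φ * I) = v
    simp only [sub_re, add_re, one_re, mul_re, re_ofNat, im_ofNat, ofReal_re,
      ofReal_im]
    ring
  simp_rw [e]
  rw [intervalIntegral.integral_add, intervalIntegral.integral_add, intervalIntegral.integral_add,
    int_re _ _ (by norm_num), int_re _ _ (by norm_num), intervalIntegral.integral_const_mul,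
    int_prof, intervalIntegral.integral_const, smul_eq_mul]
  · ring
  all_goals exact Continuous.intervalIntegrable (by fun_prop) _ _

namespace SH

variable {h g : ℂ → ℂ} (S : SH h g)
include S

theorem main_estimate {P P' : ℝ → ℝ} (hP : ∀ t, HasDerivAt P (P' t) t) (hP' : Continuous P')
    {r B K : ℝ} (hr0 : 0 < r) (hr : r < 1) (P0 : P 0 = 1) (Pr : P r = 0)
    (hB : ∀ δ, 0 < δ → δ ≤ r → ∫ t in δ..r,
      (2 * P' t ^ 2 + 2 * ((-t * P' t) ^ 2 + (P t - t * P' t) ^ 2) / (1 - t ^ 2)) ≤ B)
    (hK : ∀ δ, 0 < δ → δ ≤ r → ∫ t in δ..r, Tm h g t (-t * P' t) (P t - t * P' t) ≤ K) :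
    (deriv (deriv h) 0 / 2).re ≤ B + K := by
  have hpi : -π ≤ π := by linarith [Real.pi_pos]
  have pp := Real.pi_pos
  obtain ⟨E, Ec, E0, Es, Ed⟩ := S.exists_root
  obtain ⟨C1, δ1, hδ1, H1⟩ := S.area_asym hr
  obtain ⟨C2, δ2, hδ2, H2⟩ := S.root_asym Ec E0 Es
  set a := deriv (deriv h) 0 / 2
  set b := deriv (deriv g) 0 / 2
  have Pc : Continuous P := continuous_iff_continuousAt.2 fun t => (hP t).continuousAt
  have step : ∀ δ, 0 < δ → δ < δ1 → δ < δ2 → δ ≤ r →
      P δ * a.re ≤ (δ⁻¹ * (P δ - 1)) * (P δ - 1) + (B + K) + (C1 / (2 * π) + 4 * |P δ| * C2) * δ := by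
    intro δ hδ d1 d2 dr
    have δ1' : δ < 1 := dr.trans_lt hr
    have tI : ∀ t ∈ Icc δ r, 0 < t ∧ t < 1 := fun t ht => ⟨hδ.trans_le ht.1, ht.2.trans_lt hr⟩
    have cW := S.continuousOn_Wt Ec hδ hr Pc hP' (-π) π
    have cE : Continuous fun φ => E (pz δ φ) :=
      Ec.comp_continuous (by fun_prop) fun φ => mem_D.2 (by rwa [norm_pz' hδ.le])
    have A1 : ∫ t in δ..r, ∫ φ in (-π)..π, Wt h g E (P t) (P' t) t φ
        = -(P δ / δ) * ∫ φ in (-π)..π, (hs φ * E (pz δ φ)).im * Real.sin (φ / 2) := by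
      rw [rect_swap (F := fun t φ => Wt h g E (P t) (P' t) t φ) dr hpi cW,
        ← intervalIntegral.integral_const_mul]
      refine intervalIntegral.integral_congr fun φ hφ => ?_
      rw [uIcc_of_le hpi] at hφ
      rw [intervalIntegral.integral_eq_sub_of_hasDerivAt
        (f := fun t => P t / t * (hs φ * E (pz t φ)).im * Real.sin (φ / 2))]
      · rw [Pr]; ring
      · intro t ht
        rw [uIcc_of_le dr] at ht
        exact hasDerivAt_Wt Ed hP (tI t ht).1 (tI t ht).2 φ
      · apply ContinuousOn.intervalIntegrable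
        rw [uIcc_of_le dr]
        exact cW.comp (f := fun t => (t, φ)) (by fun_prop) fun t ht => ⟨ht, hφ⟩
    have i1 := rect_integrable (F := fun t φ => Wt h g E (P t) (P' t) t φ) dr hpi cW
    have i2 := (rect_integrable (F := fun t φ => t * ((‖deriv h (pz t φ)‖ ^ 2
      - ‖deriv g (pz t φ)‖ ^ 2) / ‖ff h g (pz t φ)‖ ^ 3)) dr hpi
      (S.continuousOn_dens hδ hr _ _)).div_const 4
    have i3 := S.Tm_integrable hδ dr hr (a := fun t => -t * P' t) (b := fun t => P t - t * P' t)
      (by fun_prop) (by fun_prop)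
    have i4 : IntervalIntegrable (fun t => 2 * P' t ^ 2 +
        2 * ((-t * P' t) ^ 2 + (P t - t * P' t) ^ 2) / (1 - t ^ 2)) volume δ r := by
      apply ContinuousOn.intervalIntegrable
      rw [uIcc_of_le dr]
      refine ContinuousOn.add (by fun_prop) (ContinuousOn.div (by fun_prop) (by fun_prop) ?_)
      intro t ht
      have := tI t ht
      nlinarith [this.1, this.2]
    have i5 : IntervalIntegrable (fun t => P t ^ 2 / t ^ 2 - 2 * P t * P' t / t) volume δ r := by
      apply ContinuousOn.intervalIntegrable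
      rw [uIcc_of_le dr]
      exact (ContinuousOn.div (by fun_prop) (by fun_prop) fun t ht =>
        pow_ne_zero _ (tI t ht).1.ne').sub
        (ContinuousOn.div (by fun_prop) (by fun_prop) fun t ht => (tI t ht).1.ne')
    have A2 : ∫ t in δ..r, (P t ^ 2 / t ^ 2 - 2 * P t * P' t / t) = P δ ^ 2 / δ := by
      rw [intervalIntegral.integral_eq_sub_of_hasDerivAt (f := fun t => -(P t ^ 2 / t)) _ i5]
      · rw [Pr]; ring
      · intro t ht
        rw [uIcc_of_le dr] at ht
        have t0 := (tI t ht).1.ne'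
        refine HasDerivAt.congr_deriv (((hP t).pow 2).div (hasDerivAt_id t) t0).neg ?_
        simp only [id, Pi.pow_apply]
        field_simp
        norm_num
        ring
    have A3 := intervalIntegral.integral_mono_on dr i1
      (i2.add (((i5.add i4).add i3).const_mul (π / 2))) (fun t ht => by
        have := S.circle_ineq Ec Es Ed (tI t ht).1 (tI t ht).2 (P t) (P' t)
        refine this.trans (le_of_eq ?_)
        have t0 := (tI t ht).1.ne'
        congr 2
        have : ((-t * P' t) ^ 2 + (P t - t * P' t) ^ 2) / t ^ 2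
          = P t ^ 2 / t ^ 2 - 2 * P t * P' t / t + 2 * P' t ^ 2 := by field_simp; ring
        rw [this]; ring)
    rw [A1, intervalIntegral.integral_add i2 (((i5.add i4).add i3).const_mul (π / 2)),
      intervalIntegral.integral_const_mul, intervalIntegral.integral_add (i5.add i4) i3,
      intervalIntegral.integral_add i5 i4, A2, intervalIntegral.integral_div] at A3
    have A4 := H1 δ hδ d1 dr
    have A5 := hB δ hδ dr
    have A6 := hK δ hδ dr
    have A7 : |(∫ φ in (-π)..π, (hs φ * E (pz δ φ)).im * Real.sin (φ / 2))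
        + π * (1 + δ * a.re / 2)| ≤ C2 * δ ^ 2 * (2 * π) := by
      have k1 : Continuous fun φ => (hs φ * E (pz δ φ)).im * Real.sin (φ / 2) :=
        (continuous_im.comp (continuous_hs.mul cE)).mul (by fun_prop)
      have k2 : Continuous fun φ => (hs φ * (1 - δ * prof a b φ / 2)).im * Real.sin (φ / 2) := by
        fun_prop
      rw [← sub_neg_eq_add, ← int_boundary_model a b δ, ← intervalIntegral.integral_sub
        (k1.intervalIntegrable _ _) (k2.intervalIntegrable _ _), ← Real.norm_eq_abs]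
      refine (intervalIntegral.norm_integral_le_of_norm_le_const (C := C2 * δ ^ 2) ?_).trans ?_
      · intro φ _
        rw [← sub_mul, ← sub_im, ← mul_sub, norm_mul]
        have n1 : ‖hs φ‖ = 1 := by
          rw [hs, show -((φ : ℂ) / 2) = ((-(φ / 2) : ℝ) : ℂ) by push_cast; ring,
            norm_exp_ofReal_mul_I]
        have n2 := abs_im_le_norm (hs φ * (E (pz δ φ) - (1 - δ * prof a b φ / 2)))
        rw [norm_mul, n1, one_mul] at n2
        have n3 := H2 δ hδ d2 φ
        have n4 := Real.abs_sin_le_one (φ / 2)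
        rw [Real.norm_eq_abs, Real.norm_eq_abs]
        calc _ ≤ C2 * δ ^ 2 * 1 := by
              gcongr
              · exact (norm_nonneg _).trans n3
              · exact n2.trans n3
          _ = _ := mul_one _
      · rw [show π - -π = 2 * π by ring, abs_of_pos (by positivity)]
    set c := ∫ φ in (-π)..π, (hs φ * E (pz δ φ)).im * Real.sin (φ / 2)
    have A8 : P δ * (c + π * (1 + δ * a.re / 2)) ≤ |P δ| * (C2 * δ ^ 2 * (2 * π)) := by
      refine (le_abs_self _).trans ?_
      rw [abs_mul]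
      gcongr
    have A9 : -(P δ / δ) * c ≤ (2 * π / δ + C1 * δ) / 4 + π / 2 * (P δ ^ 2 / δ + B + K) := by
      refine A3.trans ?_
      gcongr
    have A10 : P δ * a.re = 2 / (π * δ) * (P δ * (c + π * (1 + δ * a.re / 2)))
        + 2 / π * (-(P δ / δ) * c) - 2 * P δ / δ := by field_simp; ring
    rw [A10]
    calc _ ≤ 2 / (π * δ) * (|P δ| * (C2 * δ ^ 2 * (2 * π)))
        + 2 / π * ((2 * π / δ + C1 * δ) / 4 + π / 2 * (P δ ^ 2 / δ + B + K)) - 2 * P δ / δ := by
          gcongr
      _ = _ := by field_simp; ring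
  have l0 : Tendsto (fun δ : ℝ => δ) (𝓝[>] 0) (𝓝 0) := tendsto_nhdsWithin_of_tendsto_nhds tendsto_id
  have lP : Tendsto P (𝓝[>] 0) (𝓝 1) := by
    have := (Pc.tendsto 0).comp l0
    rwa [P0] at this
  have lS : Tendsto (fun δ => δ⁻¹ * (P δ - 1)) (𝓝[>] 0) (𝓝 (P' 0)) := by
    have := (hasDerivAt_iff_tendsto_slope_zero.1 (hP 0)).mono_left
      (nhdsWithin_mono _ (fun x (hx : x ∈ Ioi (0 : ℝ)) => ne_of_gt hx))
    simpa [P0] using this
  have l1 := lP.mul_const a.re
  have l2 := ((lS.mul (lP.sub_const 1)).add_const (B + K)).add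
    ((((lP.abs.const_mul 4).mul_const C2).const_add (C1 / (2 * π))).mul l0)
  have := le_of_tendsto_of_tendsto l1 l2 (by
    filter_upwards [Ioo_mem_nhdsGT (show 0 < min (min δ1 δ2) r by positivity)] with δ hδ
    exact step δ hδ.1 ((hδ.2.trans_le (min_le_left _ _)).trans_le (min_le_left _ _))
      ((hδ.2.trans_le (min_le_left _ _)).trans_le (min_le_right _ _))
      (hδ.2.le.trans (min_le_right _ _)))
  simpa using this

end SH

end Pool.Agent.MP_334d28_an
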