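import Pool.Agent.MP_334d28_an.Shift
import Pool.Agent.MP_334d28_an.Main
import Pool.Agent.MP_334d28_an.Data

/-! Soundness of the numerical certificate and the final bound. -/

open Complex Metric Set Filter Topology MeasureTheory
open scoped ComplexConjugate Real

namespace Pool.Agent.MP_334d28_an

noncomputable def dr (t : ℝ) : ℝ := 77 / 25 - 162 / 25 * t + 2187 / 625 * t ^ 2
noncomputable def br (t : ℝ) : ℝ := 1 - 81 / 25 * t ^ 2 + 1458 / 625 * t ^ 3

lemma dr_anti {s t : ℝ} (h : s ≤ t) (ht : t ≤ 25 / 27) : dr t ≤ dr s := by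
  have : dr s - dr t = (t - s) * (2187 / 625 * ((25 / 27 - s) + (25 / 27 - t))) := by
    simp only [dr]; ring
  have : 0 ≤ (t - s) * (2187 / 625 * ((25 / 27 - s) + (25 / 27 - t))) := by
    have : 0 ≤ t - s := by linarith
    have : 0 ≤ 25 / 27 - s := by linarith
    have : 0 ≤ 25 / 27 - t := by linarith
    positivity
  linarith

lemma br_anti {s t : ℝ} (hs : 0 ≤ s) (h : s ≤ t) (ht : t ≤ 25 / 27) : br t ≤ br s := by
  have e : br s - br t = (t - s) * (1458 / 625 *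
      (s * (25 / 27 - s) + t * (25 / 27 - t) + (s * (25 / 27 - t) + t * (25 / 27 - s)) / 2)) := by
    simp only [br]; ring
  have : 0 ≤ t - s := by linarith
  have : 0 ≤ 25 / 27 - s := by linarith
  have : 0 ≤ 25 / 27 - t := by linarith
  have : 0 ≤ t := by linarith
  have : 0 ≤ br s - br t := by rw [e]; positivity
  linarith

lemma dr_nonneg {t : ℝ} (ht : t ≤ 25 / 27) : 0 ≤ dr t :=
  le_trans (by norm_num [dr]) (dr_anti ht le_rfl)

lemma br_nonneg {t : ℝ} (h0 : 0 ≤ t) (ht : t ≤ 25 / 27) : 0 ≤ br t :=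
  le_trans (by norm_num [br]) (br_anti h0 ht le_rfl)

lemma Fp_diff_mono {α κ κ' D u v : ℝ} (hα : 0 ≤ α) (hκ : 0 ≤ κ) (hκ' : κ ≤ κ') (hD : 0 ≤ D)
    (hu : 0 ≤ u) (huv : u ≤ v) : Fp α κ (u + D) - Fp α κ u ≤ Fp α κ' (v + D) - Fp α κ' v := by
  have e : ∀ κ u : ℝ, Fp α κ (u + D) - Fp α κ u = 2 * α * D + (2 * u * D + D ^ 2) / 2
      + (4 * u ^ 3 * D + 6 * u ^ 2 * D ^ 2 + 4 * u * D ^ 3 + D ^ 4) / 2
      + κ * (2 * α * (3 * u ^ 2 * D + 3 * u * D ^ 2 + D ^ 3) / 3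
        + (4 * u ^ 3 * D + 6 * u ^ 2 * D ^ 2 + 4 * u * D ^ 3 + D ^ 4) / 4
        + (6 * u ^ 5 * D + 15 * u ^ 4 * D ^ 2 + 20 * u ^ 3 * D ^ 3 + 15 * u ^ 2 * D ^ 4
          + 6 * u * D ^ 5 + D ^ 6) / 3) := fun κ u => by simp only [Fp]; ring
  rw [e, e]
  have := hκ.trans hκ'
  gcongr

lemma es_cast (x : ℚ) (n : ℕ) :
    ((es x n : ℚ) : ℝ) = ∑ k ∈ Finset.range n, (x : ℝ) ^ k / k.factorial := by
  induction n with
  | zero => simp [es]
  | succ n ih => rw [es, Finset.sum_range_succ, ← ih]; push_cast; ring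

lemma exp_le_24 {m : ℝ} (h0 : 0 ≤ m) (h1 : m ≤ 12) :
    Real.exp m ≤ ∑ k ∈ Finset.range 24, m ^ k / k.factorial + m ^ 24 / (Nat.factorial 24) * 2 := by
  have := Complex.exp_bound' (x := m) (n := 24) (by
    rw [norm_real, Real.norm_eq_abs, abs_of_nonneg h0]; push_cast; linarith)
  have e : cexp m - ∑ k ∈ Finset.range 24, (m : ℂ) ^ k / k.factorial
      = ((Real.exp m - ∑ k ∈ Finset.range 24, m ^ k / k.factorial : ℝ) : ℂ) := by push_cast; rfl
  rw [e, norm_real, norm_real, Real.norm_eq_abs, Real.norm_eq_abs, abs_of_nonneg h0] at this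
  linarith [le_abs_self (Real.exp m - ∑ k ∈ Finset.range 24, m ^ k / k.factorial)]

lemma bracket_le {W₀ b y bl bh yl yh u A A' z z' D : ℝ} (hW : W₀ = b ^ 2 + y ^ 2)
    (b0 : 0 ≤ b) (y0 : 0 ≤ y) (b1 : bl ≤ b) (b2 : b ≤ bh) (y1 : yl ≤ y) (y2 : y ≤ yh)
    (u1 : bh - yl ≤ u) (u2 : yh - bl ≤ u) (hA : A ≤ A') (hz : z' ≤ z) (z0 : 0 ≤ z') (D0 : 0 ≤ D)
    (kp : 6 * D * z' ≤ A') :
    W₀ * A - 2 * 6 * b * y * D * z ≤ A' * u ^ 2 + 2 * bh * yh * (A' - 6 * D * z') := by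
  have A0 : 0 ≤ A' := le_trans (by positivity) kp
  have h1 : (b - y) ^ 2 ≤ u ^ 2 := sq_le_sq' (by linarith) (by linarith)
  have h2 : b * y ≤ bh * yh := mul_le_mul b2 y2 y0 (b0.trans b2)
  have h3 : W₀ * A ≤ W₀ * A' := mul_le_mul_of_nonneg_left hA (by rw [hW]; positivity)
  have h4 : b * y * D * z' ≤ b * y * D * z := mul_le_mul_of_nonneg_left hz (by positivity)
  have h5 := mul_le_mul_of_nonneg_left h1 A0
  have h6 := mul_le_mul_of_nonneg_right h2 (sub_nonneg.2 kp)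
  rw [hW] at h3 ⊢
  nlinarith

section

variable {h g : ℂ → ℂ} (S : SH h g) (hA : ∀ z : ℂ, ‖z‖ < 1 → ‖Aq h g z‖ ≤ 6)
  (h2 : deriv (deriv h) 0 / 2 = (6 : ℝ))
include S hA h2

lemma piece_real {s e D lo hi μ n x m c E u V t : ℝ} (s0 : 0 ≤ s) (D0 : 0 ≤ D) (μ0 : 0 ≤ μ)
    (c0 : 0 ≤ c) (er : e ≤ 25 / 27) (lo0 : 0 < lo) (hlo : lo * (lo - D) ≤ s ^ 2)
    (hhi : e ^ 2 ≤ hi * (hi - D)) (Dhi : D ≤ hi) (hi1 : hi < 1) (Dlo : D ≤ 2 * lo)
    (hn : Fp 6 (1 / (1 - hi ^ 2)) hi - Fp 6 (1 / (1 - hi ^ 2)) (hi - D) ≤ n) (m0 : 0 < m)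
    (hm : n - D * (2 * lo - D) + x ≤ m) (hc : Real.exp m ≤ 1 + m + c * m ^ 2)
    (hE : Real.exp (-x) ≤ E) (hμ : 1 - D / hi ≤ μ ^ 2)
    (hz : 0 ≤ 1 - c * (D * (2 * hi - D) - 2 * x))
    (hk : 6 * D * (1 - c * (D * (2 * hi - D) - 2 * x))
      ≤ 1 + x + c * ((n ^ 2 - (D * (2 * lo - D)) ^ 2) / 2 + x ^ 2))
    (u1 : br s - dr e * lo ≤ u) (u2 : dr s * hi - br e ≤ u)
    (hV : 2 * E * ((1 + x + c * ((n ^ 2 - (D * (2 * lo - D)) ^ 2) / 2 + x ^ 2)) * u ^ 2
      + 2 * br s * (dr s * hi) * ((1 + x + c * ((n ^ 2 - (D * (2 * lo - D)) ^ 2) / 2 + x ^ 2))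
      - 6 * D * (1 - c * (D * (2 * hi - D) - 2 * x)))) * μ ^ 3 ≤ V * (lo * (1 - e ^ 2)))
    (t0 : 0 < t) (ts : s ≤ t) (te : t ≤ e) : Tm h g t (t * dr t) (br t) ≤ V := by
  obtain ⟨ρ, ρD, hρ⟩ : ∃ ρ : ℝ, D < ρ ∧ ρ * (ρ - D) = t ^ 2 := by
    have p : 0 ≤ D ^ 2 + 4 * t ^ 2 := by positivity
    refine ⟨(D + √(D ^ 2 + 4 * t ^ 2)) / 2, ?_, ?_⟩
    · have : D < √(D ^ 2 + 4 * t ^ 2) := Real.lt_sqrt_of_sq_lt (by nlinarith only [t0])
      linarith
    · nlinarith only [Real.sq_sqrt p]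
  have ρ0 : 0 < ρ := D0.trans_lt ρD
  have st : s ^ 2 ≤ t ^ 2 := pow_le_pow_left₀ s0 ts 2
  have et : t ^ 2 ≤ e ^ 2 := pow_le_pow_left₀ t0.le te 2
  have ρlo : lo ≤ ρ := by
    by_contra hh
    push Not at hh
    nlinarith only [hh, hρ, st, hlo, ρD, ρ0, D0]
  have ρhi : ρ ≤ hi := by
    by_contra hh
    push Not at hh
    nlinarith only [hh, hρ, et, hhi, Dhi, ρ0, D0]
  have tρ : t ≤ ρ := by
    by_contra hh
    push Not at hh
    nlinarith only [hh, hρ, ρ0, D0, mul_nonneg D0 ρ0.le]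
  have hi0 : 0 < hi := ρ0.trans_le ρhi
  have e1 : t * (ρ / t) = ρ := by field_simp
  have e2 : t / (ρ / t) = ρ - D := by field_simp; linarith
  have e3 : ρ ^ 2 - (ρ - D) ^ 2 = D * (2 * ρ - D) := by ring
  have e4 : t * dr t * (ρ / t) = dr t * ρ := by field_simp
  have k0 : 0 < 1 - hi ^ 2 := by nlinarith only [hi0, hi1]
  have T := S.Tm_le (α := 6) (κ := 1 / (1 - hi ^ 2)) (t := t) (l := ρ / t) (a := t * dr t)
    (b := br t) (n := n) (x := -x) (m := m) (c := c) (by norm_num) hA h2 t0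
    (by rw [le_div_iff₀ t0]; linarith) (by rw [e1]; linarith)
    (by rw [e1, one_div_mul_eq_div, le_div_iff₀ k0]; nlinarith only [ρhi, ρ0])
    (by
      rw [e1, e2]
      refine le_trans ?_ hn
      have := Fp_diff_mono (α := 6) (κ := 1 / (1 - hi ^ 2)) (D := D) (u := ρ - D) (v := hi - D)
        (by norm_num) (by positivity) le_rfl D0 (by linarith) (by linarith)
      simpa using this) m0
    (by rw [e1, e2, e3]; linarith only [hm, mul_le_mul_of_nonneg_left ρlo D0]) hc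
  rw [e1, e2, e3, e4] at T
  refine T.trans ?_
  have tr : t ≤ 25 / 27 := te.trans er
  have slo : D * (2 * lo - D) ≤ D * (2 * ρ - D) := by gcongr
  have shi : D * (2 * ρ - D) ≤ D * (2 * hi - D) := by gcongr
  have slo0 : 0 ≤ D * (2 * lo - D) := mul_nonneg D0 (by linarith)
  have Br := bracket_le (W₀ := br t ^ 2 + (dr t * ρ) ^ 2) (b := br t) (y := dr t * ρ)
    (bl := br e) (bh := br s) (yl := dr e * lo) (yh := dr s * hi) (u := u)
    (A := 1 - -x + c * ((n ^ 2 - (D * (2 * ρ - D)) ^ 2) / 2 + (-x) ^ 2))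
    (A' := 1 + x + c * ((n ^ 2 - (D * (2 * lo - D)) ^ 2) / 2 + x ^ 2))
    (z := 1 - c * (D * (2 * ρ - D) + 2 * -x)) (z' := 1 - c * (D * (2 * hi - D) - 2 * x)) (D := D)
    rfl (br_nonneg t0.le tr) (mul_nonneg (dr_nonneg tr) ρ0.le) (br_anti t0.le te er)
    (br_anti s0 ts tr) (mul_le_mul (dr_anti te er) ρlo lo0.le (dr_nonneg tr))
    (mul_le_mul (dr_anti ts tr) ρhi ρ0.le (dr_nonneg (ts.trans tr))) u1 u2
    (by
      have : (D * (2 * lo - D)) ^ 2 ≤ (D * (2 * ρ - D)) ^ 2 := pow_le_pow_left₀ slo0 slo 2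
      linarith only [mul_le_mul_of_nonneg_left this c0])
    (by linarith only [mul_le_mul_of_nonneg_left shi c0]) hz D0 hk
  rw [show ρ - (ρ - D) = D by ring]
  set B' := (1 + x + c * ((n ^ 2 - (D * (2 * lo - D)) ^ 2) / 2 + x ^ 2)) * u ^ 2
      + 2 * br s * (dr s * hi) * ((1 + x + c * ((n ^ 2 - (D * (2 * lo - D)) ^ 2) / 2 + x ^ 2))
      - 6 * D * (1 - c * (D * (2 * hi - D) - 2 * x))) with hB'
  have B0 : 0 ≤ B' := by
    have A0 := le_trans (by positivity) hk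
    have := br_nonneg s0 (ts.trans tr)
    have := dr_nonneg (ts.trans tr)
    have := sub_nonneg.2 hk
    positivity
  have e0 : 0 < 1 - e ^ 2 := by nlinarith only [er, te, t0]
  have t2 : 0 < 1 - t ^ 2 := by linarith
  have mu : t / ρ ≤ μ := by
    apply le_of_pow_le_pow_left₀ two_ne_zero μ0
    calc (t / ρ) ^ 2 = 1 - D / ρ := by rw [div_pow, ← hρ]; field_simp
      _ ≤ 1 - D / hi := by gcongr
      _ ≤ _ := hμ
  have E0 : 0 ≤ E := (Real.exp_pos _).le.trans hE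
  calc _ ≤ 2 * Real.exp (-x) * B' / ((ρ / t) ^ 4 * t * (1 - t ^ 2)) := by gcongr
    _ = 2 * Real.exp (-x) * B' * (t / ρ) ^ 3 / (ρ * (1 - t ^ 2)) := by field_simp
    _ ≤ 2 * E * B' * μ ^ 3 / (lo * (1 - e ^ 2)) := by gcongr
    _ ≤ V := by rw [div_le_iff₀ (by positivity)]; exact hV

lemma piece_ok {s : ℕ} {p : Pc} (ok : okP s p = true) :
    s ≤ p.eN ∧ (p.eN : ℝ) / 270000 ≤ 25 / 27 ∧ ∀ t : ℝ, 0 < t → (s : ℝ) / 270000 ≤ t →
      t ≤ (p.eN : ℝ) / 270000 → Tm h g t (t * dr t) (br t) ≤ (p.vN : ℝ) / 1000000 := by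
  simp only [okP, okQ, Bool.and_eq_true, decide_eq_true_eq] at ok
  obtain ⟨⟨⟨⟨⟨⟨⟨⟨⟨⟨⟨⟨⟨⟨⟨⟨⟨⟨⟨a1, a2⟩, a3⟩, a4⟩, a5⟩, a6⟩, a7⟩, a8⟩, a9⟩, a10⟩, a11⟩, a12⟩, a13⟩,
    a14⟩, a15⟩, a16⟩, a17⟩, a18⟩, a19⟩, a20⟩ := ok
  have c1 : ∀ n : ℕ, ((sc n : ℚ) : ℝ) = (n : ℝ) / 1000000 := fun n => by simp [sc]
  have c2 : ∀ n : ℕ, ((tq n : ℚ) : ℝ) = (n : ℝ) / 270000 := fun n => by simp [tq]
  have c3 : ∀ t : ℚ, ((dq t : ℚ) : ℝ) = dr t := fun t => by simp [dq, dr]
  have c4 : ∀ t : ℚ, ((bq t : ℚ) : ℝ) = br t := fun t => by simp [bq, br]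
  have c5 : ∀ κ t : ℚ, ((Fq κ t : ℚ) : ℝ) = Fp 6 κ t := fun κ t => by simp [Fq, Fp]
  have n0 : ∀ n : ℕ, (0 : ℝ) ≤ ((sc n : ℚ) : ℝ) := fun n => by rw [c1]; positivity
  rw [← Rat.cast_le (K := ℝ)] at a1 a2 a4 a5 a6 a8 a9 a11 a12 a13 a14 a15 a16 a17 a18 a19 a20
  rw [← Rat.cast_lt (K := ℝ)] at a3 a7 a10
  push_cast [c3, c4, c5, es_cast] at a1 a2 a3 a4 a5 a6 a7 a8 a9 a10 a11 a12 a13 a14
  push_cast [c3, c4, c5, es_cast] at a15 a16 a17 a18 a19 a20
  refine ⟨?_, by rwa [← c2], fun t t0 ts te => ?_⟩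
  · rw [c2, c2, div_le_div_iff_of_pos_right (by norm_num)] at a1
    exact_mod_cast a1
  · rw [← c2] at ts te
    rw [← c1]
    refine piece_real S hA h2 (by rw [c2]; positivity) (n0 _) (n0 _) (n0 _) a2 a3 a4 a5 a6 a7 a8
      a9 a10 a12 ((exp_le_24 a10.le a11).trans a13) ?_ a15 a16 a17 a18 a19 a20 t0 ts te
    have := Real.sum_le_exp_of_nonneg (n0 p.xN) 16
    rw [Real.exp_neg, inv_le_iff_one_le_mul₀ (Real.exp_pos _)]
    exact a14.trans (mul_le_mul_of_nonneg_left this (n0 _))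

lemma chk_sound (L : List Pc) : ∀ s : ℕ, chk s L = true → ∀ δ : ℝ, 0 < δ → (s : ℝ) / 270000 ≤ δ →
    δ ≤ 25 / 27 → ∫ t in δ..(25 / 27), Tm h g t (t * dr t) (br t)
      ≤ (tot s L : ℝ) / (1000000 * 270000) := by
  induction L with
  | nil =>
    intro s hs δ _ h1 h2
    simp only [chk, beq_iff_eq] at hs
    subst hs
    have : δ = 25 / 27 := le_antisymm h2 (by norm_num at h1 ⊢; linarith)
    simp [this, tot]
  | cons p L ih =>
    intro s hs δ δ0 h1 h3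
    simp only [chk, Bool.and_eq_true] at hs
    obtain ⟨se, er, hp⟩ := piece_ok S hA h2 hs.1
    have ca : Continuous fun t => t * dr t := by unfold dr; fun_prop
    have cb : Continuous br := by unfold br; fun_prop
    have e : (tot s (p :: L) : ℝ) / (1000000 * 270000) = (p.vN : ℝ) / 1000000 *
        ((p.eN : ℝ) / 270000 - (s : ℝ) / 270000) + (tot p.eN L : ℝ) / (1000000 * 270000) := by
      rw [tot]; push_cast [Nat.cast_sub se]; ring
    rw [e]
    have v0 : (0 : ℝ) ≤ (p.vN : ℝ) / 1000000 := by positivity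
    rcases le_total δ ((p.eN : ℝ) / 270000) with hδ | hδ
    · have e0 : (0 : ℝ) < (p.eN : ℝ) / 270000 := δ0.trans_le hδ
      have i1 := S.Tm_integrable δ0 hδ (er.trans_lt (by norm_num)) ca cb
      have i2 := S.Tm_integrable e0 er (by norm_num) ca cb
      rw [← intervalIntegral.integral_add_adjacent_intervals i1 i2]
      refine add_le_add ?_ (ih _ hs.2 _ e0 le_rfl er)
      refine (intervalIntegral.integral_mono_on hδ i1 intervalIntegrable_const
        fun t ht => hp t (δ0.trans_le ht.1) (h1.trans ht.1) ht.2).trans ?_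
      rw [intervalIntegral.integral_const, smul_eq_mul, mul_comm]
      gcongr
    · refine (ih _ hs.2 _ δ0 hδ h3).trans (le_add_of_nonneg_left (mul_nonneg v0 ?_))
      have : (s : ℝ) ≤ p.eN := by exact_mod_cast se
      linarith [div_le_div_of_nonneg_right this (show (0 : ℝ) ≤ 270000 by norm_num)]

end

/-- Coefficients of the polynomial majorant of the radial part. -/
noncomputable def cf : ℕ → ℝ := fun j => [13108/625, -49896/625, 2110996/15625, -2518776/15625,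
  70542088/390625, -2991168/15625, 74793616/390625, -2991168/15625, 74793616/390625,
  -2991168/15625, 74793616/390625, -2991168/15625, 74793616/390625, -2991168/15625,
  74793616/390625, -2991168/15625, 4133408657/20312500, -2991168/15625, 4582627407/20312500,
  -124947684/203125, 21803429907/20312500, -172186884/203125, 387420489/1562500].getD j 0

lemma base_le {δ : ℝ} (h0 : 0 < δ) (h1 : δ ≤ 25 / 27) :
    ∫ t in δ..(25 / 27), (2 * dr t ^ 2 + 2 * ((t * dr t) ^ 2 + br t ^ 2) / (1 - t ^ 2))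
      ≤ 466 / 100 := by
  have e : ∀ t : ℝ, ∑ j ∈ Finset.range 23, cf j * t ^ j = 2 * dr t ^ 2
      + 2 * ((t * dr t) ^ 2 + br t ^ 2) * (1 + t ^ 2 + t ^ 4 + t ^ 6 + t ^ 8 + t ^ 10 + t ^ 12
        + t ^ 14 + 729 / 104 * t ^ 16) := by
    intro t
    simp only [Finset.sum_range_succ, Finset.range_zero, Finset.sum_empty, cf, dr, br,
      List.getD_cons_succ, List.getD_cons_zero]
    ring
  have c : Continuous fun t : ℝ => ∑ j ∈ Finset.range 23, cf j * t ^ j := by fun_prop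
  calc _ ≤ ∫ t in δ..(25 / 27), ∑ j ∈ Finset.range 23, cf j * t ^ j := by
        refine intervalIntegral.integral_mono_on h1 ?_ (c.intervalIntegrable _ _) fun t ht => ?_
        · apply ContinuousOn.intervalIntegrable
          rw [uIcc_of_le h1]
          unfold dr br
          refine ContinuousOn.add (by fun_prop) (ContinuousOn.div (by fun_prop) (by fun_prop) ?_)
          intro t ht
          nlinarith [ht.1, ht.2]
        · rw [e, div_eq_mul_one_div]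
          have p : 0 < 1 - t ^ 2 := by nlinarith [ht.1, ht.2]
          gcongr
          rw [div_le_iff₀ p]
          have q : 0 ≤ 729 / 104 * (1 - t ^ 2) - 1 := by nlinarith [ht.1, ht.2]
          have := mul_nonneg (show 0 ≤ t ^ 16 by positivity) q
          nlinarith
    _ ≤ ∫ t in (0 : ℝ)..(25 / 27), ∑ j ∈ Finset.range 23, cf j * t ^ j := by
        refine intervalIntegral.integral_mono_interval h0.le h1 le_rfl
          (Eventually.of_forall fun t => ?_) (c.intervalIntegrable _ _)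
        simp only [e, Pi.zero_apply]
        positivity
    _ ≤ _ := by
        rw [intervalIntegral.integral_finsetSum fun j _ =>
          Continuous.intervalIntegrable (by fun_prop) _ _]
        simp only [intervalIntegral.integral_const_mul, integral_pow, Finset.sum_range_succ,
          Finset.range_zero, Finset.sum_empty, cf, List.getD_cons_succ, List.getD_cons_zero]
        norm_num

theorem order_ne_six (h g : ℂ → ℂ) (S : SH h g) (hA : ∀ z : ℂ, ‖z‖ < 1 → ‖Aq h g z‖ ≤ 6) :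
    deriv (deriv h) 0 / 2 ≠ (6 : ℝ) := by
  intro h2
  have M := S.main_estimate (P := fun t => br t - t * dr t) (P' := fun t => -dr t)
    (r := 25 / 27) (B := 466 / 100) (K := (tot 0 data : ℝ) / (1000000 * 270000)) (fun t => by
      have d := hasDerivAt_id t
      refine HasDerivAt.congr_deriv (((((d.pow 2).const_mul (81 / 25)).const_sub 1).add
        ((d.pow 3).const_mul (1458 / 625))).sub (d.mul (((d.const_mul (162 / 25)).const_sub
        (77 / 25)).add ((d.pow 2).const_mul (2187 / 625))))) ?_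
      simp only [id, dr]; push_cast; ring)
    (by unfold dr; fun_prop) (by norm_num) (by norm_num) (by norm_num [br, dr])
    (by norm_num [br, dr]) (fun δ h0 h1 => by
      refine le_trans (le_of_eq ?_) (base_le h0 h1)
      congr 1; ext t; ring_nf) (fun δ h0 h1 => by
      refine le_trans (le_of_eq ?_) (chk_sound S hA h2 data 0 chk_data δ h0 (by simpa using h0.le) h1)
      congr 1; ext t; congr 1 <;> ring)
  rw [h2, ofReal_re] at M
  have : (tot 0 data : ℝ) ≤ 354700000000 := by exact_mod_cast tot_data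
  have : (tot 0 data : ℝ) / (1000000 * 270000) ≤ 354700000000 / (1000000 * 270000) := by gcongr
  generalize (tot 0 data : ℝ) / (1000000 * 270000) = K at this M
  norm_num at this M
  linarith

theorem second_coeff_le_six (h g : ℂ → ℂ) (hh : DifferentiableOn ℂ h (ball 0 1))
    (hg : DifferentiableOn ℂ g (ball 0 1)) (h0 : h 0 = 0) (g0 : g 0 = 0) (h1 : deriv h 0 = 1)
    (g1 : deriv g 0 = 0) (inj : InjOn (fun z => h z + conj (g z)) (ball 0 1))
    (lt : ∀ z ∈ ball (0 : ℂ) 1, ‖deriv g z‖ < ‖deriv h z‖) : ‖iteratedDeriv 2 h 0 / 2‖ ≤ 6 := by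
  rw [show (2 : ℕ) = 1 + 1 from rfl, iteratedDeriv_succ, iteratedDeriv_one]
  exact bootstrap (by norm_num) order_ne_six ⟨hh, hg, h0, g0, h1, g1, inj, lt⟩

end Pool.Agent.MP_334d28_an
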