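import Pool.Agent.MP_334d28_an.Asym

/-! The length-area inequality for `f ^ (-1/2)` tested against `P(t) t^(-1/2) cos (φ/2)`. -/

open Complex Metric Set Filter Topology MeasureTheory
open scoped ComplexConjugate Real

namespace Pool.Agent.MP_334d28_an

lemma pointwise_alg {κ U V Γ : ℂ} {t : ℝ} (ht : 0 < t) (ht1 : t < 1) (hU : U ≠ 0)
    (hV : ‖V‖ ≤ t * ‖U‖) :
    (κ * (U * Γ - V * conj Γ)).re / t ≤ ‖κ‖ ^ 2 * (‖U‖ ^ 2 - ‖V‖ ^ 2) +
      (‖Γ‖ ^ 2 + 2 * (t ^ 2 * ‖Γ‖ ^ 2 - (V / U * conj Γ ^ 2).re) / (1 - t ^ 2)) / (4 * t ^ 2) := by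
  obtain ⟨ν, rfl⟩ : ∃ ν, V = ν * U := ⟨V / U, by field_simp⟩
  rw [mul_div_cancel_right₀ _ hU]
  have Up : 0 < ‖U‖ := norm_pos_iff.2 hU
  rw [norm_mul] at hV ⊢
  have m1 : ‖ν‖ ≤ t := le_of_mul_le_mul_right hV Up
  set m := ‖ν‖ with hm
  have m0 : 0 ≤ m := norm_nonneg _
  have m2 : m ^ 2 ≤ t ^ 2 := pow_le_pow_left₀ m0 m1 2
  have t2 : t ^ 2 < 1 := by nlinarith
  set G := ‖Γ‖ ^ 2 with hG
  set R := (ν * conj Γ ^ 2).re with hR
  have G0 : 0 ≤ G := by positivity
  have RG : R ≤ G := by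
    refine (re_le_norm _).trans ?_
    rw [norm_mul, norm_pow, Complex.norm_conj]
    nlinarith
  set B := ‖Γ - ν * conj Γ‖ with hB
  have B2 : B ^ 2 = G * (1 + m ^ 2) - 2 * R := by
    rw [hB, hG, hm, hR, Complex.sq_norm, Complex.sq_norm, Complex.sq_norm]
    simp only [normSq_apply, sub_re, sub_im, mul_re, mul_im, conj_re, conj_im, pow_two]
    ring
  set A := ‖κ‖ * ‖U‖ with hA
  have h1 : (κ * (U * Γ - ν * U * conj Γ)).re ≤ A * B := by
    refine (re_le_norm _).trans ?_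
    rw [show κ * (U * Γ - ν * U * conj Γ) = κ * U * (Γ - ν * conj Γ) by ring, norm_mul, norm_mul]
  have h2 : A * B / t ≤ A ^ 2 * (1 - m ^ 2) + B ^ 2 / (1 - m ^ 2) / (4 * t ^ 2) := by
    have p : 0 < 1 - m ^ 2 := by linarith
    have : A ^ 2 * (1 - m ^ 2) + B ^ 2 / (1 - m ^ 2) / (4 * t ^ 2) - A * B / t
        = (2 * t * (1 - m ^ 2) * A - B) ^ 2 / (4 * t ^ 2 * (1 - m ^ 2)) := by
      field_simp; ring
    have : 0 ≤ (2 * t * (1 - m ^ 2) * A - B) ^ 2 / (4 * t ^ 2 * (1 - m ^ 2)) := by positivity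
    linarith
  have h3 : B ^ 2 / (1 - m ^ 2) ≤ G + 2 * (t ^ 2 * G - R) / (1 - t ^ 2) := by
    have p : 0 < 1 - m ^ 2 := by linarith
    have p' : 0 < 1 - t ^ 2 := by linarith
    have : G + 2 * (t ^ 2 * G - R) / (1 - t ^ 2) - B ^ 2 / (1 - m ^ 2)
        = 2 * ((t ^ 2 - m ^ 2) * (G - R)) / ((1 - t ^ 2) * (1 - m ^ 2)) := by
      rw [B2]; field_simp; ring
    have : 0 ≤ 2 * ((t ^ 2 - m ^ 2) * (G - R)) / ((1 - t ^ 2) * (1 - m ^ 2)) := by
      have := mul_nonneg (sub_nonneg.2 m2) (sub_nonneg.2 RG)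
      positivity
    linarith
  calc _ ≤ A * B / t := by gcongr
    _ ≤ A ^ 2 * (1 - m ^ 2) + B ^ 2 / (1 - m ^ 2) / (4 * t ^ 2) := h2
    _ ≤ A ^ 2 * (1 - m ^ 2) + (G + 2 * (t ^ 2 * G - R) / (1 - t ^ 2)) / (4 * t ^ 2) := by gcongr
    _ = _ := by rw [hA]; ring

/-- Half-angle factor. -/
noncomputable def hs (φ : ℝ) : ℂ := exp (-(φ / 2) * I)

lemma hs_eq (φ : ℝ) : hs φ = Real.cos (φ / 2) - Real.sin (φ / 2) * I := by
  rw [hs, exp_mul_I, cos_neg, sin_neg]; push_cast; ring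

lemma hs_sq (φ : ℝ) : hs φ ^ 2 * exp (φ * I) = 1 := by
  rw [hs, ← exp_nat_mul, ← exp_add, ← exp_zero]; congr 1; push_cast; ring

lemma hs_sq' (φ : ℝ) : hs φ ^ 2 = exp ((-1 : ℤ) * φ * I) := by
  rw [hs, ← exp_nat_mul]; congr 1; push_cast; ring

@[fun_prop] lemma continuous_hs : Continuous hs := by unfold hs; fun_prop

lemma hasDerivAt_hs (φ : ℝ) : HasDerivAt hs (hs φ * (-(1 / 2) * I)) φ := by
  have : HasDerivAt (fun φ : ℝ => (φ : ℂ)) 1 φ := ofRealCLM.hasDerivAt
  exact (((this.div_const 2).neg).mul_const I).cexp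

lemma hasDerivAt_pz_t (t φ : ℝ) : HasDerivAt (fun t => pz t φ) (exp (φ * I)) t := by
  have : HasDerivAt (fun φ : ℝ => (φ : ℂ)) 1 t := ofRealCLM.hasDerivAt
  simpa [pz] using this.mul_const (exp (φ * I))

lemma hasDerivAt_pz_φ (t φ : ℝ) : HasDerivAt (fun φ => pz t φ) (pz t φ * I) φ := by
  have : HasDerivAt (fun φ : ℝ => (φ : ℂ)) 1 φ := ofRealCLM.hasDerivAt
  have := ((this.mul_const I).cexp).const_mul (t : ℂ)
  simpa [pz, mul_assoc] using this

lemma im_hs_mul (φ : ℝ) (w : ℂ) :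
    (hs φ * w).im * Real.sin (φ / 2) = -((1 - exp ((-1 : ℤ) * φ * I)) * w).re / 2 := by
  rw [← hs_sq', hs_eq]
  have := Real.sin_sq_add_cos_sq (φ / 2)
  simp only [pow_two, mul_re, mul_im, sub_re, sub_im, ofReal_re, ofReal_im, I_re, I_im, one_re,
    one_im]
  linear_combination (-w.re / 2) * this

/-- The oscillating moment of the dilatation. -/
noncomputable def Mom (h g : ℂ → ℂ) (t a b φ : ℝ) : ℂ :=
  conj (deriv g (pz t φ)) / deriv h (pz t φ) * exp ((-3 : ℤ) * φ * I) * (b + a * exp (φ * I)) ^ 2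

/-- Its contribution to the bound. -/
noncomputable def Tm (h g : ℂ → ℂ) (t a b : ℝ) : ℝ :=
  -(∫ φ in (-π)..π, (Mom h g t a b φ).re) / (π * t ^ 2 * (1 - t ^ 2))

lemma int_cos : ∫ φ in (-π)..π, Real.cos φ = 0 := by simp

namespace SH

variable {h g : ℂ → ℂ} (S : SH h g)
include S

lemma continuousOn_Mom {δ r : ℝ} (hδ : 0 < δ) (hr : r < 1) {a b : ℝ → ℝ} (ha : Continuous a)
    (hb : Continuous b) (c d : ℝ) :
    ContinuousOn (fun p : ℝ × ℝ => (Mom h g p.1 (a p.1) (b p.1) p.2).re) (Icc δ r ×ˢ Icc c d) := by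
  have m : MapsTo (fun p : ℝ × ℝ => pz p.1 p.2) (Icc δ r ×ˢ Icc c d) (ball 0 1) := fun p hp =>
    mem_D.2 (by rw [norm_pz' (hδ.le.trans hp.1.1)]; exact hp.1.2.trans_lt hr)
  have c1 := S.dh.continuousOn.comp continuous_pz.continuousOn m
  have c2 := S.dg.continuousOn.comp continuous_pz.continuousOn m
  refine continuous_re.comp_continuousOn ?_
  refine (((continuous_conj.comp_continuousOn c2).div c1 fun p hp => S.dh_ne (mem_D.1 (m hp))).mul
    (Continuous.continuousOn (by fun_prop))).mul (Continuous.continuousOn (by fun_prop))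

lemma Tm_integrable {δ r : ℝ} (hδ : 0 < δ) (hδr : δ ≤ r) (hr : r < 1) {a b : ℝ → ℝ}
    (ha : Continuous a) (hb : Continuous b) :
    IntervalIntegrable (fun t => Tm h g t (a t) (b t)) volume δ r := by
  have hpi : -π ≤ π := by linarith [Real.pi_pos]
  have h1 := rect_integrable (F := fun t φ => (Mom h g t (a t) (b t) φ).re) hδr hpi
    (S.continuousOn_Mom hδ hr ha hb _ _)
  simp only [Tm, div_eq_mul_inv]
  refine h1.neg.mul_continuousOn (ContinuousOn.inv₀ (by fun_prop) ?_)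
  intro t ht
  rw [uIcc_of_le hδr] at ht
  have : 0 < t := hδ.trans_le ht.1
  have : 0 < 1 - t ^ 2 := by nlinarith [ht.2]
  positivity

section

variable {E : ℂ → ℂ} (Ec : ContinuousOn E (ball 0 1))
  (Es : ∀ z : ℂ, ‖z‖ < 1 → E z ^ 2 * ff h g z = z)
  (Ed : ∀ (γ : ℝ → ℂ) (γ' : ℂ) (s : ℝ), HasDerivAt γ γ' s → ‖γ s‖ < 1 → γ s ≠ 0 →
      HasDerivAt (fun s => E (γ s))
        (E (γ s) / 2 * (γ' / γ s -
          (deriv h (γ s) * γ' + conj (deriv g (γ s) * γ')) / ff h g (γ s))) s)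

/-- The radial integrand. -/
noncomputable def Wt (h g E : ℂ → ℂ) (p p' t φ : ℝ) : ℝ :=
  ((p' / t - p / t ^ 2) * (hs φ * E (pz t φ)).im + p / t * (hs φ * (E (pz t φ) / 2 *
    (exp (φ * I) / pz t φ - (deriv h (pz t φ) * exp (φ * I) + conj (deriv g (pz t φ) * exp (φ * I)))
      / ff h g (pz t φ)))).im) * Real.sin (φ / 2)

include Ec in
lemma continuousOn_Wt {δ r : ℝ} (hδ : 0 < δ) (hr : r < 1) {P P' : ℝ → ℝ} (hP : Continuous P)
    (hP' : Continuous P') (c d : ℝ) :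
    ContinuousOn (fun p : ℝ × ℝ => Wt h g E (P p.1) (P' p.1) p.1 p.2) (Icc δ r ×ˢ Icc c d) := by
  have m : MapsTo (fun p : ℝ × ℝ => pz p.1 p.2) (Icc δ r ×ˢ Icc c d) (ball 0 1) := fun p hp =>
    mem_D.2 (by rw [norm_pz' (hδ.le.trans hp.1.1)]; exact hp.1.2.trans_lt hr)
  have c1 := S.dh.continuousOn.comp continuous_pz.continuousOn m
  have c2 := S.dg.continuousOn.comp continuous_pz.continuousOn m
  have c3 := S.continuousOn_ff.comp continuous_pz.continuousOn m
  have c4 := Ec.comp continuous_pz.continuousOn m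
  have t0 : ∀ p ∈ Icc δ r ×ˢ Icc c d, p.1 ≠ 0 := fun p hp => (hδ.trans_le hp.1.1).ne'
  have z0 : ∀ p ∈ Icc δ r ×ˢ Icc c d, pz p.1 p.2 ≠ 0 := fun p hp => pz_ne (hδ.trans_le hp.1.1) _
  have ce : ContinuousOn (fun p : ℝ × ℝ => exp (p.2 * I)) (Icc δ r ×ˢ Icc c d) := by fun_prop
  have ch : ContinuousOn (fun p : ℝ × ℝ => hs p.2) (Icc δ r ×ˢ Icc c d) := by fun_prop
  have cP : ContinuousOn (fun p : ℝ × ℝ => P p.1) (Icc δ r ×ˢ Icc c d) := by fun_prop
  have cP' : ContinuousOn (fun p : ℝ × ℝ => P' p.1) (Icc δ r ×ˢ Icc c d) := by fun_prop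
  refine ((((cP'.div continuousOn_fst t0).sub (cP.div (continuousOn_fst.pow 2)
    fun p hp => pow_ne_zero _ (t0 p hp))).mul (continuous_im.comp_continuousOn (ch.mul c4))).add
    ((cP.div continuousOn_fst t0).mul (continuous_im.comp_continuousOn (ch.mul
    ((c4.div_const 2).mul ((ce.div continuous_pz.continuousOn z0).sub (((c1.mul ce).add
    (continuous_conj.comp_continuousOn (c2.mul ce))).div c3
    fun p hp => S.ff_ne (mem_D.1 (m hp)) (z0 p hp)))))))).mul (by fun_prop)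

omit S in
include Ed in
lemma hasDerivAt_Wt {P P' : ℝ → ℝ} (hP : ∀ t, HasDerivAt P (P' t) t) {t : ℝ} (ht : 0 < t)
    (ht1 : t < 1) (φ : ℝ) :
    HasDerivAt (fun t => P t / t * (hs φ * E (pz t φ)).im * Real.sin (φ / 2))
      (Wt h g E (P t) (P' t) t φ) t := by
  have d1 := (Ed _ _ t (hasDerivAt_pz_t t φ) (by rwa [norm_pz' ht.le]) (pz_ne ht φ)).const_mul (hs φ)
  have d2 := imCLM.hasFDerivAt.comp_hasDerivAt t d1
  have d3 := (((hP t).div (hasDerivAt_id t) ht.ne').mul d2).mul_const (Real.sin (φ / 2))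
  refine HasDerivAt.congr_deriv d3 ?_
  simp only [Wt, id, Function.comp, imCLM_apply, Pi.div_apply]
  congr 2
  field_simp

include Ec Es Ed in
lemma circle_ineq {t : ℝ} (ht : 0 < t) (ht1 : t < 1) (p p' : ℝ) :
    ∫ φ in (-π)..π, Wt h g E p p' t φ ≤
      (∫ φ in (-π)..π, t * ((‖deriv h (pz t φ)‖ ^ 2 - ‖deriv g (pz t φ)‖ ^ 2)
        / ‖ff h g (pz t φ)‖ ^ 3)) / 4
      + π / 2 * (((-t * p') ^ 2 + (p - t * p') ^ 2) / t ^ 2
        + 2 * ((-t * p') ^ 2 + (p - t * p') ^ 2) / (1 - t ^ 2) + Tm h g t (-t * p') (p - t * p')) := by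
  have hpi : -π ≤ π := by linarith [Real.pi_pos]
  set a := -t * p' with ha
  set b := p - t * p' with hb
  have zn : ∀ φ, ‖pz t φ‖ < 1 := fun φ => by rwa [norm_pz' ht.le]
  have slice : ∀ {F : ℝ × ℝ → ℝ}, ContinuousOn F (Icc t t ×ˢ Icc (-π) π) →
      IntervalIntegrable (fun φ => F (t, φ)) volume (-π) π := by
    intro F hF
    apply ContinuousOn.intervalIntegrable
    rw [uIcc_of_le hpi]
    exact hF.comp (by fun_prop) fun φ hφ => ⟨⟨le_rfl, le_rfl⟩, hφ⟩
  have i1 := slice (S.continuousOn_Wt Ec ht ht1 (P := fun _ => p) (P' := fun _ => p')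
    continuous_const continuous_const _ _)
  have i2 := slice (S.continuousOn_dens ht ht1 _ _)
  have i3 := slice (S.continuousOn_Mom ht ht1 (a := fun _ => a) (b := fun _ => b)
    continuous_const continuous_const _ _)
  simp only at i1 i2 i3
  set D : ℝ → ℝ := fun φ => (hs φ * (-(1 / 2) * I) * E (pz t φ) + hs φ * (E (pz t φ) / 2 *
    (pz t φ * I / pz t φ - (deriv h (pz t φ) * (pz t φ * I) +
      conj (deriv g (pz t φ) * (pz t φ * I))) / ff h g (pz t φ)))).im * Real.cos (φ / 2)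
      + (hs φ * E (pz t φ)).im * (-Real.sin (φ / 2) * (1 / 2)) with hD
  have dD : ∀ φ, HasDerivAt (fun φ => (hs φ * E (pz t φ)).im * Real.cos (φ / 2)) (D φ) φ := by
    intro φ
    have d1 := (hasDerivAt_hs φ).mul (Ed _ _ φ (hasDerivAt_pz_φ t φ) (zn φ) (pz_ne ht φ))
    have d2 := imCLM.hasFDerivAt.comp_hasDerivAt φ d1
    exact d2.mul ((hasDerivAt_id φ).div_const 2).cos
  have cD : Continuous D := by
    have m : ∀ φ, pz t φ ∈ ball (0 : ℂ) 1 := fun φ => mem_D.2 (zn φ)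
    have cp : Continuous fun φ => pz t φ := by fun_prop
    have c1 := S.dh.continuousOn.comp_continuous cp m
    have c2 := S.dg.continuousOn.comp_continuous cp m
    have c3 := S.continuousOn_ff.comp_continuous cp m
    have c4 := Ec.comp_continuous cp m
    refine ((continuous_im.comp (((continuous_hs.mul continuous_const).mul c4).add
      (continuous_hs.mul ((c4.div_const 2).mul (((cp.mul continuous_const).div cp
      fun φ => pz_ne ht φ).sub (((c1.mul (cp.mul continuous_const)).add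
      (continuous_conj.comp (c2.mul (cp.mul continuous_const)))).div c3
      fun φ => S.ff_ne (zn φ) (pz_ne ht φ))))))).mul (by fun_prop)).add
      ((continuous_im.comp (continuous_hs.mul c4)).mul (by fun_prop))
  have iD : ∫ φ in (-π)..π, D φ = 0 := by
    rw [intervalIntegral.integral_eq_sub_of_hasDerivAt (fun φ _ => dD φ)
      (cD.intervalIntegrable _ _)]
    simp [neg_div]
  have t2 : 0 < 1 - t ^ 2 := by nlinarith
  have pw : ∀ φ, Wt h g E p p' t φ ≤
      t * ((‖deriv h (pz t φ)‖ ^ 2 - ‖deriv g (pz t φ)‖ ^ 2) / ‖ff h g (pz t φ)‖ ^ 3) / 4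
      + (a ^ 2 + b ^ 2) * ((1 + 2 * t ^ 2 / (1 - t ^ 2)) / (4 * t ^ 2))
      + 2 * a * b * ((1 + 2 * t ^ 2 / (1 - t ^ 2)) / (4 * t ^ 2)) * Real.cos φ
      - 1 / (2 * t ^ 2 * (1 - t ^ 2)) * (Mom h g t a b φ).re
      - (2 * p' / t - p / t ^ 2) * D φ := by
    intro φ
    set z := pz t φ with hz
    set e := exp (φ * I) with he
    have e0 : e ≠ 0 := exp_ne_zero _
    have en : ‖e‖ = 1 := norm_exp_ofReal_mul_I φ
    have ze : z = t * e := rfl
    have f0 : ff h g z ≠ 0 := S.ff_ne (zn φ) (pz_ne ht φ)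
    have tc : (t : ℂ) ≠ 0 := by exact_mod_cast ht.ne'
    set X := hs φ * E z with hX
    set κ := -X / (2 * ff h g z) with hκ
    set U := deriv h z * e with hU
    set V := conj (deriv g z * e) with hV
    set c := Real.cos (φ / 2) with hc
    set s := Real.sin (φ / 2) with hs'
    set Γ : ℂ := -((a + b) * c : ℝ) - ((b - a) * s : ℝ) * I with hΓ
    have Un : ‖U‖ = ‖deriv h z‖ := by rw [hU, norm_mul, en, mul_one]
    have Vn : ‖V‖ = ‖deriv g z‖ := by rw [hV, Complex.norm_conj, norm_mul, en, mul_one]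
    have key := pointwise_alg (κ := κ) (U := U) (V := V) (Γ := Γ) ht ht1
      (mul_ne_zero (S.dh_ne (zn φ)) e0) (by
        rw [Un, Vn]; have := S.schwarz (zn φ); rwa [norm_pz' ht.le] at this)
    have X2 : X ^ 2 * ff h g z = t := by
      have e1 := Es z (zn φ)
      have e2 := hs_sq φ
      rw [hX]
      linear_combination hs φ ^ 2 * e1 + hs φ ^ 2 * ze + t * e2
    have κn : ‖κ‖ ^ 2 = t / (4 * ‖ff h g z‖ ^ 3) := by
      have := congrArg norm X2
      rw [norm_mul, norm_pow, norm_real, Real.norm_eq_abs, abs_of_pos ht] at this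
      have fp : 0 < ‖ff h g z‖ := norm_pos_iff.2 f0
      rw [hκ, norm_div, norm_neg, norm_mul 2, Complex.norm_ofNat, ← this]
      field_simp; norm_num
    have cs : s ^ 2 + c ^ 2 = 1 := Real.sin_sq_add_cos_sq _
    have cφ : Real.cos φ = c ^ 2 - s ^ 2 := by
      rw [hc, hs', ← Real.cos_two_mul']; congr 1; ring
    have Γn : ‖Γ‖ ^ 2 = a ^ 2 + b ^ 2 + 2 * a * b * Real.cos φ := by
      rw [cφ, Complex.sq_norm, normSq_apply, hΓ]
      simp only [sub_re, neg_re, ofReal_re, mul_re, I_re, I_im, ofReal_im, sub_im, neg_im, mul_im]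
      linear_combination (a ^ 2 + b ^ 2) * cs
    have Γc : conj Γ = -(hs φ * (b + a * e)) := by
      have e2 := hs_sq φ
      have e3 : hs φ = c - s * I := hs_eq φ
      have e4 : hs φ * e = c + s * I := by
        have : ((s : ℂ) ^ 2 + c ^ 2 = 1) := by exact_mod_cast cs
        have i2 : I ^ 2 = -1 := I_sq
        rw [← he] at e2
        rw [e3] at e2 ⊢
        linear_combination (c + s * I) * e2 - (c - s * I) * e * this + (c - s * I) * e * s ^ 2 * i2
      simp only [hΓ, map_sub, map_neg, map_mul, conj_ofReal, conj_I]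
      push_cast
      linear_combination (b : ℂ) * e3 + (a : ℂ) * e4
    have Mm : V / U * conj Γ ^ 2 = Mom h g t a b φ := by
      have e2 := hs_sq φ
      have e5 : conj e * e = 1 := by
        rw [mul_comm, mul_conj, normSq_eq_norm_sq, en]; simp
      have e6 : exp ((-3 : ℤ) * φ * I) * e ^ 3 = 1 := by
        rw [he, ← exp_nat_mul, ← exp_add, ← exp_zero]; congr 1; push_cast; ring
      have e7 : conj e = e⁻¹ := eq_inv_of_mul_eq_one_left e5
      have e8 : hs φ ^ 2 = e⁻¹ := eq_inv_of_mul_eq_one_left e2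
      have e9 : exp ((-3 : ℤ) * φ * I) = (e ^ 3)⁻¹ := eq_inv_of_mul_eq_one_left e6
      rw [Γc, Mom, ← hz, ← he, e9, hV, hU, map_mul, e7, neg_sq, mul_pow, e8]
      have := S.dh_ne (zn φ)
      field_simp
    have W1 : hs φ * (E z / 2 * (e / z - (U + V) / ff h g z)) = X / (2 * t) + κ * (U + V) := by
      rw [hκ, hX, ze]; field_simp; ring
    have W2 : hs φ * (-(1 / 2) * I) * E z + hs φ * (E z / 2 *
        (z * I / z - (deriv h z * (z * I) + conj (deriv g z * (z * I))) / ff h g z))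
        = t * (I * (κ * (U - V))) := by
      have : conj (deriv g z * (z * I)) = -(t * I * V) := by
        rw [hV, ze]; simp only [map_mul, conj_ofReal, conj_I]; ring
      rw [this, hκ, hX, hU]
      have z0 : z ≠ 0 := pz_ne ht φ
      rw [mul_div_cancel_left₀ _ z0]
      conv_lhs => rw [show deriv h z * (z * I) = t * I * (deriv h z * e) by
        conv_lhs => rw [show z * I = t * e * I by rw [ze]]
        ring]
      field_simp; ring
    have lhs : (κ * (U * Γ - V * conj Γ)).re / t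
        = Wt h g E p p' t φ + (2 * p' / t - p / t ^ 2) * D φ := by
      simp only [Wt, hD]
      rw [← hz, ← he, ← hU, ← hV, W1, W2, ← hX, ← hc, ← hs']
      have : κ * (U * Γ - V * conj Γ) = -((a + b) * c : ℝ) * (κ * (U - V))
          - ((b - a) * s : ℝ) * I * (κ * (U + V)) := by
        simp only [hΓ, map_sub, map_neg, map_mul, conj_ofReal, conj_I]; ring
      rw [this]
      have x2 : (X / (2 * t)).im = X.im / (2 * t) := by
        rw [show (2 * t : ℂ) = ((2 * t : ℝ) : ℂ) by push_cast; ring, div_ofReal_im]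
      rw [add_im, x2]
      generalize κ * (U - V) = Y
      generalize κ * (U + V) = Z
      simp only [sub_re, mul_re, neg_re, neg_im, ofReal_re, ofReal_im, I_re, I_im, mul_im, ha, hb]
      field_simp; ring
    rw [lhs, κn, Γn, Mm, Un, Vn] at key
    have fp : 0 < ‖ff h g z‖ := norm_pos_iff.2 f0
    have : t / (4 * ‖ff h g z‖ ^ 3) * (‖deriv h z‖ ^ 2 - ‖deriv g z‖ ^ 2) +
      (a ^ 2 + b ^ 2 + 2 * a * b * Real.cos φ + 2 * (t ^ 2 * (a ^ 2 + b ^ 2 + 2 * a * b * Real.cos φ)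
        - (Mom h g t a b φ).re) / (1 - t ^ 2)) / (4 * t ^ 2) =
      t * ((‖deriv h z‖ ^ 2 - ‖deriv g z‖ ^ 2) / ‖ff h g z‖ ^ 3) / 4
      + (a ^ 2 + b ^ 2) * ((1 + 2 * t ^ 2 / (1 - t ^ 2)) / (4 * t ^ 2))
      + 2 * a * b * ((1 + 2 * t ^ 2 / (1 - t ^ 2)) / (4 * t ^ 2)) * Real.cos φ
      - 1 / (2 * t ^ 2 * (1 - t ^ 2)) * (Mom h g t a b φ).re := by
      field_simp; ring
    linarith
  have j1 := i2.div_const 4
  have j2 : IntervalIntegrable (fun _ : ℝ => (a ^ 2 + b ^ 2) *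
    ((1 + 2 * t ^ 2 / (1 - t ^ 2)) / (4 * t ^ 2))) volume (-π) π := intervalIntegrable_const
  have j3 : IntervalIntegrable (fun φ : ℝ => 2 * a * b *
    ((1 + 2 * t ^ 2 / (1 - t ^ 2)) / (4 * t ^ 2)) * Real.cos φ) volume (-π) π :=
    Continuous.intervalIntegrable (by fun_prop) _ _
  have j4 := i3.const_mul (1 / (2 * t ^ 2 * (1 - t ^ 2)))
  have j5 := (cD.intervalIntegrable (μ := volume) (-π) π).const_mul (2 * p' / t - p / t ^ 2)
  refine (intervalIntegral.integral_mono_on hpi i1 ((((j1.add j2).add j3).sub j4).sub j5)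
    fun φ _ => pw φ).trans (le_of_eq ?_)
  rw [intervalIntegral.integral_sub (((j1.add j2).add j3).sub j4) j5,
    intervalIntegral.integral_sub ((j1.add j2).add j3) j4,
    intervalIntegral.integral_add (j1.add j2) j3, intervalIntegral.integral_add j1 j2,
    intervalIntegral.integral_const_mul, intervalIntegral.integral_const_mul,
    intervalIntegral.integral_const_mul, intervalIntegral.integral_const_mul, iD, int_cos,
    intervalIntegral.integral_div, intervalIntegral.integral_const, Tm, smul_eq_mul]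
  have := Real.pi_pos
  field_simp; ring

end

end SH

end Pool.Agent.MP_334d28_an
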