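import Mathlib

/-!
Lewy's theorem: the Jacobian of an injective harmonic map of the disk does not vanish.
-/

open Set Filter Topology
open scoped Real ComplexConjugate

namespace Pool.Agent.MP_334d28_an.Lewy

/-- three arcs from a point cannot be mapped injectively into a line -/
theorem triod {Φ : ℂ → ℂ} {U : Set ℂ} (hU : U ∈ 𝓝 (0 : ℂ)) (hc : ContinuousOn Φ U)
    (hi : InjOn Φ U) {ζ : ℂ} (hζ : ζ.im ≠ 0)
    (h1 : ∀ t : ℝ, (t : ℂ) ∈ U → (Φ t).re = (Φ 0).re)
    (h2 : ∀ s : ℝ, s * ζ ∈ U → (Φ (s * ζ)).re = (Φ 0).re) : False := by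
  obtain ⟨ε, hε, hb⟩ := Metric.mem_nhds_iff.1 hU
  have hm : ∀ t ∈ Icc (-(ε / 2)) (ε / 2), ((t : ℝ) : ℂ) ∈ U := fun t ht => hb (by
    rw [mem_ball_zero_iff, Complex.norm_real, Real.norm_eq_abs, abs_lt]
    constructor <;> linarith [ht.1, ht.2])
  set χ : ℝ → ℝ := fun t => (Φ t).im with hχ
  have cχ : ContinuousOn χ (Icc (-(ε / 2)) (ε / 2)) :=
    Complex.continuous_im.comp_continuousOn (hc.comp Complex.continuous_ofReal.continuousOn hm)
  have iχ : InjOn χ (Icc (-(ε / 2)) (ε / 2)) := fun s hs t ht e => by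
    have : Φ s = Φ t := Complex.ext (by rw [h1 s (hm s hs), h1 t (hm t ht)]) e
    exact_mod_cast hi (hm s hs) (hm t ht) this
  have hle : -(ε / 2) ≤ ε / 2 := by linarith
  have m0 : (0 : ℝ) ∈ Icc (-(ε / 2)) (ε / 2) := ⟨by linarith, by linarith⟩
  have hW : χ '' Icc (-(ε / 2)) (ε / 2) ∈ 𝓝 (χ 0) := by
    rcases cχ.strictMonoOn_of_injOn_Icc' hle iχ with h | h
    · exact mem_of_superset (Icc_mem_nhds (h (left_mem_Icc.2 hle) m0 (by linarith))
        (h m0 (right_mem_Icc.2 hle) (by linarith))) (intermediate_value_Icc hle cχ)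
    · exact mem_of_superset (Icc_mem_nhds (h m0 (right_mem_Icc.2 hle) (by linarith))
        (h (left_mem_Icc.2 hle) m0 (by linarith))) (intermediate_value_Icc' hle cχ)
  have t0 : Tendsto (fun s : ℝ => (s : ℂ) * ζ) (𝓝 0) (𝓝 0) := by
    have : Continuous fun s : ℝ => (s : ℂ) * ζ := by fun_prop
    simpa using this.tendsto 0
  have t1 : Tendsto (fun s : ℝ => (Φ (s * ζ)).im) (𝓝 0) (𝓝 (χ 0)) := by
    have := (Complex.continuous_im.tendsto _).comp ((hc.continuousAt hU).tendsto.comp t0)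
    simpa [hχ, Function.comp_def] using this
  have hev : ∀ᶠ s : ℝ in 𝓝[≠] 0, (s : ℂ) * ζ ∈ U ∧
      (Φ (s * ζ)).im ∈ χ '' Icc (-(ε / 2)) (ε / 2) :=
    ((t0.eventually hU).and (t1.eventually hW)).filter_mono nhdsWithin_le_nhds
  obtain ⟨s, ⟨hs, t, ht, e⟩, s0⟩ := (hev.and self_mem_nhdsWithin).exists
  have e2 : Φ t = Φ (s * ζ) := Complex.ext (by rw [h1 t (hm t ht), h2 s hs]) e
  have e3 := congrArg Complex.im (hi (hm t ht) hs e2)
  simp only [Complex.ofReal_im, Complex.mul_im, Complex.ofReal_re, zero_mul, add_zero] at e3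
  exact mul_ne_zero s0 hζ e3.symm

/-- local normal form at a critical point -/
theorem normal {F : ℂ → ℂ} {z₀ : ℂ} (hF : AnalyticAt ℂ F z₀) (h0 : deriv F z₀ = 0) :
    ∃ (n : ℕ) (a : ℝ) (φ : ℂ → ℂ) (c : ℂ), 2 ≤ n ∧ c ≠ 0 ∧ HasStrictDerivAt φ c z₀ ∧ φ z₀ = 0 ∧
      ∀ᶠ z in 𝓝 z₀, F z - F z₀ = a * Complex.I * φ z ^ n := by
  by_cases hz : ∀ᶠ z in 𝓝 z₀, F z - F z₀ = 0
  · exact ⟨2, 0, fun z => z - z₀, 1, le_rfl, one_ne_zero, (hasStrictDerivAt_id z₀).sub_const z₀,
      sub_self _, hz.mono fun z h => by simp [h]⟩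
  obtain ⟨n, G, hG, G0, hev⟩ :=
    (hF.sub analyticAt_const).exists_eventuallyEq_pow_smul_nonzero_iff.2 hz
  have hn : 2 ≤ n := by
    rcases n with _ | _ | n
    · exact absurd (by simpa using hev.self_of_nhds.symm) G0
    · exfalso
      have d1 : HasDerivAt (fun z => F z - F z₀) 0 z₀ :=
        h0 ▸ hF.differentiableAt.hasDerivAt.sub_const _
      have d2 : HasDerivAt (fun z => (z - z₀) * G z) (G z₀) z₀ := by
        simpa using ((hasDerivAt_id z₀).sub_const z₀).fun_mul hG.differentiableAt.hasDerivAt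
      have d3 : HasDerivAt (fun z => F z - F z₀) (G z₀) z₀ :=
        d2.congr_of_eventuallyEq (hev.mono fun z h => by simpa using h)
      exact G0 (d3.unique d1)
    · omega
  obtain ⟨c, hc⟩ := IsAlgClosed.exists_pow_nat_eq (G z₀ / Complex.I) (n := n) (by omega)
  have c0 : c ≠ 0 := by
    rintro rfl
    rw [zero_pow (by omega)] at hc
    exact div_ne_zero G0 Complex.I_ne_zero hc.symm
  have hK : AnalyticAt ℂ (fun z => c * Complex.exp (Complex.log (G z / G z₀) / n)) z₀ := by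
    have h1 : AnalyticAt ℂ (fun z => Complex.log (G z / G z₀)) z₀ :=
      (hG.div_const (c := G z₀)).clog (by simp [div_self G0])
    exact analyticAt_const.mul (h1.div_const (c := (n : ℂ))).cexp
  refine ⟨n, 1, fun z => (z - z₀) * (c * Complex.exp (Complex.log (G z / G z₀) / n)), c, hn, c0,
    ?_, by simp, ?_⟩
  · have d1 : HasStrictDerivAt (fun z : ℂ => z - z₀) 1 z₀ := (hasStrictDerivAt_id z₀).sub_const z₀
    simpa [div_self G0] using d1.fun_mul hK.hasStrictDerivAt
  · filter_upwards [hev, hG.continuousAt.eventually_ne G0] with z h hz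
    have nc : (n : ℂ) ≠ 0 := by exact_mod_cast (by omega : n ≠ 0)
    have e : Complex.exp (Complex.log (G z / G z₀) / n) ^ n = G z / G z₀ := by
      rw [← Complex.exp_nat_mul, mul_div_cancel₀ _ nc, Complex.exp_log (div_ne_zero hz G0)]
    have h' : F z - F z₀ = (z - z₀) ^ n * G z := by simpa using h
    rw [h', mul_pow, mul_pow, e, hc]
    have := Complex.I_ne_zero
    field_simp
    simp

theorem lewy {h g : ℂ → ℂ} {V : Set ℂ} (hV : IsOpen V) (hh : DifferentiableOn ℂ h V)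
    (hg : DifferentiableOn ℂ g V) (hi : InjOn (fun z => h z + conj (g z)) V) {z₀ : ℂ}
    (hz : z₀ ∈ V) : ‖deriv g z₀‖ ≠ ‖deriv h z₀‖ := by
  intro e
  have hVz := hV.mem_nhds hz
  obtain ⟨l, l0, hl⟩ : ∃ l : ℂ, l ≠ 0 ∧ l * deriv h z₀ + conj l * deriv g z₀ = 0 := by
    by_cases ha : deriv h z₀ = 0
    · refine ⟨1, one_ne_zero, ?_⟩
      rw [ha, norm_zero, norm_eq_zero] at e
      simp [ha, e]
    · obtain ⟨l, hl⟩ := IsAlgClosed.exists_pow_nat_eq (-deriv g z₀ / deriv h z₀) (n := 2) two_pos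
      have n1 : ‖l‖ ^ 2 = 1 := by
        rw [← norm_pow, hl, norm_div, norm_neg, e, div_self (norm_ne_zero_iff.2 ha)]
      have n2 : l * conj l = 1 := by
        rw [Complex.mul_conj, Complex.normSq_eq_norm_sq, n1, Complex.ofReal_one]
      have l0 : l ≠ 0 := left_ne_zero_of_mul_eq_one n2
      refine ⟨l, l0, mul_left_cancel₀ l0 ?_⟩
      rw [eq_div_iff ha] at hl
      linear_combination hl + deriv g z₀ * n2
  have ah := hh.analyticAt hVz
  have ag := hg.analyticAt hVz
  obtain ⟨n, a, φ, c, hn, c0, hφ, φ0, hev⟩ := normal (F := fun z => l * h z + conj l * g z)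
    ((analyticAt_const.mul ah).add (analyticAt_const.mul ag)) (by
      rw [← hl]
      exact ((ah.differentiableAt.hasDerivAt.const_mul l).add
        (ag.differentiableAt.hasDerivAt.const_mul (conj l))).deriv)
  set E := (hφ.hasStrictFDerivAt_equiv c0).toOpenPartialHomeomorph φ with hE
  have Eφ : (E : ℂ → ℂ) = φ := rfl
  have s0 : z₀ ∈ E.source := (hφ.hasStrictFDerivAt_equiv c0).mem_toOpenPartialHomeomorph_source
  have t0 : (0 : ℂ) ∈ E.target := φ0 ▸ E.map_source s0
  have p0 : E.symm 0 = z₀ := by rw [← φ0, ← Eφ]; exact E.left_inv s0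
  have td : Tendsto E.symm (𝓝 0) (𝓝 z₀) := p0 ▸ (E.continuousAt_symm t0).tendsto
  have hre : ∀ z, (l * (h z + conj (g z))).re = (l * h z + conj l * g z).re := fun z => by
    simp [mul_add]
  have hU := (td.eventually (hev.and hVz)).and (E.open_target.mem_nhds t0)
  have key : ∀ w : ℂ, ((l * h (E.symm w) + conj l * g (E.symm w)) - (l * h z₀ + conj l * g z₀) =
      a * Complex.I * φ (E.symm w) ^ n ∧ E.symm w ∈ V) ∧ w ∈ E.target → (w ^ n).im = 0 →
      (l * (h (E.symm w) + conj (g (E.symm w)))).re =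
        (l * (h (E.symm 0) + conj (g (E.symm 0)))).re := fun w hw hw' => by
    have e1 := congrArg Complex.re hw.1.1
    rw [← Eφ, E.right_inv hw.2] at e1
    rw [hre, hre, p0, ← sub_eq_zero, ← Complex.sub_re, e1]
    simp [hw']
  have np : (0 : ℝ) < n := by exact_mod_cast (by omega : 0 < n)
  refine triod (Φ := fun w => l * (h (E.symm w) + conj (g (E.symm w)))) hU ?_ ?_
    (ζ := Complex.exp (((π / n : ℝ) : ℂ) * Complex.I)) ?_ (fun t ht => key _ ht ?_)
    fun s hs => key _ hs ?_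
  · exact continuousOn_const.mul ((hh.continuousOn.comp
      (E.continuousOn_symm.mono fun w hw => hw.2) fun w hw => hw.1.2).add
      (Complex.continuous_conj.comp_continuousOn (hg.continuousOn.comp
        (E.continuousOn_symm.mono fun w hw => hw.2) fun w hw => hw.1.2)))
  · intro v hv w hw e
    exact E.symm.injOn hv.2 hw.2 (hi hv.1.2 hw.1.2 (mul_left_cancel₀ l0 e))
  · rw [Complex.exp_ofReal_mul_I_im]
    refine (Real.sin_pos_of_pos_of_lt_pi (div_pos Real.pi_pos np) ?_).ne'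
    exact div_lt_self Real.pi_pos (by exact_mod_cast (by omega : 1 < n))
  · rw [← Complex.ofReal_pow, Complex.ofReal_im]
  · have : (n : ℂ) * (((π / n : ℝ) : ℂ) * Complex.I) = π * Complex.I := by
      have nc : (n : ℂ) ≠ 0 := by exact_mod_cast np.ne'
      push_cast
      field_simp
    rw [mul_pow, ← Complex.exp_nat_mul, this, Complex.exp_pi_mul_I, ← Complex.ofReal_pow,
      mul_neg_one, Complex.neg_im, Complex.ofReal_im, neg_zero]

/-- a normalised injective harmonic map of the disk preserves the sense -/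
theorem sense {h g : ℂ → ℂ} (hh : DifferentiableOn ℂ h (Metric.ball (0 : ℂ) 1))
    (hg : DifferentiableOn ℂ g (Metric.ball (0 : ℂ) 1)) (h1 : deriv h 0 = 1) (g1 : deriv g 0 = 0)
    (hi : InjOn (fun z => h z + conj (g z)) (Metric.ball (0 : ℂ) 1)) :
    ∀ z ∈ Metric.ball (0 : ℂ) 1, ‖deriv g z‖ < ‖deriv h z‖ := by
  intro z hz
  have := (convex_ball (0 : ℂ) 1).isPreconnected.lt_of_ne
    (f := fun z => ‖deriv h z‖ - ‖deriv g z‖) (b := 0)
    ((hh.deriv Metric.isOpen_ball).continuousOn.norm.sub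
      (hg.deriv Metric.isOpen_ball).continuousOn.norm)
    (fun x hx e => lewy Metric.isOpen_ball hh hg hi hx (sub_eq_zero.1 e).symm)
    ⟨0, Metric.mem_ball_self one_pos, by simp [h1, g1]⟩ hz
  linarith

end Pool.Agent.MP_334d28_an.Lewy
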