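import Pool.Agent.MP_334d28_an.Basic

/-! Disc automorphisms, Schwarz-Pick, and the invariant pre-Schwarzian. -/

open Complex Metric Set Filter Topology
open scoped ComplexConjugate

namespace Pool.Agent.MP_334d28_an

/-- Disc automorphism sending `0` to `a`. -/
noncomputable def mob (a z : ℂ) : ℂ := (z + a) / (1 + conj a * z)

lemma mob_den {a z : ℂ} (ha : ‖a‖ < 1) (hz : ‖z‖ < 1) : 1 + conj a * z ≠ 0 := by
  intro e
  have : ‖conj a * z‖ = 1 := by rw [show conj a * z = -1 by linear_combination e]; simp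
  rw [norm_mul, Complex.norm_conj] at this
  nlinarith [norm_nonneg a, norm_nonneg z]

lemma one_sub_mob {a z : ℂ} (ha : ‖a‖ < 1) (hz : ‖z‖ < 1) :
    1 - ‖mob a z‖ ^ 2 = (1 - ‖a‖ ^ 2) * (1 - ‖z‖ ^ 2) / ‖1 + conj a * z‖ ^ 2 := by
  have := norm_ne_zero_iff.2 (mob_den ha hz)
  rw [eq_div_iff (pow_ne_zero 2 this), mob, norm_div, div_pow, sub_mul,
    div_mul_cancel₀ _ (pow_ne_zero 2 this)]
  simp only [Complex.sq_norm, normSq_apply, add_re, add_im, mul_re, mul_im, conj_re, conj_im,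
    one_re, one_im]
  ring

lemma norm_mob_lt {a z : ℂ} (ha : ‖a‖ < 1) (hz : ‖z‖ < 1) : ‖mob a z‖ < 1 := by
  have h1 := one_sub_mob ha hz
  have := norm_pos_iff.2 (mob_den ha hz)
  have : 0 < 1 - ‖a‖ ^ 2 := by nlinarith [norm_nonneg a]
  have : 0 < 1 - ‖z‖ ^ 2 := by nlinarith [norm_nonneg z]
  have : 0 < 1 - ‖mob a z‖ ^ 2 := by rw [h1]; positivity
  nlinarith [norm_nonneg (mob a z)]

lemma conj_mul_self (a : ℂ) : conj a * a = ((‖a‖ ^ 2 : ℝ) : ℂ) := by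
  rw [mul_comm, mul_conj, normSq_eq_norm_sq]

lemma hasDerivAt_mob {a z : ℂ} (ha : ‖a‖ < 1) (hz : ‖z‖ < 1) :
    HasDerivAt (mob a) ((1 - conj a * a) / (1 + conj a * z) ^ 2) z := by
  have := ((hasDerivAt_id z).add_const a).div (((hasDerivAt_id z).const_mul (conj a)).const_add 1)
    (mob_den ha hz)
  refine HasDerivAt.congr_deriv this ?_
  simp only [id]
  congr 1; ring

lemma mob_inj {a z w : ℂ} (ha : ‖a‖ < 1) (hz : ‖z‖ < 1) (hw : ‖w‖ < 1) (e : mob a z = mob a w) :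
    z = w := by
  rw [mob, mob, div_eq_div_iff (mob_den ha hz) (mob_den ha hw)] at e
  have := mob_den (a := a) (z := -a) ha (by rwa [norm_neg])
  apply mul_left_cancel₀ this
  linear_combination e

lemma schwarz_pick {ω : ℂ → ℂ} (hd : DifferentiableOn ℂ ω (ball 0 1))
    (hω : ∀ z : ℂ, ‖z‖ < 1 → ‖ω z‖ < 1) {z : ℂ} (hz : ‖z‖ < 1) :
    ‖deriv ω z‖ ≤ (1 - ‖ω z‖ ^ 2) / (1 - ‖z‖ ^ 2) := by
  have w1 : ‖-ω z‖ < 1 := by rw [norm_neg]; exact hω z hz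
  have D : ∀ u : ℂ, ‖u‖ < 1 → HasDerivAt (fun u => mob (-ω z) (ω (mob z u)))
      ((1 - conj (-ω z) * (-ω z)) / (1 + conj (-ω z) * ω (mob z u)) ^ 2 *
        (deriv ω (mob z u) * ((1 - conj z * z) / (1 + conj z * u) ^ 2))) u := fun u hu =>
    HasDerivAt.comp u (h₂ := mob (-ω z)) (h := fun u => ω (mob z u))
      (hasDerivAt_mob w1 (hω _ (norm_mob_lt hz hu)))
      ((hasDerivAt_of_D hd (norm_mob_lt hz hu)).comp u (hasDerivAt_mob hz hu))
  have m0 : mob z 0 = z := by simp [mob]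
  have := Complex.norm_deriv_le_one_of_mapsTo_ball (f := fun u => mob (-ω z) (ω (mob z u)))
    (c := 0) (R := 1) (fun u hu => (D u (mem_D.1 hu)).differentiableAt.differentiableWithinAt)
    (fun u hu => by
      have := norm_mob_lt w1 (hω _ (norm_mob_lt hz (mem_D.1 hu)))
      simpa [m0, mob] using this.le) one_pos
  rw [(D 0 (by simp)).deriv, m0] at this
  have p1 : 0 < 1 - ‖ω z‖ ^ 2 := by nlinarith [norm_nonneg (ω z), hω z hz]
  have p2 : 0 < 1 - ‖z‖ ^ 2 := by nlinarith [norm_nonneg z]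
  have e1 : 1 - conj (-ω z) * (-ω z) = ((1 - ‖ω z‖ ^ 2 : ℝ) : ℂ) := by
    rw [conj_mul_self, norm_neg]; push_cast; ring
  have e2 : 1 + conj (-ω z) * ω z = ((1 - ‖ω z‖ ^ 2 : ℝ) : ℂ) := by
    rw [map_neg, neg_mul, conj_mul_self]; push_cast; ring
  have e3 : 1 - conj z * z = ((1 - ‖z‖ ^ 2 : ℝ) : ℂ) := by rw [conj_mul_self]; push_cast; ring
  rw [e1, e2, e3] at this
  simp only [norm_mul, norm_div, norm_pow, norm_real, Real.norm_eq_abs, abs_of_pos p1,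
    abs_of_pos p2, mul_zero, add_zero, one_pow, div_one] at this
  rw [le_div_iff₀ p2]
  have e4 : (1 - ‖ω z‖ ^ 2) / (1 - ‖ω z‖ ^ 2) ^ 2 = 1 / (1 - ‖ω z‖ ^ 2) := by field_simp
  rw [e4, one_div_mul_eq_div, div_le_one p1] at this
  exact this

/-- `∂ log J_f`. -/
noncomputable def PJ (h g : ℂ → ℂ) (z : ℂ) : ℂ :=
  (deriv (deriv h) z * conj (deriv h z) - deriv (deriv g) z * conj (deriv g z)) /
    ((‖deriv h z‖ ^ 2 - ‖deriv g z‖ ^ 2 : ℝ) : ℂ)

/-- The second coefficient of the Koebe and affine transform of `f` at `z`. -/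
noncomputable def Aq (h g : ℂ → ℂ) (z : ℂ) : ℂ :=
  ((1 - ‖z‖ ^ 2 : ℝ) : ℂ) / 2 * PJ h g z - conj z

lemma SH.G_bound {h g : ℂ → ℂ} (S : SH h g) {α : ℝ} {z : ℂ} (hz : ‖z‖ < 1) (hA : ‖Aq h g z‖ ≤ α) :
    ‖deriv (deriv h) z / deriv h z - 2 * conj z / ((1 - ‖z‖ ^ 2 : ℝ) : ℂ)‖
      ≤ (2 * α + ‖z‖) / (1 - ‖z‖ ^ 2) := by
  have h0 := S.dh_ne hz
  have sp := schwarz_pick S.omega_diff (fun w hw => S.omega_lt hw) hz
  rw [((hasDerivAt_of_D S.dg hz).fun_div (hasDerivAt_of_D S.dh hz) h0).deriv] at sp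
  have sw := S.schwarz hz
  have wl := S.omega_lt hz
  set h1 := deriv h z
  set g1 := deriv g z
  set h2 := deriv (deriv h) z
  set g2 := deriv (deriv g) z
  obtain ⟨ω, hω⟩ : ∃ ω, g1 = ω * h1 := ⟨g1 / h1, by field_simp⟩
  set ω' := (g2 * h1 - g1 * h2) / h1 ^ 2 with hω'
  have e0 : g1 / h1 = ω := by rw [hω]; field_simp
  rw [e0] at sp wl
  have hp : 0 < ‖h1‖ := norm_pos_iff.2 h0
  have wz : ‖ω‖ ≤ ‖z‖ := by
    rw [hω, norm_mul] at sw
    exact le_of_mul_le_mul_right sw hp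
  have p1 : 0 < 1 - ‖ω‖ ^ 2 := by nlinarith [norm_nonneg ω]
  have p2 : 0 < 1 - ‖z‖ ^ 2 := by nlinarith [norm_nonneg z]
  have c1 : ((1 - ‖ω‖ ^ 2 : ℝ) : ℂ) ≠ 0 := by exact_mod_cast p1.ne'
  have c2 : ((1 - ‖z‖ ^ 2 : ℝ) : ℂ) ≠ 0 := by exact_mod_cast p2.ne'
  have ch : conj h1 ≠ 0 := (map_ne_zero _).2 h0
  have e1 : ((‖h1‖ ^ 2 - ‖g1‖ ^ 2 : ℝ) : ℂ) = conj h1 * h1 * ((1 - ‖ω‖ ^ 2 : ℝ) : ℂ) := by
    rw [conj_mul_self, hω, norm_mul]; push_cast; ring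
  have e2 : conj ω * ω = 1 - ((1 - ‖ω‖ ^ 2 : ℝ) : ℂ) := by rw [conj_mul_self]; push_cast; ring
  have e3 : h2 / h1 - 2 * conj z / ((1 - ‖z‖ ^ 2 : ℝ) : ℂ) =
      2 * Aq h g z / ((1 - ‖z‖ ^ 2 : ℝ) : ℂ) + conj ω * ω' / ((1 - ‖ω‖ ^ 2 : ℝ) : ℂ) := by
    rw [Aq, PJ, e1, hω']
    change _ = 2 * (_ * ((h2 * conj h1 - g2 * conj g1) / _) - _) / _ + _
    rw [hω, map_mul]
    generalize ((1 - ‖ω‖ ^ 2 : ℝ) : ℂ) = u at *
    generalize ((1 - ‖z‖ ^ 2 : ℝ) : ℂ) = v at *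
    field_simp
    linear_combination (h2 * v) * e2
  rw [e3]
  refine (norm_add_le _ _).trans ?_
  rw [norm_div, norm_div, norm_mul, norm_mul, norm_real, norm_real, Real.norm_eq_abs,
    Real.norm_eq_abs, abs_of_pos p1, abs_of_pos p2, Complex.norm_ofNat, Complex.norm_conj, add_div]
  refine add_le_add (by gcongr) ?_
  rw [div_le_iff₀ p1]
  calc ‖ω‖ * ‖ω'‖ ≤ ‖z‖ * ((1 - ‖ω‖ ^ 2) / (1 - ‖z‖ ^ 2)) := by gcongr
    _ = _ := by ring

lemma deriv_comb {h g σ σ' σ'' : ℂ → ℂ} (hh : DifferentiableOn ℂ h (ball 0 1))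
    (hg : DifferentiableOn ℂ g (ball 0 1)) (m : ∀ z : ℂ, ‖z‖ < 1 → ‖σ z‖ < 1)
    (d1 : ∀ z : ℂ, ‖z‖ < 1 → HasDerivAt σ (σ' z) z)
    (d2 : ∀ z : ℂ, ‖z‖ < 1 → HasDerivAt σ' (σ'' z) z) (p q c : ℂ) :
    DifferentiableOn ℂ (fun z => p * h (σ z) + q * g (σ z) + c) (ball 0 1) ∧
    ∀ z : ℂ, ‖z‖ < 1 →
      deriv (fun z => p * h (σ z) + q * g (σ z) + c) z
        = (p * deriv h (σ z) + q * deriv g (σ z)) * σ' z ∧
      deriv (deriv (fun z => p * h (σ z) + q * g (σ z) + c)) z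
        = (p * deriv (deriv h) (σ z) + q * deriv (deriv g) (σ z)) * σ' z ^ 2
          + (p * deriv h (σ z) + q * deriv g (σ z)) * σ'' z := by
  have D1 : ∀ z : ℂ, ‖z‖ < 1 → HasDerivAt (fun z => p * h (σ z) + q * g (σ z) + c)
      ((p * deriv h (σ z) + q * deriv g (σ z)) * σ' z) z := by
    intro z hz
    have a := ((hasDerivAt_of_D hh (m z hz)).comp z (d1 z hz)).const_mul p
    have b := ((hasDerivAt_of_D hg (m z hz)).comp z (d1 z hz)).const_mul q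
    exact HasDerivAt.congr_deriv ((a.add b).add_const c) (by ring)
  refine ⟨fun z hz => (D1 z (mem_D.1 hz)).differentiableAt.differentiableWithinAt,
    fun z hz => ⟨(D1 z hz).deriv, ?_⟩⟩
  have ev : deriv (fun z => p * h (σ z) + q * g (σ z) + c) =ᶠ[𝓝 z]
      fun z => (p * deriv h (σ z) + q * deriv g (σ z)) * σ' z := by
    filter_upwards [isOpen_ball.mem_nhds (mem_D.2 hz)] with w hw
    exact (D1 w (mem_D.1 hw)).deriv
  rw [ev.deriv_eq]
  have a := ((hasDerivAt_of_D (hh.deriv isOpen_ball) (m z hz)).comp z (d1 z hz)).const_mul p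
  have b := ((hasDerivAt_of_D (hg.deriv isOpen_ball) (m z hz)).comp z (d1 z hz)).const_mul q
  refine (HasDerivAt.congr_deriv ((a.add b).mul (d2 z hz)) ?_).deriv
  simp only [Pi.add_apply, Function.comp]
  ring

lemma jac_comb (p q x y s : ℂ) :
    ‖(p * x + q * y) * s‖ ^ 2 - ‖(conj q * x + conj p * y) * s‖ ^ 2
      = (‖p‖ ^ 2 - ‖q‖ ^ 2) * (‖x‖ ^ 2 - ‖y‖ ^ 2) * ‖s‖ ^ 2 := by
  simp only [norm_mul, mul_pow, Complex.sq_norm, normSq_apply, add_re, add_im, mul_re, mul_im,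
    conj_re, conj_im]
  ring

lemma PJ_comb {p q x y x' y' s s' : ℂ} (hp : ‖q‖ < ‖p‖) (hx : ‖y‖ < ‖x‖) (hs : s ≠ 0) :
    (((p * x' + q * y') * s ^ 2 + (p * x + q * y) * s') * conj ((p * x + q * y) * s)
      - ((conj q * x' + conj p * y') * s ^ 2 + (conj q * x + conj p * y) * s')
        * conj ((conj q * x + conj p * y) * s)) /
      ((‖(p * x + q * y) * s‖ ^ 2 - ‖(conj q * x + conj p * y) * s‖ ^ 2 : ℝ) : ℂ)
      = s * ((x' * conj x - y' * conj y) / ((‖x‖ ^ 2 - ‖y‖ ^ 2 : ℝ) : ℂ)) + s' / s := by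
  have p1 : 0 < ‖p‖ ^ 2 - ‖q‖ ^ 2 := by nlinarith [norm_nonneg q]
  have p2 : 0 < ‖x‖ ^ 2 - ‖y‖ ^ 2 := by nlinarith [norm_nonneg y]
  have e1 : ((‖p‖ ^ 2 - ‖q‖ ^ 2 : ℝ) : ℂ) = conj p * p - conj q * q := by
    rw [conj_mul_self, conj_mul_self]; push_cast; ring
  have e2 : ((‖x‖ ^ 2 - ‖y‖ ^ 2 : ℝ) : ℂ) = conj x * x - conj y * y := by
    rw [conj_mul_self, conj_mul_self]; push_cast; ring
  have c1 : conj p * p - conj q * q ≠ 0 := by rw [← e1]; exact_mod_cast p1.ne'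
  have c2 : conj x * x - conj y * y ≠ 0 := by rw [← e2]; exact_mod_cast p2.ne'
  have c3 : conj s ≠ 0 := (map_ne_zero _).2 hs
  rw [jac_comb, ofReal_mul, ofReal_mul, e1, e2, ← conj_mul_self]
  simp only [map_mul, map_add, conj_conj]
  rw [div_eq_iff (mul_ne_zero (mul_ne_zero c1 c2) (mul_ne_zero c3 hs))]
  generalize hu : conj x * x - conj y * y = u at c2 ⊢
  field_simp
  rw [← hu]
  ring

/-- Renormalisation of `f` at a point of the disc. -/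
lemma SH.renorm {h g : ℂ → ℂ} (S : SH h g) {ζ e : ℂ} (hζ : ‖ζ‖ < 1) (he : ‖e‖ = 1) :
    ∃ H G : ℂ → ℂ, SH H G ∧ deriv (deriv H) 0 / 2 = e * Aq h g ζ ∧
      ∀ z : ℂ, ‖z‖ < 1 → ∃ w : ℂ, ‖w‖ < 1 ∧ ‖Aq H G z‖ = ‖Aq h g w‖ := by
  have ez : ∀ z : ℂ, ‖z‖ < 1 → ‖e * z‖ < 1 := fun z hz => by rwa [norm_mul, he, one_mul]
  have e0 : e ≠ 0 := by rintro rfl; simp at he
  have ee : conj e * e = 1 := by rw [conj_mul_self, he]; simp
  have pζ : 0 < 1 - ‖ζ‖ ^ 2 := by nlinarith [norm_nonneg ζ]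
  have kζ : 1 - conj ζ * ζ = ((1 - ‖ζ‖ ^ 2 : ℝ) : ℂ) := by rw [conj_mul_self]; push_cast; ring
  have k0 : 1 - conj ζ * ζ ≠ 0 := by rw [kζ]; exact_mod_cast pζ.ne'
  set σ : ℂ → ℂ := fun z => mob ζ (e * z) with hσ
  set σ' : ℂ → ℂ := fun z => (1 - conj ζ * ζ) * e / (1 + conj ζ * (e * z)) ^ 2 with hσ'
  set σ'' : ℂ → ℂ := fun z => σ' z * (-2 * conj ζ * e / (1 + conj ζ * (e * z))) with hσ''
  have m : ∀ z : ℂ, ‖z‖ < 1 → ‖σ z‖ < 1 := fun z hz => norm_mob_lt hζ (ez z hz)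
  have d1 : ∀ z : ℂ, ‖z‖ < 1 → HasDerivAt σ (σ' z) z := fun z hz =>
    HasDerivAt.congr_deriv ((hasDerivAt_mob hζ (ez z hz)).comp z ((hasDerivAt_id z).const_mul e))
      (by simp only [hσ']; ring)
  have d2 : ∀ z : ℂ, ‖z‖ < 1 → HasDerivAt σ' (σ'' z) z := by
    intro z hz
    have n0 := mob_den hζ (ez z hz)
    have := (hasDerivAt_const z ((1 - conj ζ * ζ) * e)).div
      (((((hasDerivAt_id z).const_mul e).const_mul (conj ζ)).const_add 1).pow 2) (pow_ne_zero 2 n0)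
    refine HasDerivAt.congr_deriv this ?_
    simp only [hσ'', hσ', id, Pi.pow_apply]
    generalize 1 + conj ζ * (e * z) = D at n0 ⊢
    field_simp
    norm_num
    ring
  have s0 : ∀ z : ℂ, ‖z‖ < 1 → σ' z ≠ 0 := fun z hz =>
    div_ne_zero (mul_ne_zero k0 e0) (pow_ne_zero 2 (mob_den hζ (ez z hz)))
  have σ0 : σ 0 = ζ := by simp [hσ, mob]
  set A := deriv h ζ * σ' 0 with hA
  set B := deriv g ζ * σ' 0 with hB
  have AB : ‖B‖ < ‖A‖ := by
    rw [hA, hB, norm_mul, norm_mul]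
    exact mul_lt_mul_of_pos_right (S.lt ζ (mem_D.2 hζ)) (norm_pos_iff.2 (s0 0 (by simp)))
  have pJ : 0 < ‖A‖ ^ 2 - ‖B‖ ^ 2 := by nlinarith [norm_nonneg B]
  set J : ℂ := ((‖A‖ ^ 2 - ‖B‖ ^ 2 : ℝ) : ℂ) with hJ
  have J0 : J ≠ 0 := by rw [hJ]; exact_mod_cast pJ.ne'
  have Je : J = conj A * A - conj B * B := by
    rw [hJ, conj_mul_self, conj_mul_self]; push_cast; ring
  have Jc : conj J = J := conj_ofReal _
  set p := conj A / J with hp
  set q := -conj B / J with hq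
  have pq : ‖q‖ < ‖p‖ := by
    rw [hp, hq, norm_div, norm_div, norm_neg, Complex.norm_conj, Complex.norm_conj]
    exact div_lt_div_of_pos_right AB (norm_pos_iff.2 J0)
  obtain ⟨H1, H2⟩ := deriv_comb S.hh S.hg m d1 d2 p q (-(p * h ζ + q * g ζ))
  obtain ⟨G1, G2⟩ := deriv_comb S.hh S.hg m d1 d2 (conj q) (conj p) (-(conj q * h ζ + conj p * g ζ))
  set H : ℂ → ℂ := fun z => p * h (σ z) + q * g (σ z) + -(p * h ζ + q * g ζ) with hH
  set G : ℂ → ℂ := fun z => conj q * h (σ z) + conj p * g (σ z) + -(conj q * h ζ + conj p * g ζ)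
    with hG
  have h1 : deriv H 0 = 1 := by
    rw [(H2 0 (by simp)).1, σ0, add_mul, mul_assoc, mul_assoc, ← hA, ← hB, hp, hq]
    field_simp
    rw [Je]; ring
  have g1 : deriv G 0 = 0 := by
    rw [(G2 0 (by simp)).1, σ0, add_mul, mul_assoc, mul_assoc, ← hA, ← hB, hp, hq]
    simp only [map_div₀, map_neg, conj_conj, Jc]
    ring
  have key : ∀ z : ℂ, ‖z‖ < 1 → Aq H G z =
      e * conj (1 + conj ζ * (e * z)) / (1 + conj ζ * (e * z)) * Aq h g (σ z) := by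
    intro z hz
    have n0 := mob_den hζ (ez z hz)
    have n1 : conj (1 + conj ζ * (e * z)) ≠ 0 := (map_ne_zero _).2 n0
    have o := one_sub_mob hζ (ez z hz)
    rw [norm_mul, he, one_mul] at o
    rw [Aq, PJ, (H2 z hz).1, (H2 z hz).2, (G2 z hz).1, (G2 z hz).2,
      PJ_comb pq (S.lt _ (mem_D.2 (m z hz))) (s0 z hz), Aq, ← PJ]
    simp only [hσ'']
    rw [mul_div_cancel_left₀ _ (s0 z hz)]
    have o' : ((1 - ‖σ z‖ ^ 2 : ℝ) : ℂ) = (1 - conj ζ * ζ) * (1 - conj z * z) /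
        (conj (1 + conj ζ * (e * z)) * (1 + conj ζ * (e * z))) := by
      simp only [hσ]
      rw [o, conj_mul_self, conj_mul_self, conj_mul_self]; push_cast; ring
    have o'' : ((1 - ‖z‖ ^ 2 : ℝ) : ℂ) = 1 - conj z * z := by rw [conj_mul_self]; push_cast; ring
    have cσ : conj (σ z) = (conj e * conj z + conj ζ) / conj (1 + conj ζ * (e * z)) := by
      simp only [hσ, mob, map_div₀, map_add (starRingEnd ℂ) (e * z), map_mul]
    rw [o', o'', cσ]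
    simp only [hσ']
    generalize conj (1 + conj ζ * (e * z)) = n at *
    generalize PJ h g (σ z) = Q
    generalize hD : 1 + conj ζ * (e * z) = D at n0 ⊢
    rw [← sub_eq_zero]
    calc _ = (conj z * (1 + conj ζ * (e * z) - D) + conj z * (conj e * e - 1)) / D := by
          field_simp; ring
      _ = 0 := by rw [hD, ee]; simp
  refine ⟨H, G, ⟨H1, G1, by simp [hH, σ0], by simp [hG, σ0], h1, g1, ?_, ?_⟩, ?_, ?_⟩
  · intro z hz w hw E
    have hz' := mem_D.1 hz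
    have hw' := mem_D.1 hw
    simp only [hH, hG, map_add, map_mul, map_neg, conj_conj] at E
    set d := (h (σ z) + conj (g (σ z))) - (h (σ w) + conj (g (σ w))) with hd
    have E' : p * d = -(q * conj d) := by
      simp only [hd, map_sub, map_add, conj_conj]
      linear_combination E
    have d0 : d = 0 := by
      by_contra hne
      have := congrArg norm E'
      rw [norm_neg, norm_mul, norm_mul, Complex.norm_conj] at this
      have := mul_right_cancel₀ (norm_ne_zero_iff.2 hne) this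
      linarith
    have := S.inj (mem_D.2 (m z hz')) (mem_D.2 (m w hw')) (sub_eq_zero.1 d0)
    exact mul_left_cancel₀ e0 (mob_inj hζ (ez z hz') (ez w hw') this)
  · intro z hz
    have hz' := mem_D.1 hz
    have j := jac_comb p q (deriv h (σ z)) (deriv g (σ z)) (σ' z)
    rw [← (H2 z hz').1, ← (G2 z hz').1] at j
    have a1 : 0 < ‖p‖ ^ 2 - ‖q‖ ^ 2 := by nlinarith [norm_nonneg q]
    have a2 : 0 < ‖deriv h (σ z)‖ ^ 2 - ‖deriv g (σ z)‖ ^ 2 := by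
      nlinarith [norm_nonneg (deriv g (σ z)), S.lt _ (mem_D.2 (m z hz'))]
    have a3 : 0 < ‖σ' z‖ := norm_pos_iff.2 (s0 z hz')
    have : 0 < ‖deriv H z‖ ^ 2 - ‖deriv G z‖ ^ 2 := by rw [j]; positivity
    exact lt_of_pow_lt_pow_left₀ 2 (norm_nonneg _) (by linarith)
  · have := key 0 (by simp)
    rw [σ0, Aq, PJ, h1, g1] at this
    simp at this
    rw [← this]; ring
  · intro z hz
    refine ⟨σ z, m z hz, ?_⟩
    rw [key z hz, norm_mul, norm_div, norm_mul, he, Complex.norm_conj, one_mul,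
      div_self (norm_ne_zero_iff.2 (mob_den hζ (ez z hz))), one_mul]

lemma SH.dilate {h g : ℂ → ℂ} (S : SH h g) {τ : ℝ} (h0 : 0 < τ) (h1 : τ < 1) :
    ∃ H G : ℂ → ℂ, SH H G ∧ ∀ z : ℂ, ‖z‖ < 1 →
      Aq H G z = ((1 - ‖z‖ ^ 2 : ℝ) : ℂ) / 2 * (τ * PJ h g (τ * z)) - conj z := by
  have τ0 : (τ : ℂ) ≠ 0 := by exact_mod_cast h0.ne'
  have m : ∀ z : ℂ, ‖z‖ < 1 → ‖τ * z‖ < 1 := fun z hz => by
    rw [norm_mul, norm_real, Real.norm_eq_abs, abs_of_pos h0]; nlinarith [norm_nonneg z]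
  have d1 : ∀ z : ℂ, ‖z‖ < 1 → HasDerivAt (fun z : ℂ => τ * z) ((fun _ => (τ : ℂ)) z) z :=
    fun z _ => by simpa using (hasDerivAt_id z).const_mul (τ : ℂ)
  have d2 : ∀ z : ℂ, ‖z‖ < 1 → HasDerivAt (fun _ : ℂ => (τ : ℂ)) ((fun _ => (0 : ℂ)) z) z :=
    fun z _ => hasDerivAt_const _ _
  have pq : ‖(0 : ℂ)‖ < ‖(τ : ℂ)⁻¹‖ := by rw [norm_zero]; exact norm_pos_iff.2 (inv_ne_zero τ0)
  have cτ : conj ((τ : ℂ)⁻¹) = (τ : ℂ)⁻¹ := by simp
  obtain ⟨H1, H2⟩ := deriv_comb S.hh S.hg m d1 d2 (τ : ℂ)⁻¹ 0 0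
  obtain ⟨G1, G2⟩ := deriv_comb S.hh S.hg m d1 d2 (conj 0) (conj (τ : ℂ)⁻¹) 0
  refine ⟨_, _, ⟨H1, G1, by simp [S.h0], by simp [S.g0], ?_, ?_, ?_, ?_⟩, ?_⟩
  · rw [(H2 0 (by simp)).1]; simp [S.h1, τ0]
  · rw [(G2 0 (by simp)).1]; simp [S.g1]
  · intro z hz w hw E
    simp only [map_zero, zero_mul, add_zero, zero_add, map_mul, cτ, ← mul_add] at E
    have := S.inj (mem_D.2 (m z (mem_D.1 hz))) (mem_D.2 (m w (mem_D.1 hw)))
      (mul_left_cancel₀ (inv_ne_zero τ0) E)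
    exact mul_left_cancel₀ τ0 this
  · intro z hz
    rw [(H2 z (mem_D.1 hz)).1, (G2 z (mem_D.1 hz)).1, cτ]
    simp only [map_zero, zero_mul, add_zero, zero_add]
    have : ∀ x : ℂ, (τ : ℂ)⁻¹ * x * τ = x := fun x => by field_simp
    rw [this, this]
    exact S.lt _ (mem_D.2 (m z (mem_D.1 hz)))
  · intro z hz
    rw [Aq, PJ, (H2 z hz).1, (H2 z hz).2, (G2 z hz).1, (G2 z hz).2,
      PJ_comb pq (S.lt _ (mem_D.2 (m z hz))) τ0, ← PJ]
    simp

/-- The continuity argument. -/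
theorem bootstrap {α : ℝ} (hα : 1 < α)
    (key : ∀ H G : ℂ → ℂ, SH H G → (∀ z : ℂ, ‖z‖ < 1 → ‖Aq H G z‖ ≤ α) →
      deriv (deriv H) 0 / 2 ≠ α)
    {h g : ℂ → ℂ} (S : SH h g) : ‖deriv (deriv h) 0 / 2‖ ≤ α := by
  set A : ℝ × ℂ → ℝ := fun p =>
    ‖((1 - ‖p.2‖ ^ 2 : ℝ) : ℂ) / 2 * (p.1 * PJ h g (p.1 * p.2)) - conj p.2‖ with hA
  have PJc : ContinuousOn (PJ h g) (ball 0 1) := by
    have c1 := S.dh.continuousOn
    have c2 := S.dg.continuousOn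
    have c3 := (S.dh.deriv isOpen_ball).continuousOn
    have c4 := (S.dg.deriv isOpen_ball).continuousOn
    refine ((c3.mul (continuous_conj.comp_continuousOn c1)).sub
      (c4.mul (continuous_conj.comp_continuousOn c2))).div
      (continuous_ofReal.comp_continuousOn ((c1.norm.pow 2).sub (c2.norm.pow 2))) ?_
    intro z hz
    have : 0 < ‖deriv h z‖ ^ 2 - ‖deriv g z‖ ^ 2 := by
      nlinarith [norm_nonneg (deriv g z), S.lt z hz]
    exact_mod_cast this.ne'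
  have main : ∀ τ₀ : ℝ, 0 ≤ τ₀ → τ₀ < 1 → A (τ₀, 0) < α := by
    intro τ₀ h0 h1
    set K : Set (ℝ × ℂ) := Icc 0 τ₀ ×ˢ closedBall 0 1 with hK
    have Kc : IsCompact K := isCompact_Icc.prod (isCompact_closedBall _ _)
    have Ac : ContinuousOn A K := by
      refine ContinuousOn.norm (ContinuousOn.sub (ContinuousOn.mul (by fun_prop)
        (ContinuousOn.mul (by fun_prop) (PJc.comp (by fun_prop) ?_))) (by fun_prop))
      intro p hp
      refine mem_D.2 ?_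
      rw [norm_mul, norm_real, Real.norm_eq_abs, abs_of_nonneg hp.1.1]
      nlinarith [mem_closedBall_zero_iff.1 hp.2, hp.1.1, hp.1.2, norm_nonneg p.2]
    by_contra hh
    push Not at hh
    have Tc : IsCompact (K ∩ A ⁻¹' Ici α) :=
      Kc.of_isClosed_subset (Ac.preimage_isClosed_of_isClosed Kc.isClosed isClosed_Ici)
        inter_subset_left
    obtain ⟨⟨τ, ζ⟩, ⟨⟨hτ, hζ⟩, hle⟩, hmin⟩ := Tc.exists_isMinOn
      ⟨(τ₀, 0), ⟨⟨h0, le_rfl⟩, by simp⟩, hh⟩ continuous_fst.continuousOn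
    have hle' : α ≤ A (τ, ζ) := hle
    have hζ' : ‖ζ‖ ≤ 1 := mem_closedBall_zero_iff.1 hζ
    have τp : 0 < τ := by
      rcases hτ.1.eq_or_lt with e | e
      · simp only at e
        subst e
        simp [hA] at hle'
        linarith
      · exact e
    have ζ1 : ‖ζ‖ < 1 := by
      rcases hζ'.eq_or_lt with e | e
      · simp [hA, e] at hle'
        linarith
      · exact e
    have bd : ∀ z : ℂ, ‖z‖ < 1 → A (τ, z) ≤ α := by
      intro z hz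
      have zK : z ∈ closedBall (0 : ℂ) 1 := mem_closedBall_zero_iff.2 hz.le
      have c1 : ContinuousOn (fun s : ℝ => A (s, z)) (Icc 0 τ) :=
        Ac.comp (by fun_prop) fun s hs => ⟨⟨hs.1, hs.2.trans hτ.2⟩, zK⟩
      have c2 : ∀ s ∈ Ico 0 τ, A (s, z) ≤ α := by
        intro s hs
        by_contra hc
        push Not at hc
        have := hmin (a := (s, z)) ⟨⟨⟨hs.1, hs.2.le.trans hτ.2⟩, zK⟩, hc.le⟩
        exact absurd hs.2 (not_lt.2 this)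
      refine ContinuousWithinAt.closure_le (s := Ico 0 τ) (f := fun s => A (s, z))
        (g := fun _ => α) ?_ ((c1 τ ⟨τp.le, le_rfl⟩).mono Ico_subset_Icc_self)
        continuousWithinAt_const c2
      rw [closure_Ico τp.ne]
      exact ⟨τp.le, le_rfl⟩
    obtain ⟨H, G, S', hAq⟩ := S.dilate τp (hτ.2.trans_lt h1)
    have eq : ‖Aq H G ζ‖ = α := by rw [hAq ζ ζ1]; exact le_antisymm (bd ζ ζ1) hle'
    have α0 : (α : ℂ) ≠ 0 := by exact_mod_cast (zero_lt_one.trans hα).ne'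
    obtain ⟨H', G', S'', e2, hb⟩ := S'.renorm (e := conj (Aq H G ζ) / α) ζ1 (by
      rw [norm_div, Complex.norm_conj, eq, norm_real, Real.norm_eq_abs,
        abs_of_pos (zero_lt_one.trans hα), div_self (zero_lt_one.trans hα).ne'])
    refine key H' G' S'' (fun z hz => ?_) ?_
    · obtain ⟨w, hw, e⟩ := hb z hz
      rw [e, hAq w hw]
      exact bd w hw
    · rw [e2, div_mul_eq_mul_div, conj_mul_self, eq]
      push_cast
      field_simp
  have val : ∀ τ : ℝ, 0 ≤ τ → A (τ, 0) = τ * ‖deriv (deriv h) 0 / 2‖ := by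
    intro τ hτ
    simp [hA, PJ, S.h1, S.g1, abs_of_nonneg hτ]
    ring
  have lim : Tendsto (fun τ : ℝ => τ * ‖deriv (deriv h) 0 / 2‖) (𝓝[<] 1)
      (𝓝 (1 * ‖deriv (deriv h) 0 / 2‖)) :=
    (tendsto_nhdsWithin_of_tendsto_nhds tendsto_id).mul_const _
  rw [one_mul] at lim
  refine le_of_tendsto lim ?_
  filter_upwards [Ioo_mem_nhdsLT zero_lt_one] with τ hτ
  rw [← val τ hτ.1.le]
  exact (main τ hτ.1.le hτ.2).le

end Pool.Agent.MP_334d28_an
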