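import Pool.Agent.MP_334d28_an.Green
import Pool.Agent.MP_334d28_an.Mob

/-! The oscillating moment of the dilatation, estimated by shifting the contour. -/

open Complex Metric Set Filter Topology MeasureTheory
open scoped ComplexConjugate Real

namespace Pool.Agent.MP_334d28_an

lemma exp_majorant {u m c : ℝ} (hm : 0 < m) (hu : u ≤ m) (hc : Real.exp m ≤ 1 + m + c * m ^ 2) :
    Real.exp u ≤ 1 + u + c * u ^ 2 := by
  have rep : ∀ v : ℝ, v ^ 2 * ∫ σ in (0 : ℝ)..1, (1 - σ) * Real.exp (σ * v)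
      = Real.exp v - 1 - v := by
    intro v
    rw [← intervalIntegral.integral_const_mul, intervalIntegral.integral_eq_sub_of_hasDerivAt
      (f := fun σ => v * (1 - σ) * Real.exp (σ * v) + Real.exp (σ * v))]
    · simp; ring
    · intro σ _
      have d := ((hasDerivAt_id σ).mul_const v).exp
      refine HasDerivAt.congr_deriv
        (((((hasDerivAt_id σ).const_sub 1).const_mul v).mul d).add d) ?_
      simp only [id]; ring
    · exact Continuous.intervalIntegrable (by fun_prop) _ _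
  have mono : ∫ σ in (0 : ℝ)..1, (1 - σ) * Real.exp (σ * u)
      ≤ ∫ σ in (0 : ℝ)..1, (1 - σ) * Real.exp (σ * m) := by
    refine intervalIntegral.integral_mono_on zero_le_one
      (Continuous.intervalIntegrable (by fun_prop) _ _)
      (Continuous.intervalIntegrable (by fun_prop) _ _) fun σ hσ => ?_
    have := hσ.1
    have : 0 ≤ 1 - σ := by linarith [hσ.2]
    gcongr
  have h1 : ∫ σ in (0 : ℝ)..1, (1 - σ) * Real.exp (σ * m) ≤ c := by
    have := rep m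
    apply le_of_mul_le_mul_left _ (pow_pos hm 2)
    linarith
  have := rep u
  nlinarith [mul_le_mul_of_nonneg_left (mono.trans h1) (sq_nonneg u)]

lemma circ_eq (F : ℂ → ℂ) {R : ℝ} (hR : 0 < R) :
    (∮ z in C(0, R), (z - 0)⁻¹ • F z) = I * ∫ θ in (-π)..π, F (pz R θ) := by
  have per : Function.Periodic (fun θ => F (pz R θ)) (2 * π) := by
    intro θ
    simp only [pz]
    rw [show ((θ + 2 * π : ℝ) : ℂ) * I = θ * I + 2 * π * I by push_cast; ring, exp_add,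
      exp_two_pi_mul_I, mul_one]
  have := per.intervalIntegral_add_eq (-π) 0
  rw [show -π + 2 * π = π by ring, zero_add] at this
  rw [this, circleIntegral, ← intervalIntegral.integral_const_mul]
  refine intervalIntegral.integral_congr fun θ _ => ?_
  have e : circleMap 0 R θ = pz R θ := by simp [circleMap, pz]
  have := pz_ne hR θ
  simp only [deriv_circleMap, e, sub_zero, smul_eq_mul]
  field_simp

lemma int_cos_one : ∫ θ in (-π)..π, (pz 1 θ).re = 0 := by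
  simp [pz]

lemma weighted_mean {Ψ : ℂ → ℂ} {U : Set ℂ} (hU : IsOpen U) (hc : closedBall 0 1 ⊆ U)
    (hΨ : DifferentiableOn ℂ Ψ U) (W v : ℝ) :
    ∫ θ in (-π)..π, (W + 2 * v * (pz 1 θ).re) * (Ψ (pz 1 θ)).re
      = 2 * π * (W * (Ψ 0).re + v * (deriv Ψ 0).re) := by
  have m : ∀ θ, pz 1 θ ∈ U := fun θ => hc (mem_closedBall_zero_iff.2 (norm_pz' zero_le_one θ).le)
  have cp : Continuous fun θ => pz 1 θ := by fun_prop
  have cΨ : Continuous fun θ => Ψ (pz 1 θ) := hΨ.continuousOn.comp_continuous cp m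
  have z0 : ∀ θ, pz 1 θ ≠ 0 := pz_ne one_pos
  have h0 : ∫ θ in (-π)..π, Ψ (pz 1 θ) = 2 * π * Ψ 0 := by
    have := (hΨ.mono hc).circleIntegral_sub_inv_smul (mem_ball_self one_pos)
    rw [circ_eq _ one_pos, smul_eq_mul] at this
    apply mul_left_cancel₀ I_ne_zero
    rw [this]; ring
  have h1 : ∫ θ in (-π)..π, pz 1 θ * Ψ (pz 1 θ) = 0 := by
    have := ((differentiableOn_id.mul hΨ).mono hc).circleIntegral_sub_inv_smul
      (mem_ball_self one_pos)
    rw [circ_eq _ one_pos, smul_eq_mul] at this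
    simpa using this
  have h2 : ∫ θ in (-π)..π, (pz 1 θ)⁻¹ * Ψ (pz 1 θ) = 2 * π * deriv Ψ 0 := by
    have := two_pi_I_inv_smul_circleIntegral_sub_sq_inv_smul_of_differentiable hU hc hΨ
      (mem_ball_self one_pos)
    have e : (fun z : ℂ => ((z - 0) ^ 2)⁻¹ • Ψ z) = fun z : ℂ => (z - 0)⁻¹ • (z⁻¹ * Ψ z) := by
      ext z; simp only [sub_zero, smul_eq_mul]; rw [pow_two, mul_inv, mul_assoc]
    rw [e, circ_eq _ one_pos, smul_eq_mul] at this
    rw [← this]
    have : (π : ℂ) ≠ 0 := by exact_mod_cast Real.pi_ne_zero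
    field_simp
  have e : ∀ θ, (W + 2 * v * (pz 1 θ).re) * (Ψ (pz 1 θ)).re =
      (W * Ψ (pz 1 θ) + v * (pz 1 θ * Ψ (pz 1 θ)) + v * ((pz 1 θ)⁻¹ * Ψ (pz 1 θ))).re := by
    intro θ
    have : (pz 1 θ)⁻¹ = conj (pz 1 θ) := by
      rw [inv_def, normSq_eq_norm_sq, norm_pz' zero_le_one]; simp
    rw [this]
    simp only [add_re, mul_re, mul_im, ofReal_re, ofReal_im, conj_re, conj_im]
    ring
  have c1 : Continuous fun θ => (W : ℂ) * Ψ (pz 1 θ) := continuous_const.mul cΨ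
  have c2 : Continuous fun θ => (v : ℂ) * (pz 1 θ * Ψ (pz 1 θ)) := continuous_const.mul (cp.mul cΨ)
  have c3 : Continuous fun θ => (v : ℂ) * ((pz 1 θ)⁻¹ * Ψ (pz 1 θ)) :=
    continuous_const.mul ((cp.inv₀ z0).mul cΨ)
  have := reCLM.intervalIntegral_comp_comm
    (((c1.add c2).add c3).intervalIntegrable (μ := volume) (-π) π)
  simp only [reCLM_apply, Pi.add_apply] at this
  simp_rw [e]
  rw [this, intervalIntegral.integral_add
    ((c1.intervalIntegrable _ _).add (c2.intervalIntegrable _ _)) (c3.intervalIntegrable _ _), intervalIntegral.integral_add (c1.intervalIntegrable _ _)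
    (c2.intervalIntegrable _ _), intervalIntegral.integral_const_mul,
    intervalIntegral.integral_const_mul, intervalIntegral.integral_const_mul, h0, h1, h2]
  simp only [add_re, mul_re, mul_im, ofReal_re, ofReal_im, re_ofNat, im_ofNat, zero_re, zero_im]
  ring

/-- Polynomial majorant of the growth of `log h'`. -/
noncomputable def Fp (α κ x : ℝ) : ℝ :=
  2 * α * x + x ^ 2 / 2 + x ^ 4 / 2 + κ * (2 * α * x ^ 3 / 3 + x ^ 4 / 4 + x ^ 6 / 3)

lemma hasDerivAt_Fp (α κ x : ℝ) :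
    HasDerivAt (Fp α κ) ((2 * α + x + 2 * x ^ 3) * (1 + κ * x ^ 2)) x := by
  have d := hasDerivAt_id x
  refine HasDerivAt.congr_deriv ((((d.const_mul (2 * α)).add ((d.pow 2).div_const 2)).add
    ((d.pow 4).div_const 2)).add ((((((d.pow 3).const_mul (2 * α)).div_const 3).add
    ((d.pow 4).div_const 4)).add ((d.pow 6).div_const 3)).const_mul κ)) ?_
  simp only [id]; push_cast; ring

namespace SH

variable {h g : ℂ → ℂ} (S : SH h g)
include S

lemma exists_log : ∃ Λ : ℂ → ℂ, Λ 0 = 0 ∧ (∀ z : ℂ, ‖z‖ < 1 →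
    HasDerivAt Λ (deriv (deriv h) z / deriv h z) z) ∧ ∀ z : ℂ, ‖z‖ < 1 → exp (Λ z) = deriv h z := by
  have hd : DifferentiableOn ℂ (fun z => deriv (deriv h) z / deriv h z) (ball 0 1) :=
    (S.dh.deriv isOpen_ball).div S.dh fun z hz => S.dh_ne (mem_D.1 hz)
  obtain ⟨Λ, h0, hΛ⟩ := hd.isExactOn_ball.with_val_at 0 0
  refine ⟨Λ, h0, fun z hz => hΛ z (mem_D.2 hz), fun z hz => ?_⟩
  have D : ∀ w ∈ ball (0 : ℂ) 1, HasDerivAt (fun w => deriv h w * exp (-Λ w)) 0 w := by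
    intro w hw
    refine HasDerivAt.congr_deriv ((hasDerivAt_of_D S.dh (mem_D.1 hw)).mul (hΛ w hw).neg.cexp) ?_
    have := S.dh_ne (mem_D.1 hw)
    simp only [Pi.neg_apply]
    field_simp; ring
  have := isOpen_ball.is_const_of_deriv_eq_zero (convex_ball (0 : ℂ) 1).isPreconnected
    (fun w hw => (D w hw).differentiableAt.differentiableWithinAt) (fun w hw => (D w hw).deriv)
    (mem_D.2 hz) (mem_ball_self one_pos)
  simp only [S.h1, h0, neg_zero, exp_zero, mul_one, exp_neg] at this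
  rw [mul_inv_eq_one₀ (exp_ne_zero _)] at this
  exact this.symm

lemma log_growth {α κ ρ₁ ρ₂ : ℝ} (hα : 0 ≤ α) (hA : ∀ z : ℂ, ‖z‖ < 1 → ‖Aq h g z‖ ≤ α) {Λ : ℂ → ℂ}
    (hΛ : ∀ z : ℂ, ‖z‖ < 1 → HasDerivAt Λ (deriv (deriv h) z / deriv h z) z)
    (h0 : 0 ≤ ρ₁) (h12 : ρ₁ ≤ ρ₂) (h2 : ρ₂ < 1) (hκ : 1 ≤ κ * (1 - ρ₂ ^ 2)) {ζ : ℂ} (hζ : ‖ζ‖ = 1) :
    ‖Λ (ρ₁ * ζ) - Λ (ρ₂ * ζ) + ((ρ₂ ^ 2 - ρ₁ ^ 2 : ℝ) : ℂ)‖ ≤ Fp α κ ρ₂ - Fp α κ ρ₁ := by
  have nz : ∀ u : ℝ, 0 ≤ u → ‖u * ζ‖ = u := fun u hu => by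
    rw [norm_mul, hζ, mul_one, norm_real, Real.norm_eq_abs, abs_of_nonneg hu]
  have D : ∀ u ∈ Icc ρ₁ ρ₂, HasDerivAt
      (fun u : ℝ => Λ (ρ₁ * ζ) - Λ (u * ζ) + ((u ^ 2 - ρ₁ ^ 2 : ℝ) : ℂ))
      (-(deriv (deriv h) (u * ζ) / deriv h (u * ζ) * ζ) + 2 * u) u := by
    intro u hu
    have d0 : HasDerivAt (fun u : ℝ => (u : ℂ)) 1 u := ofRealCLM.hasDerivAt
    have d1 := (hΛ (u * ζ) (by rw [nz u (h0.trans hu.1)]; exact hu.2.trans_lt h2)).comp_of_eq u
      (d0.mul_const ζ) rfl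
    have d2 := ((d1.const_sub (Λ (ρ₁ * ζ))).add ((d0.pow 2).sub_const ((ρ₁ : ℂ) ^ 2)))
    have e : (fun u : ℝ => Λ (ρ₁ * ζ) - Λ (u * ζ) + ((u ^ 2 - ρ₁ ^ 2 : ℝ) : ℂ))
        = fun u : ℝ => Λ (ρ₁ * ζ) - Λ (u * ζ) + ((u : ℂ) ^ 2 - (ρ₁ : ℂ) ^ 2) := by
      ext u; push_cast; ring
    rw [e]
    refine HasDerivAt.congr_deriv d2 ?_
    simp
  have := image_norm_le_of_norm_deriv_right_le_deriv_boundary
    (fun u hu => (D u hu).continuousAt.continuousWithinAt)
    (fun u hu => (D u (Ico_subset_Icc_self hu)).hasDerivWithinAt)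
    (B := fun u => Fp α κ u - Fp α κ ρ₁) (by simp)
    (fun u => (hasDerivAt_Fp α κ u).sub_const _) (fun u hu => by
      have u0 : 0 ≤ u := h0.trans hu.1
      have u1 : u < 1 := hu.2.trans h2
      have gb := S.G_bound (z := u * ζ) (by rwa [nz u u0]) (hA _ (by rwa [nz u u0]))
      rw [nz u u0] at gb
      have p : 0 < 1 - u ^ 2 := by nlinarith
      have pc : ((1 - u ^ 2 : ℝ) : ℂ) ≠ 0 := by exact_mod_cast p.ne'
      have cz : conj ζ * ζ = 1 := by rw [conj_mul_self, hζ]; simp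
      have e : -(deriv (deriv h) (u * ζ) / deriv h (u * ζ) * ζ) + 2 * u =
          -((deriv (deriv h) (u * ζ) / deriv h (u * ζ) - 2 * conj (u * ζ) / ((1 - u ^ 2 : ℝ) : ℂ)) * ζ)
            - ((2 * u ^ 3 / (1 - u ^ 2) : ℝ) : ℂ) := by
        rw [map_mul, conj_ofReal, ofReal_div]
        generalize deriv (deriv h) (u * ζ) / deriv h (u * ζ) = Q
        have : ((1 - u ^ 2 : ℝ) : ℂ) = 1 - u ^ 2 := by push_cast; ring
        generalize ((1 - u ^ 2 : ℝ) : ℂ) = v at *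
        push_cast
        field_simp
        linear_combination (2 * u : ℂ) * this - (2 * u : ℂ) * cz
      rw [e]
      refine (norm_sub_le _ _).trans ?_
      rw [norm_neg, norm_mul, hζ, mul_one, norm_real, Real.norm_eq_abs,
        abs_of_nonneg (by positivity)]
      have k1 : 1 / (1 - u ^ 2) ≤ 1 + κ * u ^ 2 := by
        rw [div_le_iff₀ p]
        have : u ^ 2 ≤ ρ₂ ^ 2 := pow_le_pow_left₀ u0 hu.2.le 2
        have κ0 : 0 ≤ κ := by
          by_contra hh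
          push Not at hh
          have : 0 < 1 - ρ₂ ^ 2 := by nlinarith
          nlinarith
        have : 1 ≤ κ * (1 - u ^ 2) := by nlinarith
        nlinarith [sq_nonneg u]
      calc _ ≤ (2 * α + u) / (1 - u ^ 2) + 2 * u ^ 3 / (1 - u ^ 2) := by gcongr
        _ = (2 * α + u + 2 * u ^ 3) * (1 / (1 - u ^ 2)) := by ring
        _ ≤ _ := by gcongr) ⟨h12, le_rfl⟩
  exact this

lemma shift_eq {t l a b : ℝ} (ht : 0 < t) (hl : 1 ≤ l) (htl : t * l < 1) :
    ∫ φ in (-π)..π, Mom h g t a b φ = ∫ θ in (-π)..π,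
      conj (deriv g (conj (t / pz l θ))) / deriv h (t * pz l θ) * (pz l θ ^ 3)⁻¹
        * (b + a * pz l θ) ^ 2 := by
  set F : ℂ → ℂ := fun τ => conj (deriv g (conj (t / τ))) / deriv h (t * τ) * (τ ^ 3)⁻¹
    * (b + a * τ) ^ 2 with hF
  have t1 : t < 1 := by nlinarith
  have D : ∀ τ : ℂ, 1 ≤ ‖τ‖ → ‖τ‖ ≤ l → DifferentiableAt ℂ F τ := by
    intro τ h1 h2
    have τ0 : τ ≠ 0 := by rintro rfl; norm_num at h1
    have n1 : ‖conj (t / τ)‖ < 1 := by
      rw [Complex.norm_conj, norm_div, norm_real, Real.norm_eq_abs, abs_of_pos ht,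
        div_lt_one (by linarith)]
      linarith
    have n2 : ‖t * τ‖ < 1 := by
      rw [norm_mul, norm_real, Real.norm_eq_abs, abs_of_pos ht]; nlinarith
    have d1 : DifferentiableAt ℂ (conj ∘ deriv g ∘ conj) (t / τ) :=
      differentiableAt_conj_conj_iff.2 (hasDerivAt_of_D S.dg n1).differentiableAt
    have d2 := d1.comp τ (f := fun τ : ℂ => t / τ) (by fun_prop (disch := exact τ0))
    have d3 := (hasDerivAt_of_D S.dh n2).differentiableAt.comp τ (f := fun τ : ℂ => t * τ)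
      (by fun_prop)
    exact ((d2.div d3 (S.dh_ne n2)).mul ((differentiableAt_id.pow 3).inv (pow_ne_zero 3 τ0))).mul
      (by fun_prop)
  have := circleIntegral_sub_center_inv_smul_eq_of_differentiable_on_annulus_off_countable
    (c := 0) one_pos hl (f := F) countable_empty
    (fun τ hτ => (D τ (not_lt.1 fun hh => hτ.2 (mem_ball_zero_iff.2 hh))
      (mem_closedBall_zero_iff.1 hτ.1)).continuousAt.continuousWithinAt)
    (fun τ hτ => D τ (not_le.1 fun hh => hτ.1.2 (mem_closedBall_zero_iff.2 hh)).le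
      (mem_ball_zero_iff.1 hτ.1.1).le)
  rw [circ_eq _ (zero_lt_one.trans_le hl), circ_eq _ one_pos] at this
  rw [mul_left_cancel₀ I_ne_zero this]
  refine intervalIntegral.integral_congr fun φ _ => ?_
  have e1 : pz 1 φ = exp (φ * I) := by simp [pz]
  have e2 : conj (t / exp (φ * I)) = pz t φ := by
    rw [map_div₀, conj_ofReal, ← exp_conj, pz, div_eq_mul_inv, ← exp_neg]; simp
  have e3 : (exp (φ * I) ^ 3)⁻¹ = exp ((-3 : ℤ) * φ * I) := by
    rw [← exp_nat_mul, ← exp_neg]; congr 1; push_cast; ring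
  simp only [hF, Mom, e1, e2, e3]
  rfl

theorem Tm_le {α κ t l a b n x m c : ℝ} (hα : 0 ≤ α) (hA : ∀ z : ℂ, ‖z‖ < 1 → ‖Aq h g z‖ ≤ α)
    (h2 : deriv (deriv h) 0 / 2 = α) (ht : 0 < t) (hl : 1 ≤ l) (htl : t * l < 1)
    (hκ : 1 ≤ κ * (1 - (t * l) ^ 2)) (hn : Fp α κ (t * l) - Fp α κ (t / l) ≤ n) (hm : 0 < m)
    (hx : n - ((t * l) ^ 2 - (t / l) ^ 2) - x ≤ m) (hc : Real.exp m ≤ 1 + m + c * m ^ 2) :
    Tm h g t a b ≤ 2 * Real.exp x * ((b ^ 2 + (a * l) ^ 2) *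
      (1 - x + c * ((n ^ 2 - ((t * l) ^ 2 - (t / l) ^ 2) ^ 2) / 2 + x ^ 2))
      - 2 * α * b * (a * l) * (t * l - t / l) * (1 - c * (((t * l) ^ 2 - (t / l) ^ 2) + 2 * x)))
      / (l ^ 4 * t * (1 - t ^ 2)) := by
  have hpi : -π ≤ π := by linarith [Real.pi_pos]
  have pp := Real.pi_pos
  have l0 : 0 < l := zero_lt_one.trans_le hl
  have t1 : t < 1 := by nlinarith
  obtain ⟨Λ, Λ0, Λd, Λe⟩ := S.exists_log
  set ρ₁ := t / l with hρ₁
  set ρ₂ := t * l with hρ₂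
  set s := ρ₂ ^ 2 - ρ₁ ^ 2 with hs
  set y := a * l with hy
  have r1 : 0 < ρ₁ := by positivity
  have r12 : ρ₁ ≤ ρ₂ := by rw [hρ₁, hρ₂, div_le_iff₀ l0]; nlinarith [mul_le_mul hl hl zero_le_one l0.le]
  have r2 : 0 < ρ₂ := r1.trans_le r12
  have c0 : 0 ≤ c := by
    have := Real.add_one_le_exp m
    by_contra hh
    push Not at hh
    nlinarith [mul_pos_of_neg_of_neg hh (neg_neg_of_pos (pow_pos hm 2))]
  set Φ : ℂ → ℂ := fun ζ => Λ (ρ₁ * ζ) - Λ (ρ₂ * ζ) + (s : ℂ) with hΦ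
  have ball2 : ∀ ζ ∈ ball (0 : ℂ) (1 / ρ₂), ‖ρ₁ * ζ‖ < 1 ∧ ‖ρ₂ * ζ‖ < 1 := by
    intro ζ hζ
    have := mem_ball_zero_iff.1 hζ
    rw [lt_div_iff₀ r2] at this
    rw [norm_mul, norm_mul, norm_real, norm_real, Real.norm_eq_abs, Real.norm_eq_abs,
      abs_of_pos r1, abs_of_pos r2]
    constructor <;> nlinarith [norm_nonneg ζ]
  have sub : closedBall (0 : ℂ) 1 ⊆ ball 0 (1 / ρ₂) :=
    closedBall_subset_ball (by rw [lt_div_iff₀ r2]; linarith)
  have Φd : ∀ ζ ∈ ball (0 : ℂ) (1 / ρ₂), HasDerivAt Φ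
      (deriv (deriv h) (ρ₁ * ζ) / deriv h (ρ₁ * ζ) * ρ₁
        - deriv (deriv h) (ρ₂ * ζ) / deriv h (ρ₂ * ζ) * ρ₂) ζ := by
    intro ζ hζ
    have d1 := (Λd _ (ball2 ζ hζ).1).comp ζ ((hasDerivAt_id ζ).const_mul (ρ₁ : ℂ))
    have d2 := (Λd _ (ball2 ζ hζ).2).comp ζ ((hasDerivAt_id ζ).const_mul (ρ₂ : ℂ))
    exact HasDerivAt.congr_deriv ((d1.sub d2).add_const (s : ℂ)) (by ring)
  have ΦD : DifferentiableOn ℂ Φ (ball 0 (1 / ρ₂)) := fun ζ hζ =>
    (Φd ζ hζ).differentiableAt.differentiableWithinAt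
  have Φ0 : Φ 0 = s := by simp [hΦ]
  have Φ1 : HasDerivAt Φ ((-(2 * α * (ρ₂ - ρ₁)) : ℝ) : ℂ) 0 := by
    refine HasDerivAt.congr_deriv (Φd 0 (sub (by simp))) ?_
    rw [mul_zero, mul_zero, S.h1]
    push_cast
    linear_combination (2 * (ρ₁ - ρ₂) : ℂ) * h2
  have M1 := weighted_mean isOpen_ball sub ΦD (b ^ 2 + y ^ 2) (b * y)
  have M2 := weighted_mean isOpen_ball sub (ΦD.pow 2) (b ^ 2 + y ^ 2) (b * y)
  rw [Φ0, Φ1.deriv, ofReal_re, ofReal_re] at M1
  rw [(Φ1.pow 2).deriv, Pi.pow_apply, Φ0] at M2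
  simp only [Pi.pow_apply, ← ofReal_pow, ofReal_re, Nat.cast_ofNat, Nat.add_one_sub_one,
    pow_one, mul_re, mul_im, re_ofNat, im_ofNat, ofReal_im, mul_zero, zero_mul, sub_zero,
    add_zero] at M2
  have mb : ∀ θ, pz 1 θ ∈ ball (0 : ℂ) (1 / ρ₂) := fun θ =>
    sub (mem_closedBall_zero_iff.2 (norm_pz' zero_le_one θ).le)
  have cΦ : Continuous fun θ => Φ (pz 1 θ) := ΦD.continuousOn.comp_continuous (by fun_prop) mb
  set k := s + x with hk
  set K := t / l ^ 4 * Real.exp x with hK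
  have pw : ∀ θ, ‖conj (deriv g (conj (t / pz l θ))) / deriv h (t * pz l θ) * (pz l θ ^ 3)⁻¹
        * (b + a * pz l θ) ^ 2‖ ≤
      K * (1 - k + c * k ^ 2 + c * n ^ 2 / 2) * (b ^ 2 + y ^ 2)
      + K * (1 - k + c * k ^ 2 + c * n ^ 2 / 2) * (2 * (b * y)) * (pz 1 θ).re
      + K * (1 - 2 * c * k) * ((b ^ 2 + y ^ 2 + 2 * (b * y) * (pz 1 θ).re) * (Φ (pz 1 θ)).re)
      + K * (c / 2) * ((b ^ 2 + y ^ 2 + 2 * (b * y) * (pz 1 θ).re) * (Φ (pz 1 θ) ^ 2).re) := by
    intro θ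
    set ζ := pz 1 θ with hζ
    have ζn : ‖ζ‖ = 1 := norm_pz' zero_le_one θ
    have cz : conj ζ * ζ = 1 := by rw [conj_mul_self, ζn]; simp
    have lc : (l : ℂ) ≠ 0 := by exact_mod_cast l0.ne'
    have ζ0 : ζ ≠ 0 := pz_ne one_pos θ
    have e0 : pz l θ = l * ζ := by simp [hζ, pz]
    have e1 : conj (t / (l * ζ)) = ρ₁ * ζ := by
      have : conj ζ = ζ⁻¹ := eq_inv_of_mul_eq_one_left cz
      rw [map_div₀, map_mul, conj_ofReal, conj_ofReal, this, hρ₁]; push_cast; field_simp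
    have e2 : t * (l * ζ) = ρ₂ * ζ := by rw [hρ₂]; push_cast; ring
    have e3 : ‖b + a * (l * ζ)‖ ^ 2 = b ^ 2 + y ^ 2 + 2 * (b * y) * ζ.re := by
      have : ζ.re ^ 2 + ζ.im ^ 2 = 1 := by
        have := Complex.sq_norm ζ
        rw [ζn, normSq_apply] at this
        linarith
      rw [Complex.sq_norm, normSq_apply, hy]
      simp only [add_re, add_im, mul_re, mul_im, ofReal_re, ofReal_im]
      linear_combination (a * l) ^ 2 * this
    obtain ⟨b1, b2⟩ := ball2 ζ (mb θ)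
    have sw := S.schwarz b1
    rw [norm_mul, ζn, mul_one, norm_real, Real.norm_eq_abs, abs_of_pos r1] at sw
    have gr := (S.log_growth hα hA Λd r1.le r12 htl hκ ζn).trans hn
    change ‖Φ ζ‖ ≤ n at gr
    set V := (Φ ζ).re with hV
    have ratio : ‖deriv h (ρ₁ * ζ)‖ / ‖deriv h (ρ₂ * ζ)‖ = Real.exp x * Real.exp (V - k) := by
      rw [← Λe _ b1, ← Λe _ b2, norm_exp, norm_exp, ← Real.exp_sub, ← Real.exp_add]
      congr 1
      simp only [hV, hΦ, hk, add_re, sub_re, ofReal_re]; ring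
    have Vn : V ≤ n := (re_le_norm _).trans gr
    have mj := exp_majorant hm (u := V - k) (by linarith) hc
    have V2 : V ^ 2 ≤ (n ^ 2 + (Φ ζ ^ 2).re) / 2 := by
      have : ‖Φ ζ‖ ^ 2 ≤ n ^ 2 := pow_le_pow_left₀ (norm_nonneg _) gr 2
      rw [Complex.sq_norm, normSq_apply] at this
      rw [pow_two (Φ ζ), mul_re]
      linarith
    have w0 : 0 ≤ b ^ 2 + y ^ 2 + 2 * (b * y) * ζ.re := by rw [← e3]; positivity
    rw [e0, e1, e2, norm_mul, norm_mul, norm_div, Complex.norm_conj, norm_inv, norm_pow, norm_pow,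
      norm_mul, ζn, mul_one, norm_real, Real.norm_eq_abs, abs_of_pos l0, e3]
    set w := b ^ 2 + y ^ 2 + 2 * (b * y) * ζ.re with hw
    have K0 : 0 ≤ K := by positivity
    calc _ ≤ ρ₁ * ‖deriv h (ρ₁ * ζ)‖ / ‖deriv h (ρ₂ * ζ)‖ * (l ^ 3)⁻¹ * w := by gcongr
      _ = K * w * Real.exp (V - k) := by
          rw [mul_div_assoc, ratio, hK, hρ₁]; field_simp
      _ ≤ K * w * (1 + (V - k) + c * (V - k) ^ 2) := by gcongr
      _ ≤ K * w * (1 - k + c * k ^ 2 + c * n ^ 2 / 2 + (1 - 2 * c * k) * V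
            + c / 2 * (Φ ζ ^ 2).re) := by
          refine mul_le_mul_of_nonneg_left ?_ (mul_nonneg K0 w0)
          nlinarith [mul_le_mul_of_nonneg_left V2 c0]
      _ = _ := by rw [hw]; ring
  have cM : Continuous fun φ => Mom h g t a b φ := by
    have m : ∀ φ, pz t φ ∈ ball (0 : ℂ) 1 := fun φ => mem_D.2 (by rwa [norm_pz' ht.le])
    have cp : Continuous fun φ => pz t φ := by fun_prop
    have c1 := S.dh.continuousOn.comp_continuous cp m
    have c2 := S.dg.continuousOn.comp_continuous cp m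
    exact (((continuous_conj.comp c2).div c1 fun φ => S.dh_ne (mem_D.1 (m φ))).mul
      (by fun_prop)).mul (by fun_prop)
  have re_eq := reCLM.intervalIntegral_comp_comm (cM.intervalIntegrable (μ := volume) (-π) π)
  simp only [reCLM_apply] at re_eq
  have cr : Continuous fun θ => (pz 1 θ).re := by fun_prop
  have j1 : IntervalIntegrable (fun _ : ℝ => K * (1 - k + c * k ^ 2 + c * n ^ 2 / 2)
    * (b ^ 2 + y ^ 2)) volume (-π) π := intervalIntegrable_const
  have j2 := (cr.intervalIntegrable (μ := volume) (-π) π).const_mul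
    (K * (1 - k + c * k ^ 2 + c * n ^ 2 / 2) * (2 * (b * y)))
  have j3 : IntervalIntegrable (fun θ => K * (1 - 2 * c * k) * ((b ^ 2 + y ^ 2
      + 2 * (b * y) * (pz 1 θ).re) * (Φ (pz 1 θ)).re)) volume (-π) π :=
    (continuous_const.mul ((continuous_const.add (continuous_const.mul cr)).mul
      (continuous_re.comp cΦ))).intervalIntegrable _ _
  have j4 : IntervalIntegrable (fun θ => K * (c / 2) * ((b ^ 2 + y ^ 2
      + 2 * (b * y) * (pz 1 θ).re) * (Φ (pz 1 θ) ^ 2).re)) volume (-π) π :=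
    (continuous_const.mul ((continuous_const.add (continuous_const.mul cr)).mul
      (continuous_re.comp (cΦ.pow 2)))).intervalIntegrable _ _
  have nb := intervalIntegral.norm_integral_le_of_norm_le hpi
    (Eventually.of_forall fun θ _ => pw θ) (((j1.add j2).add j3).add j4)
  rw [← S.shift_eq ht hl htl, intervalIntegral.integral_add ((j1.add j2).add j3) j4,
    intervalIntegral.integral_add (j1.add j2) j3, intervalIntegral.integral_add j1 j2,
    intervalIntegral.integral_const_mul, intervalIntegral.integral_const_mul,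
    intervalIntegral.integral_const_mul, intervalIntegral.integral_const_mul, int_cos_one, M1, M2,
    intervalIntegral.integral_const, smul_eq_mul] at nb
  have t2 : 0 < 1 - t ^ 2 := by nlinarith
  rw [Tm, re_eq]
  refine (div_le_div_of_nonneg_right (((neg_le_abs _).trans (abs_re_le_norm _)).trans nb)
    (by positivity)).trans (le_of_eq ?_)
  rw [hK, hk]
  field_simp
  ring

end SH

end Pool.Agent.MP_334d28_an
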